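import Pool.Agent.H977.E6.Count

/-! Deterministic case analysis. -/

open Finset

namespace Pool.Agent.H977.E6

open Pool.Agent.V11328 Pool.Agent.V11328.E6

variable {V : Type*} [Fintype V] [DecidableEq V]

/-- Vertices of degree less than `a`. -/
noncomputable def Sml (G : SimpleGraph V) (a : ℕ) : Finset V := univ.filter (fun v => #(nb G v) < a)

lemma mem_Sml {G : SimpleGraph V} {a : ℕ} {v : V} : v ∈ Sml G a ↔ #(nb G v) < a := by
  simp [Sml]

lemma Sml_mono {G : SimpleGraph V} {a b : ℕ} (h : a ≤ b) : Sml G a ⊆ Sml G b := by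
  intro v hv
  rw [mem_Sml] at hv ⊢
  omega

/-- Low degree vertices are far apart and on no short cycle. -/
structure Spread (G : SimpleGraph V) (a : ℕ) : Prop where
  s1 : ∀ v v', v ∈ Sml G a → v' ∈ Sml G a → ¬ G.Adj v v'
  s2 : ∀ v w v', v ∈ Sml G a → v' ∈ Sml G a → G.Adj v w → G.Adj v' w → v = v'
  s3 : ∀ v w w' v', v ∈ Sml G a → v' ∈ Sml G a → v ≠ v' → G.Adj v w → G.Adj w w' →
    G.Adj w' v' → False
  s4 : ∀ v w u w' v', v ∈ Sml G a → v' ∈ Sml G a → v ≠ v' → u ≠ v → u ≠ v' → w ≠ w' →
    G.Adj v w → G.Adj w u → G.Adj u w' → G.Adj w' v' → False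
  s5 : ∀ v w w', v ∈ Sml G a → G.Adj v w → G.Adj w w' → G.Adj w' v → False
  s6 : ∀ v w u w', v ∈ Sml G a → w ≠ w' → u ≠ v → G.Adj v w → G.Adj w u → G.Adj u w' →
    G.Adj w' v → False

lemma minTouch_le_sum {G : SimpleGraph V} {k : ℕ} {S : Finset V} (hS : #S = k - 1) :
    minTouch k G ≤ ∑ v ∈ S, #(nb G v) := (minTouch_le G hS).trans (touching_le_sum G S)

/-- The case of many vertices of very small degree. -/
theorem case_many {G : SimpleGraph V} {F : Finset (Sym2 V)} {k K₀ D t q C N m₀ b f₀ a a' : ℕ}
    (hk : 2 ≤ k) (h : Rnd G k K₀ D t q C N m₀ b f₀) (hK₀ : 2 * k ≤ K₀)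
    (hS : Spread G a') (ha : 16 * k * a ≤ a') (hDa : D + k ≤ a)
    (hmin : ∀ v, 2 ≤ #(nb G v)) (hN : k - 1 ≤ #(Sml G a))
    (hF : (F : Set (Sym2 V)) ⊆ G.edgeSet) (hFm : #F < minTouch k G) (hFf : #F ≤ f₀) :
    pcn (G.deleteEdges (F : Set (Sym2 V))) ≤ k - 1 := by
  classical
  set H := G.deleteEdges (F : Set (Sym2 V)) with hH
  have hHadj : ∀ x y, H.Adj x y ↔ G.Adj x y ∧ s(x, y) ∉ F := del_adj G F
  -- bound on `F`
  have hFka : #F < k * a := by
    obtain ⟨S, hSs, hSc⟩ := Finset.exists_subset_card_eq hN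
    have h1 := minTouch_le_sum (G := G) hSc
    have h2 : ∑ v ∈ S, #(nb G v) ≤ ∑ _v ∈ S, a :=
      Finset.sum_le_sum fun v hv => (mem_Sml.1 (hSs hv)).le
    rw [sum_const, smul_eq_mul, hSc] at h2
    have h3 : (k - 1) * a ≤ k * a := Nat.mul_le_mul_right _ (by omega)
    omega
  set SS := Sml G a' with hSS
  have haa : 16 * (k * a) ≤ a' := by rw [← mul_assoc]; exact ha
  have hka : 2 * a ≤ k * a := Nat.mul_le_mul_right _ hk
  have hbig : ∀ v, v ∉ SS → D + k + 2 ≤ #(nb H v) := by
    intro v hv
    rw [hSS, mem_Sml] at hv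
    have h1 := nb_le_dF G F v
    rw [← hH] at h1
    have h2 := dF_le F v
    have := h.hD
    omega
  set I := univ.filter (fun v => #(nb H v) = 0) with hI
  set L := univ.filter (fun v => #(nb H v) = 1) with hL
  have hIS : I ⊆ SS := by
    intro v hv
    rw [hI, mem_filter] at hv
    by_contra hc
    have := hbig v hc
    omega
  have hLS : L ⊆ SS := by
    intro v hv
    rw [hL, mem_filter] at hv
    by_contra hc
    have := hbig v hc
    omega
  have hIL : Disjoint I L := by
    rw [Finset.disjoint_left]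
    intro v h1 h2
    rw [hI, mem_filter] at h1
    rw [hL, mem_filter] at h2
    omega
  have hIiso : ∀ v ∈ I, ∀ u, ¬ H.Adj v u := by
    intro v hv u hu
    rw [hI, mem_filter, card_eq_zero] at hv
    have : u ∈ nb H v := mem_nb.2 hu
    rw [hv.2] at this
    simp at this
  -- few isolated vertices
  have hIk : #I ≤ k - 2 := by
    by_contra hcon
    push Not at hcon
    obtain ⟨S, hSs, hSc⟩ := Finset.exists_subset_card_eq (show k - 1 ≤ #I by omega)
    have h1 := minTouch_le G hSc
    have h2 : touching G S ⊆ F := by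
      intro e he
      simp only [touching, mem_filter, mem_univ, true_and] at he
      obtain ⟨he, v, hv, hve⟩ := he
      obtain ⟨u, rfl⟩ := Sym2.mem_iff_exists.1 hve
      by_contra hc
      exact hIiso v (hSs hv) u ((hHadj v u).2 ⟨he, hc⟩)
    have := card_le_card h2
    omega
  -- few leaves
  have hIL2 : 2 * #I + #L ≤ 2 * (k - 1) := by
    by_contra hcon
    push Not at hcon
    set j := k - 1 - #I with hj
    have hj1 : 1 ≤ j := by omega
    obtain ⟨L', hL', hL'c⟩ := Finset.exists_subset_card_eq (show 2 * j + 1 ≤ #L by omega)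
    obtain ⟨J, hJ, hJc⟩ := Finset.exists_subset_card_eq (show j ≤ #L' by omega)
    have hdIJ : Disjoint I J := Finset.disjoint_of_subset_right (hJ.trans hL') hIL
    have hdIL' : Disjoint I L' := Finset.disjoint_of_subset_right hL' hIL
    have h1 := minTouch_le_sum (G := G) (k := k) (S := I ∪ J) (by
      rw [card_union_of_disjoint hdIJ]; omega)
    rw [sum_union hdIJ] at h1
    have h2 := sum_dF_le_of_indep hF (B := I ∪ L') (by
      intro x hx y hy
      refine hS.s1 x y ?_ ?_
      · rw [mem_union] at hx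
        rcases hx with hx | hx
        · exact hIS hx
        · exact hLS (hL' hx)
      · rw [mem_union] at hy
        rcases hy with hy | hy
        · exact hIS hy
        · exact hLS (hL' hy))
    rw [sum_union hdIL'] at h2
    have h3 : ∑ v ∈ I, #(nb G v) ≤ ∑ v ∈ I, dF F v := by
      refine Finset.sum_le_sum fun v hv => ?_
      have h4 := nb_le_dF G F v
      rw [hI, mem_filter] at hv
      have h5 := hv.2
      rw [hH] at h5
      omega
    have h4 : ∑ v ∈ L', #(nb G v) ≤ ∑ v ∈ L', (dF F v + 1) := by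
      refine Finset.sum_le_sum fun v hv => ?_
      have h4 := nb_le_dF G F v
      have hv' := hL' hv
      rw [hL, mem_filter] at hv'
      have h5 := hv'.2
      rw [hH] at h5
      omega
    rw [sum_add_distrib, sum_const, smul_eq_mul, mul_one, hL'c] at h4
    have h5 : ∑ v ∈ L' \ J, #(nb G v) + ∑ v ∈ J, #(nb G v) = ∑ v ∈ L', #(nb G v) :=
      Finset.sum_sdiff hJ
    have h6 : ∑ _v ∈ L' \ J, 2 ≤ ∑ v ∈ L' \ J, #(nb G v) :=
      Finset.sum_le_sum fun v _ => hmin v
    rw [sum_const, smul_eq_mul, card_sdiff_of_subset hJ, hL'c, hJc] at h6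
    omega
  -- the pairing
  obtain ⟨x, hxL, hxS, hxadj⟩ : ∃ x : V, x ∉ L ∧ (L.Nonempty → x ∉ SS) ∧
      (L.Nonempty → ∀ v ∈ SS, ¬ G.Adj v x) := by
    obtain hLe | ⟨v₀, hv₀⟩ := L.eq_empty_or_nonempty
    · have hV : 0 < Fintype.card V := by have := h.hV; omega
      obtain ⟨x⟩ := Fintype.card_pos_iff.1 hV
      exact ⟨x, by rw [hLe]; simp, fun h => absurd hLe h.ne_empty, fun h => absurd hLe h.ne_empty⟩
    · have hv₀S := hLS hv₀
      have hnb : 0 < #(nb G v₀) := by have := hmin v₀; omega
      obtain ⟨y, hy⟩ := card_pos.1 hnb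
      have hy' := mem_nb.1 hy
      have hyS : y ∉ SS := fun hc => hS.s1 v₀ y hv₀S hc hy'
      have h1 : 1 < #(nb G y) := by
        rw [hSS, mem_Sml] at hyS
        omega
      obtain ⟨x, hx, hxv⟩ : ∃ x ∈ nb G y, x ≠ v₀ := by
        obtain ⟨x₁, hx₁, x₂, hx₂, hne⟩ := Finset.one_lt_card.1 h1
        by_cases hc : x₁ = v₀
        · exact ⟨x₂, hx₂, fun h => hne (hc.trans h.symm)⟩
        · exact ⟨x₁, hx₁, hc⟩
      have hx' := mem_nb.1 hx
      have hxS : x ∉ SS := fun hc => hxv (hS.s2 x y v₀ hc hv₀S hx'.symm hy')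
      refine ⟨x, fun hc => hxS (hLS hc), fun _ => hxS, fun _ v hv hvx => ?_⟩
      by_cases hc : v₀ = v
      · subst hc
        exact hS.s5 v₀ y x hv₀S hy' hx' hvx.symm
      · exact hS.s3 v₀ y x v hv₀S hv hc hy' hx' hvx.symm
  obtain ⟨A, hA1, hA2, hA3, hA4⟩ := pairing x _ L rfl hxL
  set U : Finset V := univ \ I with hU
  have hUmem : ∀ v, v ∈ U ↔ v ∉ I := by intro v; simp [hU]
  have hUI : univ \ U = I := by ext v; simp [hU]
  have hAne : ∀ {p q : V}, s(p, q) ∈ A → L.Nonempty := by
    intro p q hpq
    rcases (hA3 p q hpq).1 with h | h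
    · exact ⟨_, h⟩
    · exact ⟨_, h⟩
  have hsub : ∀ v u, (subG G F U).Adj v u ↔ H.Adj v u := by
    intro v u
    rw [subG_adj, hHadj]
    refine ⟨fun h => ⟨h.1, h.2.1⟩, fun h => ⟨h.1, h.2, ?_, ?_⟩⟩
    · rw [hUmem]
      exact fun hc => hIiso v hc u ((hHadj v u).2 h)
    · rw [hUmem]
      exact fun hc => hIiso u hc v ((hHadj v u).2 h).symm
  have hnbs : ∀ v, nb (subG G F U) v = nb H v := by
    intro v
    ext u
    rw [mem_nb, mem_nb, hsub]
  have hSMmem : ∀ v, v ∈ SS \ I ↔ v ∈ SS ∧ v ∉ I := fun v => mem_sdiff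
  have hGadj : ∀ {v u}, (subG G F U).Adj v u → G.Adj v u := fun h => h.1
  have hPre : Pre (subG G F U) A U (SS \ I) L D K₀ := by
    refine ⟨?_, ?_, ?_, ?_, ?_, ?_, ?_, ?_, ?_, ?_, ?_⟩
    · intro x y hxy
      exact hxy.2.2.1
    · intro v hv
      rw [hUmem]; exact ((hSMmem v).1 hv).2
    · intro v hv
      rw [hSMmem]
      exact ⟨hLS hv, Finset.disjoint_right.1 hIL hv⟩
    · omega
    · intro v hv hvS
      rw [hnbs]
      have : v ∉ SS := fun hc => hvS ((hSMmem v).2 ⟨hc, (hUmem v).1 hv⟩)
      have := hbig v this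
      omega
    · intro v hv hvL
      rw [hnbs]
      have h1 : #(nb H v) ≠ 0 := by
        intro h0
        exact ((hSMmem v).1 hv).2 (by rw [hI, mem_filter]; exact ⟨mem_univ _, h0⟩)
      have h2 : #(nb H v) ≠ 1 := by
        intro h0
        exact hvL (by rw [hL, mem_filter]; exact ⟨mem_univ _, h0⟩)
      omega
    · intro v hv
      by_cases hvL : v ∈ L
      · have h1 := hvL
        rw [hL, mem_filter] at h1
        obtain ⟨y, hy⟩ := card_pos.1 (show 0 < #(nb H v) by omega)
        have hy' := mem_nb.1 hy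
        obtain ⟨w, hw1, hw2, hw3⟩ := hA2 v hvL
        have hLne : L.Nonempty := ⟨v, hvL⟩
        have hyG := ((hHadj v y).1 hy').1
        refine ⟨y, w, ?_, ((hsub v y).2 hy').2.2.2, ?_, ?_, ?_⟩
        · rintro rfl
          rcases hw3 with h3 | h3
          · exact hS.s1 v y (hLS hvL) (hLS h3) hyG
          · subst h3
            exact hxadj hLne v (hLS hvL) hyG
        · rw [hUmem]
          rcases hw3 with h3 | h3
          · exact Finset.disjoint_right.1 hIL h3
          · subst h3
            exact fun hc => hxS hLne (hIS hc)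
        · rw [SimpleGraph.sup_adj]
          exact Or.inl ((hsub v y).2 hy')
        · rw [SimpleGraph.sup_adj, SimpleGraph.fromEdgeSet_adj]
          exact Or.inr ⟨hw2, hw1.symm⟩
      · have h1 : 2 ≤ #(nb H v) := by
          have h1 : #(nb H v) ≠ 0 := by
            intro h0
            exact ((hSMmem v).1 hv).2 (by rw [hI, mem_filter]; exact ⟨mem_univ _, h0⟩)
          have h2 : #(nb H v) ≠ 1 := by
            intro h0
            exact hvL (by rw [hL, mem_filter]; exact ⟨mem_univ _, h0⟩)
          omega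
        obtain ⟨w₁, hw₁, w₂, hw₂, hne⟩ := Finset.one_lt_card.1 (show 1 < #(nb H v) by omega)
        have h3 := (hsub v w₁).2 (mem_nb.1 hw₁)
        have h4 := (hsub v w₂).2 (mem_nb.1 hw₂)
        refine ⟨w₁, w₂, hne, h3.2.2.2, h4.2.2.2, ?_, ?_⟩
        · rw [SimpleGraph.sup_adj]; exact Or.inl h3
        · rw [SimpleGraph.sup_adj]; exact Or.inl h4
    · intro u v w hv hw h1 h2
      have hv' := ((hSMmem v).1 hv).1
      have hw' := ((hSMmem w).1 hw).1
      rw [SimpleGraph.sup_adj, SimpleGraph.fromEdgeSet_adj] at h1 h2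
      have mixed : ∀ p r, p ∈ SS → r ∈ SS → G.Adj u p → s(u, r) ∈ A → False := by
        intro p r hp _ h3 h4
        have hLne := hAne h4
        have huS : u ∉ SS := fun hc => hS.s1 u p hc hp h3
        rcases (hA3 u r h4).2.1 with h5 | h5
        · exact huS (hLS h5)
        · subst h5
          exact hxadj hLne p hp h3.symm
      rcases h1 with h1 | h1 <;> rcases h2 with h2 | h2
      · exact hS.s2 v u w hv' hw' (hGadj h1).symm (hGadj h2).symm
      · exact (mixed v w hv' hw' (hGadj h1) h2.1).elim
      · exact (mixed w v hw' hv' (hGadj h2) h1.1).elim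
      · exact hA4 u v w h1.1 h2.1
    · intro v hv _ w hw hvw
      exact hS.s1 v w ((hSMmem v).1 hv).1 ((hSMmem w).1 hw).1 (hGadj hvw)
    · intro p r hpr
      rcases (hA3 p r hpr).1 with h1 | h1
      · exact Or.inl ((hSMmem p).2 ⟨hLS h1, Finset.disjoint_right.1 hIL h1⟩)
      · exact Or.inr ((hSMmem r).2 ⟨hLS h1, Finset.disjoint_right.1 hIL h1⟩)
    · intro u hu huS w w' hw hw' hv hv'
      obtain ⟨v, hvS, _, hvw⟩ := hv
      obtain ⟨v', hvS', _, hvw'⟩ := hv'
      have h1 := ((hSMmem v).1 hvS).1
      have h2 := ((hSMmem v').1 hvS').1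
      have huS' : u ∉ SS := fun hc => huS ((hSMmem u).2 ⟨hc, (hUmem u).1 hu⟩)
      have huv : u ≠ v := by rintro rfl; exact huS' h1
      have huv' : u ≠ v' := by rintro rfl; exact huS' h2
      have h3 := hGadj hvw
      have h4 := hGadj hvw'
      by_contra hne
      rcases hw with hw | hw <;> rcases hw' with hw' | hw'
      · exact hne (hw.trans hw'.symm)
      · subst hw
        have h5 := hGadj hw'
        by_cases hc : v = v'
        · subst hc
          exact hS.s5 v w w' h1 h3 h5 h4.symm
        · exact hS.s3 v w w' v' h1 h2 hc h3 h5 h4.symm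
      · subst hw'
        have h5 := hGadj hw
        by_cases hc : v = v'
        · subst hc
          exact hS.s5 v w w' h1 h3 h5.symm h4.symm
        · exact hS.s3 v w w' v' h1 h2 hc h3 h5.symm h4.symm
      · have h5 := hGadj hw
        have h6 := hGadj hw'
        by_cases hc : v = v'
        · subst hc
          exact hS.s6 v w u w' h1 hne huv h3 h5.symm h6 h4.symm
        · exact hS.s4 v w u w' v' h1 h2 hc huv huv' hne h3 h5.symm h6 h4.symm
  have hHam := robust h hPre (by rw [hUI]; omega) (by omega) hFf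
  have h9 := pcn_of_hamC hHam (by
    have h10 : #(univ \ U) + #U = Fintype.card V := by
      rw [card_sdiff_add_card_eq_card (subset_univ U), card_univ]
    have h11 := h.hV
    rw [hUI] at h10
    omega)
  rw [hUI] at h9
  refine h9.trans ?_
  rcases le_total (#A) 1 with h12 | h12
  · rw [max_eq_left h12]; omega
  · rw [max_eq_right h12]; omega


/-- The case of a gap in the degree sequence below the `k - 1` smallest degrees. -/
theorem case_few {G : SimpleGraph V} {F : Finset (Sym2 V)} {k K₀ D t q C N m₀ b f₀ a a' : ℕ}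
    (hk : 2 ≤ k) (h : Rnd G k K₀ D t q C N m₀ b f₀) (hK₀ : 2 * k ≤ K₀)
    (ha : 16 * k * a ≤ a') (hDa : D + k ≤ a) (hka : k ≤ D)
    (heq : ∀ v, v ∈ Sml G a' → v ∈ Sml G a) (hN : #(Sml G a') ≤ k - 2)
    (hFm : #F < minTouch k G) (hFf : #F ≤ f₀) :
    pcn (G.deleteEdges (F : Set (Sym2 V))) ≤ k - 1 := by
  classical
  set H := G.deleteEdges (F : Set (Sym2 V)) with hH
  have hHadj : ∀ x y, H.Adj x y ↔ G.Adj x y ∧ s(x, y) ∉ F := del_adj G F
  set SL := Sml G a' with hSL
  set B₁ := univ.filter (fun v => v ∉ SL ∧ 8 * k * #(nb H v) < a') with hB₁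
  have hdSB : Disjoint SL B₁ := by
    rw [Finset.disjoint_left]
    intro v h1 h2
    rw [hB₁, mem_filter] at h2
    exact h2.2.1 h1
  have hkk : k * k ≤ k * a := Nat.mul_le_mul_left _ (by omega)
  have haa : 16 * (k * a) ≤ a' := by rw [← mul_assoc]; exact ha
  have hcard : #SL + #B₁ ≤ k - 1 := by
    by_contra hcon
    push Not at hcon
    obtain ⟨S, hS, hSc⟩ := Finset.exists_subset_card_eq (show k - #SL ≤ #B₁ by omega)
    obtain ⟨s, hs⟩ := card_pos.1 (show 0 < #S by omega)
    have hd : Disjoint SL (S.erase s) :=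
      Finset.disjoint_of_subset_right ((erase_subset _ _).trans hS) hdSB
    have h1 := minTouch_le_sum (G := G) (k := k) (S := SL ∪ S.erase s) (by
      rw [card_union_of_disjoint hd, card_erase_of_mem hs]; omega)
    rw [sum_union hd] at h1
    have h2 : ∑ v ∈ SL, #(nb G v) ≤ ∑ _v ∈ SL, a :=
      Finset.sum_le_sum fun v hv => (mem_Sml.1 (heq v hv)).le
    rw [sum_const, smul_eq_mul] at h2
    have h3 := sum_dF_le F S
    have h4 : ∑ v ∈ S, 8 * k * #(nb H v) ≤ ∑ _v ∈ S, a' :=
      Finset.sum_le_sum fun v hv => by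
        have := hS hv
        rw [hB₁, mem_filter] at this
        exact this.2.2.le
    rw [sum_const, smul_eq_mul, ← mul_sum] at h4
    have h5 : ∑ v ∈ S, #(nb G v) ≤ ∑ v ∈ S, (#(nb H v) + dF F v) :=
      Finset.sum_le_sum fun v _ => nb_le_dF G F v
    rw [sum_add_distrib] at h5
    have h6 : ∑ v ∈ S.erase s, #(nb G v) + #(nb G s) = ∑ v ∈ S, #(nb G v) :=
      Finset.sum_erase_add S _ hs
    have hsS := hS hs
    rw [hB₁, mem_filter, hSL, mem_Sml] at hsS
    have h7 : #S * a' ≤ k * a' := Nat.mul_le_mul_right _ (by omega)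
    have h8 : 8 * ∑ v ∈ S, #(nb H v) ≤ a' := by
      have h9 : k * (8 * ∑ v ∈ S, #(nb H v)) ≤ k * a' := by
        calc k * (8 * ∑ v ∈ S, #(nb H v)) = 8 * k * ∑ v ∈ S, #(nb H v) := by ring
          _ ≤ #S * a' := h4
          _ ≤ k * a' := h7
      exact Nat.le_of_mul_le_mul_left h9 (by omega)
    have h10 : #S * #S ≤ k * k := Nat.mul_le_mul (by omega) (by omega)
    have h11 : #SL * a ≤ k * a := Nat.mul_le_mul_right _ (by omega)
    omega
  -- degrees outside
  have hout : ∀ v, v ∉ SL → v ∉ B₁ → D + k ≤ #(nb H v) := by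
    intro v h1 h2
    have h3 : a' ≤ 8 * k * #(nb H v) := by
      by_contra hc
      push Not at hc
      exact h2 (by rw [hB₁, mem_filter]; exact ⟨mem_univ _, h1, hc⟩)
    have h4 : 8 * k * (D + k) ≤ 8 * k * #(nb H v) := by
      refine le_trans ?_ h3
      calc 8 * k * (D + k) ≤ 8 * k * a := Nat.mul_le_mul_left _ hDa
        _ ≤ 16 * k * a := Nat.mul_le_mul_right _ (by omega)
        _ ≤ a' := ha
    exact Nat.le_of_mul_le_mul_left h4 (by omega)
  set Z := SL ∪ B₁ with hZ
  have hZc : #Z ≤ k - 1 := by rw [hZ, card_union_of_disjoint hdSB]; exact hcard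
  have hZout : ∀ v, v ∉ Z → D + k ≤ #(nb H v) := by
    intro v hv
    rw [hZ, mem_union, not_or] at hv
    exact hout v hv.1 hv.2
  -- degrees inside a vertex set
  have hdeg : ∀ (R : Finset V) (v : V), #R ≤ k → v ∉ R → D + k ≤ #(nb H v) →
      D ≤ #(nb (subG G F (univ \ R)) v) := by
    intro R v hR hvR hv
    have h1 : nb H v ⊆ nb (subG G F (univ \ R)) v ∪ R := by
      intro u hu
      rw [mem_nb, hHadj] at hu
      rw [mem_union, mem_nb, subG_adj]
      by_cases hc : u ∈ R
      · exact Or.inr hc
      · exact Or.inl ⟨hu.1, hu.2, by simp [hvR], by simp [hc]⟩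
    have h2 := (card_le_card h1).trans (card_union_le _ _)
    omega
  have huc : ∀ R : Finset V, univ \ (univ \ R) = R := by intro R; ext v; simp
  have hcc : ∀ R : Finset V, #(univ \ R) + #R = Fintype.card V := by
    intro R
    rw [card_sdiff_add_card_eq_card (subset_univ R), card_univ]
  have hVN : 3 * N + t + k ≤ Fintype.card V := h.hN
  have hV3 : k + 3 ≤ Fintype.card V := by
    by_contra hc
    have h1 := h.hV
    have h2 : N = 0 := by omega
    have h3 := h.htN
    have h4 := h.pairs ∅ ∅ (by simp) (by simp; omega) (by simp; omega)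
    have h5 : between G (∅ : Finset V) ∅ = ∅ := by
      ext e
      simp [between]
    rw [h5] at h4
    have := h.hq
    simp at h4
    omega
  -- no vertices attached
  have hfull : ∀ R : Finset V, Z ⊆ R → #R ≤ k → HamC (subG G F (univ \ R) ⊔ fG ∅) (univ \ R) := by
    intro R hZR hR
    have hPre : Pre (subG G F (univ \ R)) ∅ (univ \ R) ∅ ∅ D K₀ := by
      refine ⟨fun x y hxy => hxy.2.2.1, by simp, by simp, by simp, ?_, by simp, by simp,
        by simp, by simp, by simp, by simp⟩
      intro v hv _
      have hvR : v ∉ R := by simpa using hv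
      exact hdeg R v hR hvR (hZout v fun hc => hvR (hZR hc))
    exact robust h hPre (by rw [huc]; exact hR) (by simp) hFf
  by_cases hZk : #Z ≤ k - 2
  · have h1 := pcn_of_hamC (hfull Z subset_rfl (by omega)) (by have := hcc Z; omega)
    rw [huc, ← hH] at h1
    simp only [card_empty] at h1
    have : max 1 0 = 1 := rfl
    omega
  · have hZe : #Z = k - 1 := by omega
    have hedge : ∃ e ∈ touching G Z, e ∉ F := by
      by_contra hcon
      push Not at hcon
      have h1 : #(touching G Z) ≤ #F := card_le_card hcon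
      have h2 := minTouch_le G hZe
      omega
    obtain ⟨e, he, heF⟩ := hedge
    simp only [touching, mem_filter, mem_univ, true_and] at he
    obtain ⟨he, v, hv, hve⟩ := he
    obtain ⟨w, rfl⟩ := Sym2.mem_iff_exists.1 hve
    have hGvw : G.Adj v w := he
    have hvw : H.Adj v w := (hHadj v w).2 ⟨he, heF⟩
    have hne : v ≠ w := hvw.ne
    by_cases hwZ : w ∈ Z
    · obtain ⟨f, hf, _⟩ := hfull Z subset_rfl (by omega)
      have hf' : Pth H (univ \ Z) (#(univ \ Z)) f := by
        refine pth_mono ?_ hf
        refine sup_le ?_ ?_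
        · intro x y hxy
          exact (hHadj x y).2 ⟨hxy.1, hxy.2.1⟩
        · intro x y hxy
          rw [SimpleGraph.fromEdgeSet_adj] at hxy
          simp at hxy
      obtain ⟨hch, hnd⟩ := pth_list hf'
      have hcov := pth_surj hf'
      have hmemP : ∀ z, z ∈ (List.range (#(univ \ Z))).map f → z ∉ Z := by
        intro z hz
        simp only [List.mem_map, List.mem_range] at hz
        obtain ⟨i, hi, rfl⟩ := hz
        exact (mem_sdiff.1 (hf'.mem i hi)).2
      have := pcn_le_two_lists (H := H) (P := (List.range (#(univ \ Z))).map f) (Q := [v, w]) (by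
          intro h0
          have := congrArg List.length h0
          simp only [List.length_map, List.length_range, List.length_nil] at this
          have := hcc Z
          omega) hch hnd (by simp) (by simpa using hvw)
        (by simpa using hne) (by
          intro z hz
          have := hmemP z hz
          simp only [List.mem_cons, List.not_mem_nil, or_false, not_or]
          exact ⟨fun h => this (h ▸ hv), fun h => this (h ▸ hwZ)⟩)
        ((Z.erase v).erase w) (by
          intro z hz hz2
          exact hmemP z hz (mem_of_mem_erase (mem_of_mem_erase hz2))) (by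
          intro z hz hz2
          simp only [List.mem_cons, List.not_mem_nil, or_false] at hz
          rcases hz with rfl | rfl
          · simp at hz2
          · simp at hz2) (by
          intro z
          by_cases hzB : z ∈ Z
          · right
            by_cases h1 : z = v
            · left; simp [h1]
            · by_cases h2 : z = w
              · left; simp [h2]
              · right
                simp [h1, h2, hzB]
          · left
            obtain ⟨i, hi, rfl⟩ := hcov z (by simp [hzB])
            simp only [List.mem_map, List.mem_range]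
            exact ⟨i, hi, rfl⟩)
      rw [card_erase_of_mem, card_erase_of_mem hv] at this
      · have h2 : 2 ≤ #Z := by
          have : ({v, w} : Finset V) ⊆ Z := by
            intro z hz
            simp only [mem_insert, mem_singleton] at hz
            rcases hz with rfl | rfl
            · exact hv
            · exact hwZ
          have h3 := card_le_card this
          rwa [card_pair hne] at h3
        omega
      · exact mem_erase.2 ⟨hne.symm, hwZ⟩
    · set R := Z.erase v with hR
      have hRc : #R = k - 2 := by rw [hR, card_erase_of_mem hv, hZe]; omega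
      have hvR : v ∉ R := by simp [hR]
      have hwR : w ∉ R := fun hc => hwZ (mem_of_mem_erase hc)
      obtain ⟨x, hxU, hxv, hxw⟩ : ∃ x ∈ univ \ R, x ≠ v ∧ x ≠ w := by
        have h1 : 2 < #(univ \ R) := by have := hcc R; omega
        by_contra hcon
        push Not at hcon
        have h2 : univ \ R ⊆ {v, w} := by
          intro x hx
          rw [mem_insert, mem_singleton]
          by_cases hc : x = v
          · exact Or.inl hc
          · exact Or.inr (hcon x hx hc)
        have h3 := (card_le_card h2).trans card_le_two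
        omega
      have hPre : Pre (subG G F (univ \ R)) {s(v, x)} (univ \ R) {v} {v} D K₀ := by
        refine ⟨fun x y hxy => hxy.2.2.1, by simpa using hvR, by simp, by simp; omega,
          ?_, ?_, ?_, ?_, ?_, ?_, ?_⟩
        · intro u hu huv
          have huR : u ∉ R := by simpa using hu
          refine hdeg R u (by omega) huR (hZout u ?_)
          intro hc
          exact huR (by rw [hR, mem_erase]; exact ⟨by simpa using huv, hc⟩)
        · intro u hu hu2; exact absurd hu hu2
        · intro u hu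
          have huv : u = v := by simpa using hu
          subst huv
          refine ⟨w, x, hxw.symm, by simpa using hwR, hxU, ?_, ?_⟩
          · rw [SimpleGraph.sup_adj]
            left
            exact ⟨hGvw, heF, by simpa using hvR, by simpa using hwR⟩
          · rw [SimpleGraph.sup_adj, SimpleGraph.fromEdgeSet_adj]
            exact Or.inr ⟨by simp, hxv.symm⟩
        · intro u p r hp hr _ _
          have h1 : p = v := by simpa using hp
          have h2 : r = v := by simpa using hr
          rw [h1, h2]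
        · intro u hu hu2; exact absurd hu hu2
        · intro p r hpr
          rw [mem_singleton, Sym2.eq_iff] at hpr
          rcases hpr with ⟨h1, _⟩ | ⟨_, h1⟩
          · left; simpa using h1
          · right; simpa using h1
        · rintro u _ _ p r _ _ ⟨z, hz, hz2, _⟩
          exact absurd hz hz2
      have hHam := robust h hPre (by rw [huc]; omega) (by simp; omega) hFf
      have h9 := pcn_of_hamC hHam (by have := hcc R; omega)
      rw [huc, card_singleton, max_self, ← hH] at h9
      omega

/-- Deterministic conclusion: few deletions leave path cover number at most `k - 1`. -/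
theorem det_main {G : SimpleGraph V} {F : Finset (Sym2 V)} {k K₀ D t q C N m₀ b f₀ : ℕ}
    {θ : ℕ → ℕ}
    (hk : 2 ≤ k) (h : Rnd G k K₀ D t q C N m₀ b f₀) (hK₀ : 2 * k ≤ K₀)
    (hθ : ∀ j, j < k → 16 * k * θ (j + 1) ≤ θ j) (hθk : D + k ≤ θ k) (hkD : k ≤ D)
    (hS : Spread G (θ 0)) (hmin : ∀ v, 2 ≤ #(nb G v)) (hF : (F : Set (Sym2 V)) ⊆ G.edgeSet)
    (hFm : #F < minTouch k G) (hFf : minTouch k G ≤ f₀) :
    pcn (G.deleteEdges (F : Set (Sym2 V))) ≤ k - 1 := by
  classical
  have hstep : ∀ j, j < k → θ (j + 1) ≤ θ j := by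
    intro j hj
    refine le_trans ?_ (hθ j hj)
    exact Nat.le_mul_of_pos_left _ (by omega)
  have hanti : ∀ i j, i ≤ j → j ≤ k → θ j ≤ θ i := by
    intro i j hij
    induction j, hij using Nat.le_induction with
    | base => intro _; exact le_rfl
    | succ j _ ih =>
      intro hj
      exact (hstep j (by omega)).trans (ih (by omega))
  have hlow : ∀ j, j ≤ k → D + k ≤ θ j := fun j hj => hθk.trans (hanti j k hj le_rfl)
  by_cases hc : ∃ j, j < k ∧ k - 1 ≤ #(Sml G (θ (j + 1)))
  · obtain ⟨j, hj, hjc⟩ := hc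
    have hSj : Spread G (θ j) := by
      have hsub : ∀ v, v ∈ Sml G (θ j) → v ∈ Sml G (θ 0) :=
        fun v hv => Sml_mono (hanti 0 j (by omega) hj.le) hv
      exact ⟨fun v v' h1 h2 => hS.s1 v v' (hsub v h1) (hsub v' h2),
        fun v w v' h1 h2 => hS.s2 v w v' (hsub v h1) (hsub v' h2),
        fun v w w' v' h1 h2 => hS.s3 v w w' v' (hsub v h1) (hsub v' h2),
        fun v w u w' v' h1 h2 => hS.s4 v w u w' v' (hsub v h1) (hsub v' h2),
        fun v w w' h1 => hS.s5 v w w' (hsub v h1),
        fun v w u w' h1 => hS.s6 v w u w' (hsub v h1)⟩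
    exact case_many hk h hK₀ hSj (hθ j hj) (hlow (j + 1) (by omega)) hmin hjc hF hFm (by omega)
  · push Not at hc
    -- some consecutive equality
    have hex : ∃ j, 1 ≤ j ∧ j < k ∧ #(Sml G (θ j)) ≤ #(Sml G (θ (j + 1))) := by
      by_contra hcon
      push Not at hcon
      have hdec : ∀ i, i + 1 ≤ k → #(Sml G (θ (i + 1))) + i ≤ #(Sml G (θ 1)) := by
        intro i
        induction i with
        | zero => intro _; simp
        | succ i ih =>
          intro hi
          have h1 := ih (by omega)
          have h2 := hcon (i + 1) (by omega) (by omega)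
          omega
      have h1 := hdec (k - 1) (by omega)
      have h2 := hc 0 (by omega)
      simp only [zero_add] at h2
      omega
    obtain ⟨j, hj1, hjk, hj⟩ := hex
    have hsub : Sml G (θ (j + 1)) ⊆ Sml G (θ j) := Sml_mono (hstep j hjk)
    have heq := Finset.eq_of_subset_of_card_le hsub hj
    have hNj : #(Sml G (θ j)) ≤ k - 2 := by
      have := hc j hjk
      rw [← heq]
      omega
    exact case_few hk h hK₀ (hθ j hjk) (hlow (j + 1) (by omega)) hkD
      (fun v hv => by rw [heq]; exact hv) hNj hFm (by omega)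

/-- Exact value of the least number of deletions. -/
theorem det_fk {G : SimpleGraph V} {k K₀ D t q C N m₀ b f₀ : ℕ} {θ : ℕ → ℕ}
    (hk : 2 ≤ k) (h : Rnd G k K₀ D t q C N m₀ b f₀) (hK₀ : 2 * k ≤ K₀)
    (hθ : ∀ j, j < k → 16 * k * θ (j + 1) ≤ θ j) (hθk : D + k ≤ θ k) (hkD : k ≤ D)
    (hS : Spread G (θ 0)) (hmin : ∀ v, 2 ≤ #(nb G v)) (hFf : minTouch k G ≤ f₀) :
    fk k G = (minTouch k G : ℕ∞) := by
  classical
  have hkV : k ≤ Fintype.card V := by have := h.hV; omega
  obtain ⟨S, hSc, hSt⟩ := minTouch_spec hkV G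
  have hpos : 0 < minTouch k G := by
    obtain ⟨v, hv⟩ := card_pos.1 (show 0 < #S by omega)
    obtain ⟨w, hw⟩ := card_pos.1 (show 0 < #(nb G v) by have := hmin v; omega)
    rw [← hSt, card_pos]
    refine ⟨s(v, w), ?_⟩
    simp only [touching, mem_filter, mem_univ, true_and]
    exact ⟨mem_nb.1 hw, v, hv, by simp⟩
  have hGk : pcn G ≤ k := by
    have h1 := det_main (F := ∅) hk h hK₀ hθ hθk hkD hS hmin (by simp) (by simpa using hpos) hFf
    simp only [coe_empty, SimpleGraph.deleteEdges_empty] at h1
    omega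
  apply le_antisymm
  · exact (fk_le (b := Fintype.card V) (by omega) hkV hGk (fun v => card_le_univ _)).2
  · refine le_iInf₂ fun F hF => ?_
    by_contra hcon
    push Not at hcon
    have h1 : #F < minTouch k G := by exact_mod_cast hcon
    have h2 := det_main hk h hK₀ hθ hθk hkD hS hmin hF.1 h1 hFf
    rw [hF.2] at h2
    omega

end Pool.Agent.H977.E6
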