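import Pool.Agent.H977.E6.Robust

/-! Counting deleted edges, extraction of path covers, pairing of leaves. -/

open Finset

namespace Pool.Agent.H977.E6

open Pool.Agent.V11328 Pool.Agent.V11328.E6

variable {V : Type*} [Fintype V] [DecidableEq V]

/-- Removing artificial edges one at a time. -/
lemma pcn_fG (H : SimpleGraph V) (A : Finset (Sym2 V)) : pcn H ≤ pcn (H ⊔ fG A) + #A := by
  classical
  induction A using Finset.induction_on with
  | empty =>
    refine (pcn_mono ?_).trans (Nat.le_add_right _ _)
    refine sup_le le_rfl ?_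
    intro x y hxy
    rw [SimpleGraph.fromEdgeSet_adj] at hxy
    simp at hxy
  | insert e A he ih =>
    rw [card_insert_of_notMem he]
    have h1 : (H ⊔ fG (insert e A)).deleteEdges {e} ≤ H ⊔ fG A := by
      intro x y hxy
      rw [SimpleGraph.deleteEdges_adj, SimpleGraph.sup_adj, SimpleGraph.fromEdgeSet_adj] at hxy
      rw [SimpleGraph.sup_adj, SimpleGraph.fromEdgeSet_adj]
      obtain ⟨h1 | h1, h2⟩ := hxy
      · exact Or.inl h1
      · right
        refine ⟨?_, h1.2⟩
        have h3 := h1.1
        rw [coe_insert, Set.mem_insert_iff] at h3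
        rcases h3 with h3 | h3
        · exact absurd h3 h2
        · exact h3
    have h2 := pcn_mono h1
    have h3 := pcn_delete_one (H ⊔ fG (insert e A)) e
    omega

omit [Fintype V] [DecidableEq V] in
/-- A Hamilton cycle can be cut at a given pair. -/
lemma cut_cycle {H : SimpleGraph V} {U : Finset V} (hU : 3 ≤ #U) (h : HamC H U) (e : Sym2 V) :
    ∃ g, Pth (H.deleteEdges {e}) U (#U) g := by
  obtain ⟨f, hf, hc⟩ := h
  set l := #U with hl
  by_cases hall : ∀ i, i + 1 < l → s(f i, f (i + 1)) ≠ e
  · refine ⟨f, hf.mem, hf.inj, ?_⟩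
    intro i hi
    rw [SimpleGraph.deleteEdges_adj]
    exact ⟨hf.adj i hi, by simpa using hall i hi⟩
  · push Not at hall
    obtain ⟨i, hi, rfl⟩ := hall
    have hne : ∀ a b, a < l → b < l → (a ≠ i ∨ b ≠ i + 1) → (a ≠ i + 1 ∨ b ≠ i) →
        s(f a, f b) ∉ ({s(f i, f (i + 1))} : Set (Sym2 V)) := by
      intro a b ha hb h1 h2 h3
      rw [Set.mem_singleton_iff, Sym2.eq_iff] at h3
      rcases h3 with ⟨h4, h5⟩ | ⟨h4, h5⟩
      · have e1 := hf.inj a ha i (by omega) h4
        have e2 := hf.inj b hb (i + 1) hi h5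
        omega
      · have e1 := hf.inj a ha (i + 1) hi h4
        have e2 := hf.inj b hb i (by omega) h5
        omega
    refine ⟨fun k => f (if i + 1 + k < l then i + 1 + k else i + 1 + k - l), ?_, ?_, ?_⟩
    · intro k hk
      refine hf.mem _ ?_
      split_ifs <;> omega
    · intro a ha b hb hab
      have := hf.inj _ (by split_ifs <;> omega) _ (by split_ifs <;> omega) hab
      split_ifs at this <;> omega
    · intro k hk
      rw [SimpleGraph.deleteEdges_adj]
      by_cases c1 : i + 1 + (k + 1) < l
      · rw [if_pos (show i + 1 + k < l by omega), if_pos c1]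
        exact ⟨hf.adj _ (by omega), hne _ _ (by omega) (by omega) (by omega) (by omega)⟩
      · by_cases c2 : i + 1 + k < l
        · rw [if_pos c2, if_neg c1]
          have e1 : i + 1 + k = l - 1 := by omega
          have e2 : i + 1 + (k + 1) - l = 0 := by omega
          rw [e1, e2]
          exact ⟨hc, hne _ _ (by omega) (by omega) (by omega) (by omega)⟩
        · rw [if_neg c2, if_neg c1]
          have e2 : i + 1 + (k + 1) - l = (i + 1 + k - l) + 1 := by omega
          rw [e2]
          exact ⟨hf.adj _ (by omega), hne _ _ (by omega) (by omega) (by omega) (by omega)⟩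

omit [Fintype V] [DecidableEq V] in
lemma pth_surj {H : SimpleGraph V} {U : Finset V} {f : ℕ → V} (h : Pth H U (#U) f) :
    ∀ v ∈ U, ∃ i < #U, f i = v := by
  classical
  intro v hv
  have h1 : (range (#U)).image f = U := by
    refine Finset.eq_of_subset_of_card_le ?_ ?_
    · intro x hx
      rw [mem_image] at hx
      obtain ⟨i, hi, rfl⟩ := hx
      exact h.mem i (by simpa using hi)
    · rw [card_image_of_injOn, card_range]
      intro a ha b hb hab
      exact h.inj a (by simpa using ha) b (by simpa using hb) hab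
  rw [← h1, mem_image] at hv
  obtain ⟨i, hi, rfl⟩ := hv
  exact ⟨i, by simpa using hi, rfl⟩

/-- Path cover from a Hamilton cycle with artificial edges. -/
lemma pcn_of_hamC {G : SimpleGraph V} {F A : Finset (Sym2 V)} {U : Finset V}
    (h : HamC (subG G F U ⊔ fG A) U) (hU : 3 ≤ #U) :
    pcn (G.deleteEdges (F : Set (Sym2 V))) ≤ #(univ \ U) + max 1 (#A) := by
  classical
  set H := G.deleteEdges (F : Set (Sym2 V)) with hH
  have hle : subG G F U ≤ H := by
    intro x y hxy
    rw [hH, del_adj]
    exact ⟨hxy.1, hxy.2.1⟩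
  have hUS : ∀ v, v ∈ U ↔ v ∉ univ \ U := by intro v; simp
  obtain rfl | ⟨e, he⟩ := A.eq_empty_or_nonempty
  · obtain ⟨f, hf, _⟩ := h
    have hf' : Pth H U (#U) f := by
      refine pth_mono ?_ hf
      refine sup_le hle ?_
      intro x y hxy
      rw [SimpleGraph.fromEdgeSet_adj] at hxy
      simp at hxy
    have := pcn_le_of_pth (by omega) hf' (pth_surj hf') hUS
    simpa using this
  · obtain ⟨g, hg⟩ := cut_cycle hU h e
    have hg' : Pth (H ⊔ fG (A.erase e)) U (#U) g := by
      refine pth_mono ?_ hg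
      intro x y hxy
      rw [SimpleGraph.deleteEdges_adj, SimpleGraph.sup_adj, SimpleGraph.fromEdgeSet_adj] at hxy
      rw [SimpleGraph.sup_adj, SimpleGraph.fromEdgeSet_adj]
      obtain ⟨h1 | h1, h2⟩ := hxy
      · exact Or.inl (hle h1)
      · right
        refine ⟨?_, h1.2⟩
        rw [mem_coe, mem_erase]
        exact ⟨by simpa using h2, h1.1⟩
    have h1 := pcn_le_of_pth (by omega) hg' (pth_surj hg') hUS
    have h2 := pcn_fG H (A.erase e)
    rw [card_erase_of_mem he] at h2
    have h3 : 1 ≤ #A := card_pos.2 ⟨e, he⟩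
    have h4 : #A ≤ max 1 (#A) := le_max_right _ _
    omega

/-- Number of deleted pairs at a vertex. -/
def dF (F : Finset (Sym2 V)) (v : V) : ℕ := #(F.filter (fun e => v ∈ e))

lemma nb_le_dF (G : SimpleGraph V) (F : Finset (Sym2 V)) (v : V) :
    #(nb G v) ≤ #(nb (G.deleteEdges (F : Set (Sym2 V))) v) + dF F v := by
  classical
  set H := G.deleteEdges (F : Set (Sym2 V)) with hH
  have h1 : nb G v ⊆ nb H v ∪ univ.filter (fun u => s(v, u) ∈ F) := by
    intro u hu
    rw [mem_nb] at hu
    rw [mem_union, mem_nb, mem_filter]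
    by_cases hc : s(v, u) ∈ F
    · exact Or.inr ⟨mem_univ _, hc⟩
    · exact Or.inl ((del_adj G F v u).2 ⟨hu, hc⟩)
  have h2 : #(univ.filter (fun u => s(v, u) ∈ F)) ≤ dF F v := by
    refine Finset.card_le_card_of_injOn (fun u => s(v, u)) ?_ ?_
    · intro u hu
      simp only [coe_filter, mem_univ, true_and, Set.mem_ofPred_eq] at hu ⊢
      exact ⟨hu, by simp⟩
    · intro u _ u' _ huu
      exact Sym2.congr_right.1 huu
  exact (card_le_card h1).trans ((card_union_le _ _).trans (Nat.add_le_add_left h2 _))

lemma dF_le (F : Finset (Sym2 V)) (v : V) : dF F v ≤ #F := card_filter_le _ _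

lemma sum_dF (F : Finset (Sym2 V)) (B : Finset V) :
    ∑ v ∈ B, dF F v = ∑ e ∈ F, #(B.filter (fun v => v ∈ e)) := by
  unfold dF
  simp_rw [Finset.card_filter]
  exact Finset.sum_comm

lemma sum_dF_le (F : Finset (Sym2 V)) (B : Finset V) :
    ∑ v ∈ B, dF F v ≤ #F + #B * #B := by
  classical
  rw [sum_dF]
  have hbound : ∀ e ∈ F, #(B.filter (fun v => v ∈ e)) ≤
      1 + if (∃ x ∈ B, ∃ y ∈ B, e = s(x, y)) then 1 else 0 := by
    intro e _
    induction e with
    | h x y =>
      by_cases hx : x ∈ B ∧ y ∈ B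
      · rw [if_pos ⟨x, hx.1, y, hx.2, rfl⟩]
        have : B.filter (fun v => v ∈ s(x, y)) ⊆ {x, y} := by
          intro v hv
          rw [mem_filter, Sym2.mem_iff] at hv
          simpa using hv.2
        exact (card_le_card this).trans card_le_two
      · have : #(B.filter (fun v => v ∈ s(x, y))) ≤ 1 := by
          rw [Finset.card_le_one]
          intro v hv w hw
          rw [mem_filter, Sym2.mem_iff] at hv hw
          rcases hv with ⟨hv, rfl | rfl⟩ <;> rcases hw with ⟨hw, rfl | rfl⟩
          · rfl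
          · exact absurd ⟨hv, hw⟩ hx
          · exact absurd ⟨hw, hv⟩ hx
          · rfl
        omega
  have hinner : #(F.filter (fun e => ∃ x ∈ B, ∃ y ∈ B, e = s(x, y))) ≤ #B * #B := by
    have : F.filter (fun e => ∃ x ∈ B, ∃ y ∈ B, e = s(x, y)) ⊆
        (B ×ˢ B).image (fun q => s(q.1, q.2)) := by
      intro e he
      rw [mem_filter] at he
      obtain ⟨_, x, hx, y, hy, rfl⟩ := he
      rw [mem_image]
      exact ⟨(x, y), mem_product.2 ⟨hx, hy⟩, rfl⟩
    refine (card_le_card this).trans (card_image_le.trans ?_)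
    rw [card_product]
  refine (Finset.sum_le_sum hbound).trans ?_
  rw [Finset.sum_add_distrib, Finset.sum_const, smul_eq_mul, mul_one, ← Finset.card_filter]
  omega

lemma sum_dF_le_of_indep {G : SimpleGraph V} {F : Finset (Sym2 V)}
    (hF : (F : Set (Sym2 V)) ⊆ G.edgeSet) {B : Finset V}
    (hB : ∀ x ∈ B, ∀ y ∈ B, ¬ G.Adj x y) : ∑ v ∈ B, dF F v ≤ #F := by
  classical
  rw [sum_dF]
  have hbound : ∀ e ∈ F, #(B.filter (fun v => v ∈ e)) ≤ 1 := by
    intro e he
    have heG := hF he
    induction e with
    | h x y =>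
      rw [Finset.card_le_one]
      intro v hv w hw
      rw [mem_filter, Sym2.mem_iff] at hv hw
      rcases hv with ⟨hv, rfl | rfl⟩ <;> rcases hw with ⟨hw, rfl | rfl⟩
      · rfl
      · exact absurd heG (hB _ hv _ hw)
      · exact absurd heG (hB _ hw _ hv)
      · rfl
  refine (Finset.sum_le_sum hbound).trans ?_
  simp

lemma touching_le_sum (G : SimpleGraph V) (S : Finset V) :
    #(touching G S) ≤ ∑ v ∈ S, #(nb G v) := by
  classical
  have h1 : touching G S ⊆ S.biUnion (fun v => (nb G v).image (fun u => s(v, u))) := by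
    intro e he
    simp only [touching, mem_filter, mem_univ, true_and] at he
    obtain ⟨he, v, hv, hve⟩ := he
    obtain ⟨u, rfl⟩ := Sym2.mem_iff_exists.1 hve
    rw [mem_biUnion]
    refine ⟨v, hv, ?_⟩
    rw [mem_image]
    exact ⟨u, by simpa [nb] using he, rfl⟩
  refine (card_le_card h1).trans (card_biUnion_le.trans ?_)
  exact Finset.sum_le_sum fun v _ => card_image_le

omit [Fintype V] in
/-- Pairing the elements of `L`, the last one possibly with `x`. -/
lemma pairing (x : V) : ∀ (m : ℕ) (L : Finset V), #L = m → x ∉ L → ∃ A : Finset (Sym2 V),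
    2 * #A ≤ #L + 1 ∧
    (∀ v ∈ L, ∃ w, w ≠ v ∧ s(v, w) ∈ A ∧ (w ∈ L ∨ w = x)) ∧
    (∀ a b, s(a, b) ∈ A → (a ∈ L ∨ b ∈ L) ∧ (a ∈ L ∨ a = x) ∧ (b ∈ L ∨ b = x)) ∧
    (∀ u v w, s(u, v) ∈ A → s(u, w) ∈ A → v = w) := by
  intro m
  induction m using Nat.strong_induction_on with
  | _ m ih =>
    intro L hL hx
    rcases Nat.lt_or_ge m 2 with hm | hm
    · rcases Nat.lt_or_ge m 1 with hm' | hm'
      · have hL0 : L = ∅ := by rw [← card_eq_zero]; omega
        subst hL0
        refine ⟨∅, by simp, ?_, ?_, ?_⟩
        · intro v hv; simp at hv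
        · intro a b h; simp at h
        · intro u v w h; simp at h
      · obtain ⟨v, rfl⟩ := Finset.card_eq_one.1 (show #L = 1 by omega)
        have hxv : x ≠ v := by simpa using hx
        refine ⟨{s(v, x)}, by simp, ?_, ?_, ?_⟩
        · intro u hu
          have : u = v := by simpa using hu
          subst this
          exact ⟨x, hxv, by simp, Or.inr rfl⟩
        · intro a b hab
          rw [mem_singleton, Sym2.eq_iff] at hab
          rcases hab with ⟨rfl, rfl⟩ | ⟨rfl, rfl⟩ <;> simp
        · intro u w w' h1 h2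
          rw [mem_singleton, Sym2.eq_iff] at h1 h2
          rcases h1 with ⟨h1, h1'⟩ | ⟨h1, h1'⟩ <;> rcases h2 with ⟨h2, h2'⟩ | ⟨h2, h2'⟩
          · rw [h1', h2']
          · exact absurd (h2.symm.trans h1) hxv
          · exact absurd (h1.symm.trans h2) hxv
          · rw [h1', h2']
    · obtain ⟨a, ha, b, hb, hab⟩ := Finset.one_lt_card.1 (show 1 < #L by omega)
      have hb' : b ∈ L.erase a := mem_erase.2 ⟨hab.symm, hb⟩
      have hc : #((L.erase a).erase b) = m - 2 := by
        rw [card_erase_of_mem hb', card_erase_of_mem ha]; omega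
      obtain ⟨A, h1, h2, h3, h4⟩ := ih (m - 2) (by omega) ((L.erase a).erase b) hc
        (fun h => hx (mem_of_mem_erase (mem_of_mem_erase h)))
      have hxa : x ≠ a := by rintro rfl; exact hx ha
      have hxb : x ≠ b := by rintro rfl; exact hx hb
      have hnot : ∀ u v, s(u, v) ∈ A → u ≠ a ∧ u ≠ b := by
        intro u v huv
        obtain ⟨_, h6, _⟩ := h3 u v huv
        rcases h6 with h6 | h6
        · rw [mem_erase, mem_erase] at h6
          exact ⟨h6.2.1, h6.1⟩
        · subst h6
          exact ⟨hxa, hxb⟩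
      refine ⟨insert s(a, b) A, ?_, ?_, ?_, ?_⟩
      · have := card_insert_le s(a, b) A
        omega
      · intro v hv
        by_cases hva : v = a
        · subst hva
          exact ⟨b, hab.symm, by simp, Or.inl hb⟩
        · by_cases hvb : v = b
          · subst hvb
            exact ⟨a, hab, by rw [Sym2.eq_swap]; simp, Or.inl ha⟩
          · obtain ⟨w, hw1, hw2, hw3⟩ := h2 v (mem_erase.2 ⟨hvb, mem_erase.2 ⟨hva, hv⟩⟩)
            refine ⟨w, hw1, mem_insert_of_mem hw2, ?_⟩
            rcases hw3 with h | h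
            · exact Or.inl (mem_of_mem_erase (mem_of_mem_erase h))
            · exact Or.inr h
      · intro u v huv
        rw [mem_insert] at huv
        rcases huv with huv | huv
        · rw [Sym2.eq_iff] at huv
          rcases huv with ⟨rfl, rfl⟩ | ⟨rfl, rfl⟩
          · exact ⟨Or.inl ha, Or.inl ha, Or.inl hb⟩
          · exact ⟨Or.inl hb, Or.inl hb, Or.inl ha⟩
        · obtain ⟨h5, h6, h7⟩ := h3 u v huv
          refine ⟨?_, ?_, ?_⟩
          · exact h5.imp (fun h => mem_of_mem_erase (mem_of_mem_erase h))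
              (fun h => mem_of_mem_erase (mem_of_mem_erase h))
          · exact h6.imp_left (fun h => mem_of_mem_erase (mem_of_mem_erase h))
          · exact h7.imp_left (fun h => mem_of_mem_erase (mem_of_mem_erase h))
      · intro u v w h5 h6
        rw [mem_insert] at h5 h6
        rcases h5 with h5 | h5 <;> rcases h6 with h6 | h6
        · rw [← h6] at h5
          exact Sym2.congr_right.1 h5
        · exfalso
          rw [Sym2.eq_iff] at h5
          have := hnot u w h6
          rcases h5 with ⟨h5, _⟩ | ⟨h5, _⟩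
          · exact this.1 h5
          · exact this.2 h5
        · exfalso
          rw [Sym2.eq_iff] at h6
          have := hnot u v h5
          rcases h6 with ⟨h6, _⟩ | ⟨h6, _⟩
          · exact this.1 h6
          · exact this.2 h6
        · exact h4 u v w h5 h6

end Pool.Agent.H977.E6
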