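import Pool.Agent.H977.E6.Posa

/-! Sparse expanding subgraphs. -/

open Finset

namespace Pool.Agent.H977.E6

open Pool.Agent.V11328 Pool.Agent.V11328.E6

/-- Greedy choice of a hitting set. -/
lemma hitting {α : Type*} [DecidableEq α] (E : Finset α) (Q : Finset (Finset α)) {q C : ℕ}
    (hC : 1 ≤ C) (hq : 1 ≤ q) (hF : ∀ S ∈ Q, S ⊆ E ∧ q ≤ #S) (hE : #E ≤ C * q) (r : ℕ) :
    ∃ T ⊆ E, #T ≤ r ∧ (#(Q.filter (fun S => Disjoint S T)) : ℝ) ≤ (1 - 1 / C) ^ r * #Q := by
  induction r with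
  | zero =>
    refine ⟨∅, empty_subset _, by simp, ?_⟩
    simp
  | succ r ih =>
    obtain ⟨T, hTE, hTr, hT⟩ := ih
    set QT := Q.filter (fun S => Disjoint S T) with hQT
    have hCR : (1 : ℝ) ≤ C := by exact_mod_cast hC
    have hCpos : (0 : ℝ) < C := by linarith
    have hfac : (0 : ℝ) ≤ 1 - 1 / C := by
      rw [sub_nonneg, div_le_one hCpos]; exact hCR
    obtain hemp | hne := QT.eq_empty_or_nonempty
    · refine ⟨T, hTE, by omega, ?_⟩
      rw [← hQT, hemp]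
      simp only [card_empty, Nat.cast_zero]
      positivity
    · have hex : ∃ e ∈ E, #QT ≤ C * #(QT.filter (fun S => e ∈ S)) := by
        by_contra hcon
        push Not at hcon
        have hEne : E.Nonempty := by
          obtain ⟨S, hS⟩ := hne
          have h1 := hF S (by rw [hQT, mem_filter] at hS; exact hS.1)
          have h2 : S.Nonempty := by rw [← card_pos]; omega
          exact h2.mono h1.1
        have h1 : ∑ e ∈ E, C * #(QT.filter (fun S => e ∈ S)) < ∑ _e ∈ E, #QT :=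
          Finset.sum_lt_sum_of_nonempty hEne hcon
        rw [sum_const, smul_eq_mul, ← mul_sum] at h1
        have h2 : ∑ e ∈ E, #(QT.filter (fun S => e ∈ S)) = ∑ S ∈ QT, #S := by
          have h3 : ∀ S ∈ QT, #S = ∑ e ∈ E, if e ∈ S then 1 else 0 := by
            intro S hS
            rw [hQT, mem_filter] at hS
            have h4 := (hF S hS.1).1
            rw [← card_filter]
            congr 1
            ext e
            rw [mem_filter]
            exact ⟨fun h => ⟨h4 h, h⟩, fun h => h.2⟩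
          rw [Finset.sum_congr rfl h3, Finset.sum_comm]
          refine Finset.sum_congr rfl fun e _ => ?_
          rw [card_filter]
        rw [h2] at h1
        have h5 : #QT * q ≤ ∑ S ∈ QT, #S := by
          rw [← smul_eq_mul, ← sum_const]
          refine Finset.sum_le_sum fun S hS => ?_
          rw [hQT, mem_filter] at hS
          exact (hF S hS.1).2
        have h6 : #E * #QT ≤ C * q * #QT := Nat.mul_le_mul_right _ hE
        have h7 : C * (#QT * q) ≤ C * ∑ S ∈ QT, #S := Nat.mul_le_mul_left _ h5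
        have h8 : C * (#QT * q) = C * q * #QT := by ring
        omega
      obtain ⟨e, heE, he⟩ := hex
      refine ⟨insert e T, insert_subset heE hTE, (card_insert_le _ _).trans (by omega), ?_⟩
      have h1 : Q.filter (fun S => Disjoint S (insert e T)) =
          QT.filter (fun S => ¬ e ∈ S) := by
        ext S
        rw [hQT, filter_filter, mem_filter, mem_filter, disjoint_insert_right]
        tauto
      have h2 : #(QT.filter (fun S => e ∈ S)) + #(QT.filter (fun S => ¬ e ∈ S)) = #QT :=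
        Finset.card_filter_add_card_filter_not (s := QT) (fun S => e ∈ S)
      rw [h1]
      have h3 : (#QT : ℝ) ≤ C * #(QT.filter (fun S => e ∈ S)) := by exact_mod_cast he
      have h4 : (#(QT.filter (fun S => e ∈ S)) : ℝ) + #(QT.filter (fun S => ¬ e ∈ S)) = #QT := by
        exact_mod_cast h2
      have h5 : (#(QT.filter (fun S => ¬ e ∈ S)) : ℝ) ≤ (1 - 1 / C) * #QT := by
        have h6 : (1 / C : ℝ) * #QT ≤ #(QT.filter (fun S => e ∈ S)) := by
          rw [one_div, inv_mul_le_iff₀ hCpos]; exact h3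
        linarith
      rw [pow_succ]
      calc (#(QT.filter (fun S => ¬ e ∈ S)) : ℝ) ≤ (1 - 1 / C) * #QT := h5
        _ ≤ (1 - 1 / C) * ((1 - 1 / C) ^ r * #Q) := mul_le_mul_of_nonneg_left hT hfac
        _ = (1 - 1 / C) ^ r * (1 - 1 / C) * #Q := by ring

lemma hitting_all {α : Type*} [DecidableEq α] (E : Finset α) (Q : Finset (Finset α))
    {q C n : ℕ} (hn : 1 ≤ n)
    (hC : 1 ≤ C) (hq : 1 ≤ q) (hF : ∀ S ∈ Q, S ⊆ E ∧ q ≤ #S) (hE : #E ≤ C * q)
    (hQ : #Q ≤ 4 ^ n) :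
    ∃ T ⊆ E, #T ≤ 2 * C * n ∧ ∀ S ∈ Q, ∃ e ∈ S, e ∈ T := by
  obtain ⟨T, hT, hTr, h⟩ := hitting E Q hC hq hF hE (2 * C * n)
  refine ⟨T, hT, hTr, ?_⟩
  have hCR : (1 : ℝ) ≤ C := by exact_mod_cast hC
  have hCpos : (0 : ℝ) < C := by linarith
  have hfac : (0 : ℝ) ≤ 1 - 1 / C := by
    rw [sub_nonneg, div_le_one hCpos]; exact hCR
  have hlt : (#(Q.filter (fun S => Disjoint S T)) : ℝ) < 1 := by
    refine h.trans_lt ?_
    have h1 : (1 - 1 / (C : ℝ)) ^ (2 * C * n) ≤ Real.exp (-2) ^ n := by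
      have h2 : (1 - 1 / (C : ℝ)) ≤ Real.exp (-(1 / C)) := by
        have := Real.add_one_le_exp (-(1 / (C : ℝ)))
        linarith
      calc (1 - 1 / (C : ℝ)) ^ (2 * C * n) ≤ Real.exp (-(1 / C)) ^ (2 * C * n) :=
            pow_le_pow_left₀ hfac h2 _
        _ = Real.exp (-2) ^ n := by
            rw [← Real.exp_nat_mul, ← Real.exp_nat_mul]
            congr 1
            push_cast
            field_simp
    have h3 : (#Q : ℝ) ≤ 4 ^ n := by exact_mod_cast hQ
    have h4 : Real.exp (-2) * 4 < 1 := by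
      rw [Real.exp_neg]
      have h5 : (4 : ℝ) < Real.exp 2 := by
        have h6 := Real.exp_one_gt_d9
        have h7 : Real.exp 2 = Real.exp 1 * Real.exp 1 := by
          rw [← Real.exp_add]; norm_num
        rw [h7]; nlinarith
      rw [inv_mul_lt_iff₀ (Real.exp_pos _)]
      linarith
    calc (1 - 1 / (C : ℝ)) ^ (2 * C * n) * #Q ≤ Real.exp (-2) ^ n * 4 ^ n :=
          mul_le_mul h1 h3 (by positivity) (by positivity)
      _ = (Real.exp (-2) * 4) ^ n := by rw [mul_pow]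
      _ < 1 := pow_lt_one₀ (by positivity) h4 (by omega)
  have hz : #(Q.filter (fun S => Disjoint S T)) = 0 := by
    have : #(Q.filter (fun S => Disjoint S T)) < 1 := by exact_mod_cast hlt
    omega
  intro S hS
  have hnd : ¬ Disjoint S T := by
    intro hd
    have : S ∈ Q.filter (fun S => Disjoint S T) := mem_filter.2 ⟨hS, hd⟩
    rw [card_eq_zero] at hz
    rw [hz] at this
    simp at this
  rw [Finset.not_disjoint_iff] at hnd
  exact hnd


section

variable {V : Type*} [Fintype V] [DecidableEq V]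

/-- Hypotheses for the construction of a sparse expanding subgraph. -/
structure Pre (G₁ : SimpleGraph V) (A : Finset (Sym2 V)) (U SM SM₀ : Finset V)
    (D K₀ : ℕ) : Prop where
  inU : ∀ x y, G₁.Adj x y → x ∈ U
  sub : SM ⊆ U
  sub0 : SM₀ ⊆ SM
  card0 : #SM₀ ≤ K₀
  degD : ∀ v ∈ U, v ∉ SM → D ≤ #(nb G₁ v)
  deg1 : ∀ v ∈ SM, v ∉ SM₀ → 2 ≤ #(nb G₁ v)
  deg2 : ∀ v ∈ SM, ∃ w₁ w₂, w₁ ≠ w₂ ∧ w₁ ∈ U ∧ w₂ ∈ U ∧
    (G₁ ⊔ SimpleGraph.fromEdgeSet (A : Set (Sym2 V))).Adj v w₁ ∧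
    (G₁ ⊔ SimpleGraph.fromEdgeSet (A : Set (Sym2 V))).Adj v w₂
  one : ∀ u v w, v ∈ SM → w ∈ SM →
    (G₁ ⊔ SimpleGraph.fromEdgeSet (A : Set (Sym2 V))).Adj u v →
    (G₁ ⊔ SimpleGraph.fromEdgeSet (A : Set (Sym2 V))).Adj u w → v = w
  nosm : ∀ v ∈ SM, v ∉ SM₀ → ∀ w ∈ SM, ¬ G₁.Adj v w
  Asm : ∀ x y, s(x, y) ∈ A → x ∈ SM ∨ y ∈ SM
  far : ∀ u ∈ U, u ∉ SM → ∀ w w', (w = u ∨ G₁.Adj u w) → (w' = u ∨ G₁.Adj u w') →
    (∃ v ∈ SM, v ∉ SM₀ ∧ G₁.Adj v w) → (∃ v ∈ SM, v ∉ SM₀ ∧ G₁.Adj v w') → w = w'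

lemma mem_nb {G : SimpleGraph V} {v w : V} : w ∈ nb G v ↔ G.Adj v w := by simp [nb]

/-- Counting chosen edges inside a set. -/
lemma count_edges {G₁ : SimpleGraph V} {Nf : V → Finset V} {D : ℕ} (hNf : ∀ v, Nf v ⊆ nb G₁ v)
    {Y W : Finset V} (hYW : Y ⊆ W) (hD : ∀ y ∈ Y, #(Nf y) = D) (hW : ∀ y ∈ Y, Nf y ⊆ W) :
    #Y * D ≤ 2 * #(ed G₁ ∩ W.sym2) := by
  classical
  set P : Finset (V × V) := Y.biUnion (fun x => (Nf x).image (fun y => (x, y))) with hP
  have hPc : #Y * D ≤ #P := by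
    rw [hP, card_biUnion]
    · have : ∀ x ∈ Y, D ≤ #((Nf x).image (fun y => (x, y))) := by
        intro x hx
        rw [card_image_of_injective _ (fun a b hab => (Prod.mk.inj hab).2)]
        exact (hD x hx).ge
      calc #Y * D = ∑ _x ∈ Y, D := by rw [sum_const, smul_eq_mul]
        _ ≤ _ := Finset.sum_le_sum this
    · intro x _ x' _ hxx
      rw [Function.onFun, Finset.disjoint_left]
      rintro ⟨a, b⟩ h1 h2
      simp only [mem_image, Prod.mk.injEq] at h1 h2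
      obtain ⟨_, _, rfl, _⟩ := h1
      obtain ⟨_, _, h3, _⟩ := h2
      exact hxx h3.symm
  have himg : P.image (fun q => s(q.1, q.2)) ⊆ ed G₁ ∩ W.sym2 := by
    intro e he
    rw [mem_image] at he
    obtain ⟨⟨a, b⟩, hab, rfl⟩ := he
    rw [hP, mem_biUnion] at hab
    obtain ⟨x, hx, hab⟩ := hab
    simp only [mem_image, Prod.mk.injEq] at hab
    obtain ⟨y, hy, rfl, rfl⟩ := hab
    rw [mem_inter, mem_ed, SimpleGraph.mem_edgeSet, mk_mem_sym2_iff]
    exact ⟨mem_nb.1 (hNf _ hy), hYW hx, hW _ hx hy⟩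
  have hfib : #P ≤ 2 * #(P.image (fun q => s(q.1, q.2))) := by
    refine Finset.card_le_mul_card_image _ _ ?_
    intro e _
    induction e with
    | h a b =>
      have : {q ∈ P | s(q.1, q.2) = s(a, b)} ⊆ {(a, b), (b, a)} := by
        rintro ⟨x, y⟩ hq
        rw [mem_filter] at hq
        have := hq.2
        simp only [Sym2.eq_iff] at this
        simp only [mem_insert, mem_singleton, Prod.mk.injEq]
        exact this
      exact (card_le_card this).trans card_le_two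
  exact hPc.trans (hfib.trans (Nat.mul_le_mul_left _ (card_le_card himg)))

/-- Expansion of a set not contained in the exceptional set, from the expansion of its
non-exceptional part. -/
lemma combine {Γ : SimpleGraph V} {U SM SM₀ : Finset V} {K₀ : ℕ} (W : V → Finset V)
    (hSM : SM ⊆ U) (hK : #SM₀ ≤ K₀)
    (hW1 : ∀ v ∈ SM, v ∉ SM₀ → ∀ w ∈ W v, w ∈ U ∧ w ∉ SM ∧ Γ.Adj v w)
    (hW2 : ∀ v ∈ SM, v ∉ SM₀ → 2 ≤ #(W v))
    (one : ∀ u v w, v ∈ SM → w ∈ SM → Γ.Adj u v → Γ.Adj u w → v = w)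
    (far : ∀ u ∈ U, u ∉ SM → ∀ w w', (w = u ∨ Γ.Adj u w) → (w' = u ∨ Γ.Adj u w') →
      (∃ v ∈ SM, v ∉ SM₀ ∧ w ∈ W v) → (∃ v ∈ SM, v ∉ SM₀ ∧ w' ∈ W v) → w = w')
    {X : Finset V} (hX : X ⊆ U)
    (hloc : 4 * #(X \ SM) + 2 * K₀ < #(NbS Γ U (X \ SM))) :
    2 * #X < #(NbS Γ U X) := by
  classical
  set XL := X \ SM with hXL
  set XS := X ∩ SM with hXS
  have hXLU : XL ⊆ U := sdiff_subset.trans hX
  have hcX : #X = #XL + #XS := by
    rw [hXL, hXS]; exact (card_sdiff_add_card_inter X SM).symm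
  set XS' := XS \ SM₀ with hXS'
  have hXS'c : #XS ≤ #XS' + K₀ := by
    have h1 : #XS ≤ #XS' + #SM₀ := by
      rw [hXS']; exact card_le_card_sdiff_add_card
    omega
  set WX := XS'.biUnion W with hWX
  have hmem' : ∀ v ∈ XS', v ∈ SM ∧ v ∉ SM₀ ∧ v ∈ X := by
    intro v hv
    rw [hXS', mem_sdiff, hXS, mem_inter] at hv
    exact ⟨hv.1.2, hv.2, hv.1.1⟩
  have hWXc : 2 * #XS' ≤ #WX := by
    rw [hWX, card_biUnion]
    · calc 2 * #XS' = ∑ _v ∈ XS', 2 := by rw [sum_const, smul_eq_mul]; ring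
        _ ≤ _ := Finset.sum_le_sum fun v hv => hW2 v (hmem' v hv).1 (hmem' v hv).2.1
    · intro v hv v' hv' hne
      rw [Function.onFun, Finset.disjoint_left]
      intro w hw hw'
      have h1 := hmem' v hv
      have h2 := hmem' v' hv'
      exact hne (one w v v' h1.1 h2.1 (hW1 v h1.1 h1.2.1 w hw).2.2.symm
        (hW1 v' h2.1 h2.2.1 w hw').2.2.symm)
  -- elements of `WX` close to `XL`
  set Cl := WX.filter (fun w => w ∈ XL ∨ w ∈ NbS Γ U XL) with hCl
  have hClc : #Cl ≤ #XL := by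
    refine Finset.card_le_card_of_forall_subsingleton (fun w u => w = u ∨ Γ.Adj u w) ?_ ?_
    · intro w hw
      rw [hCl, mem_filter] at hw
      rcases hw.2 with h | h
      · exact ⟨w, h, Or.inl rfl⟩
      · rw [mem_NbS] at h
        obtain ⟨_, _, x, hx, hxw⟩ := h
        exact ⟨x, hx, Or.inr hxw⟩
    · intro u hu w hw w' hw'
      have hu' : u ∈ X ∧ u ∉ SM := by rwa [hXL, mem_sdiff] at hu
      have hh : ∀ z ∈ Cl, ∃ v ∈ SM, v ∉ SM₀ ∧ z ∈ W v := by
        intro z hz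
        rw [hCl, mem_filter, hWX, mem_biUnion] at hz
        obtain ⟨⟨v, hv, hzv⟩, _⟩ := hz
        exact ⟨v, (hmem' v hv).1, (hmem' v hv).2.1, hzv⟩
      exact far u (hX hu'.1) hu'.2 w w' hw.2 hw'.2 (hh w hw.1) (hh w' hw'.1)
  -- exceptional neighbours of `XL`
  set Ex := (NbS Γ U XL).filter (fun w => w ∈ SM) with hEx
  have hExc : #Ex ≤ #XL := by
    refine Finset.card_le_card_of_forall_subsingleton (fun w u => Γ.Adj u w) ?_ ?_
    · intro w hw
      rw [hEx, mem_filter, mem_NbS] at hw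
      obtain ⟨⟨_, _, x, hx, hxw⟩, _⟩ := hw
      exact ⟨x, hx, hxw⟩
    · intro u _ w hw w' hw'
      have h1 : w ∈ SM := by
        have := hw.1; rw [hEx, mem_filter] at this; exact this.2
      have h2 : w' ∈ SM := by
        have := hw'.1; rw [hEx, mem_filter] at this; exact this.2
      exact one u w w' h1 h2 hw.2 hw'.2
  -- two disjoint subsets of the neighbourhood
  have hsub : (NbS Γ U XL).filter (fun w => ¬ w ∈ SM) ∪
      WX.filter (fun w => ¬ (w ∈ XL ∨ w ∈ NbS Γ U XL)) ⊆ NbS Γ U X := by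
    intro w hw
    rw [mem_union] at hw
    rcases hw with hw | hw
    · rw [mem_filter, mem_NbS] at hw
      obtain ⟨⟨h1, h2, x, hx, hxw⟩, h3⟩ := hw
      rw [mem_NbS]
      refine ⟨h1, ?_, x, ?_, hxw⟩
      · intro hc
        exact h2 (by rw [hXL, mem_sdiff]; exact ⟨hc, h3⟩)
      · rw [hXL, mem_sdiff] at hx; exact hx.1
    · rw [mem_filter, hWX, mem_biUnion] at hw
      obtain ⟨⟨v, hv, hwv⟩, h3⟩ := hw
      have h1 := hmem' v hv
      have h2 := hW1 v h1.1 h1.2.1 w hwv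
      rw [mem_NbS]
      refine ⟨h2.1, ?_, v, h1.2.2, h2.2.2⟩
      intro hc
      exact h3 (Or.inl (by rw [hXL, mem_sdiff]; exact ⟨hc, h2.2.1⟩))
  have hdisj : Disjoint ((NbS Γ U XL).filter (fun w => ¬ w ∈ SM))
      (WX.filter (fun w => ¬ (w ∈ XL ∨ w ∈ NbS Γ U XL))) := by
    rw [Finset.disjoint_left]
    intro w h1 h2
    rw [mem_filter] at h1 h2
    exact h2.2 (Or.inr h1.1)
  have h1 := card_le_card hsub
  rw [card_union_of_disjoint hdisj] at h1
  have h2 : #Ex + #((NbS Γ U XL).filter (fun w => ¬ w ∈ SM)) = #(NbS Γ U XL) :=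
    Finset.card_filter_add_card_filter_not (s := NbS Γ U XL) (fun w => w ∈ SM)
  have h3 : #Cl + #(WX.filter (fun w => ¬ (w ∈ XL ∨ w ∈ NbS Γ U XL))) = #WX :=
    Finset.card_filter_add_card_filter_not (s := WX) (fun w => w ∈ XL ∨ w ∈ NbS Γ U XL)
  omega


/-- Existence of a sparse expanding subgraph. -/
theorem expander {G₁ : SimpleGraph V} {A : Finset (Sym2 V)} {U SM SM₀ : Finset V}
    {D K₀ t N q C : ℕ} (h : Pre G₁ A U SM SM₀ D K₀) (hD : 2 ≤ D)
    (hsp : ∀ W : Finset V, W.Nonempty → #W ≤ (5 + 2 * K₀) * t →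
      2 * (5 + 2 * K₀) * #(ed G₁ ∩ W.sym2) < D * #W)
    (hbt : ∀ A' B' : Finset V, Disjoint A' B' → A' ⊆ U → B' ⊆ U → #A' = t → #B' = t →
      q ≤ #(between G₁ A' B'))
    (hq : 1 ≤ q) (hC : 1 ≤ C) (hE : #(ed G₁) ≤ C * q)
    (hN : 3 * N + t ≤ #U) (htN : t ≤ N) (hV : 1 ≤ Fintype.card V) :
    ∃ Γ₀ : SimpleGraph V, Γ₀ ≤ G₁ ⊔ SimpleGraph.fromEdgeSet (A : Set (Sym2 V)) ∧
      #(ed Γ₀) ≤ #U * D + 2 * C * Fintype.card V + #A ∧ Expd Γ₀ U SM N := by
  classical
  have hinU2 : ∀ x y, G₁.Adj x y → y ∈ U := fun x y hxy => h.inU y x hxy.symm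
  -- chosen neighbours
  have hch : ∀ v, ∃ S ⊆ nb G₁ v, #S = min D #(nb G₁ v) :=
    fun v => Finset.exists_subset_card_eq (min_le_right _ _)
  choose Nf hNf hNfc using hch
  set T₁ : Finset (Sym2 V) := U.biUnion (fun v => (Nf v).image (fun w => s(v, w))) with hT₁
  have hT₁c : #T₁ ≤ #U * D := by
    refine Finset.card_biUnion_le_card_mul _ _ _ ?_
    intro v _
    refine card_image_le.trans ?_
    rw [hNfc]; exact min_le_left _ _
  -- hitting set
  set Q : Finset (Finset (Sym2 V)) :=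
    (((univ : Finset V).powerset ×ˢ (univ : Finset V).powerset).filter (fun P =>
      Disjoint P.1 P.2 ∧ P.1 ⊆ U ∧ P.2 ⊆ U ∧ #P.1 = t ∧ #P.2 = t)).image
      (fun P => between G₁ P.1 P.2) with hQ
  have hQc : #Q ≤ 4 ^ Fintype.card V := by
    refine card_image_le.trans ((card_filter_le _ _).trans ?_)
    rw [card_product, card_powerset, card_univ, ← mul_pow]
    norm_num
  have hQ2 : ∀ S ∈ Q, S ⊆ ed G₁ ∧ q ≤ #S := by
    intro S hS
    rw [hQ, mem_image] at hS
    obtain ⟨⟨A', B'⟩, hAB, rfl⟩ := hS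
    rw [mem_filter] at hAB
    obtain ⟨_, h1, h2, h3, h4, h5⟩ := hAB
    refine ⟨?_, hbt _ _ h1 h2 h3 h4 h5⟩
    intro e he
    simp only [between, mem_filter, mem_univ, true_and] at he
    rw [mem_ed]; exact he.1
  obtain ⟨T₂, hT₂, hT₂c, hhit⟩ := hitting_all (ed G₁) Q hV hC hq hQ2 hE hQc
  set H := G₁ ⊔ SimpleGraph.fromEdgeSet (A : Set (Sym2 V)) with hH
  set Γ : SimpleGraph V := SimpleGraph.fromEdgeSet (T₁ : Set (Sym2 V)) ⊔
    SimpleGraph.fromEdgeSet (T₂ : Set (Sym2 V)) ⊔ SimpleGraph.fromEdgeSet (A : Set (Sym2 V)) with hΓ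
  have hΓH : Γ ≤ H := by
    refine sup_le (sup_le ?_ ?_) le_sup_right
    · intro x y hxy
      rw [SimpleGraph.fromEdgeSet_adj] at hxy
      have h1 : s(x, y) ∈ T₁ := hxy.1
      rw [hT₁, mem_biUnion] at h1
      obtain ⟨v, _, h1⟩ := h1
      rw [mem_image] at h1
      obtain ⟨w, hw, h1⟩ := h1
      have h2 := mem_nb.1 (hNf v hw)
      rw [hH, SimpleGraph.sup_adj]
      left
      rw [← SimpleGraph.mem_edgeSet, ← h1]; exact h2
    · intro x y hxy
      rw [SimpleGraph.fromEdgeSet_adj] at hxy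
      have h1 := hT₂ hxy.1
      rw [mem_ed] at h1
      rw [hH, SimpleGraph.sup_adj]
      exact Or.inl h1
  have hΓN : ∀ v ∈ U, ∀ w ∈ Nf v, Γ.Adj v w := by
    intro v hv w hw
    rw [hΓ, SimpleGraph.sup_adj, SimpleGraph.sup_adj]
    left; left
    rw [SimpleGraph.fromEdgeSet_adj]
    refine ⟨?_, (mem_nb.1 (hNf v hw)).ne⟩
    rw [mem_coe, hT₁, mem_biUnion]
    exact ⟨v, hv, mem_image.2 ⟨w, hw, rfl⟩⟩
  have hΓ1 : ∀ u v w, v ∈ SM → w ∈ SM → Γ.Adj u v → Γ.Adj u w → v = w :=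
    fun u v w hv hw h1 h2 => h.one u v w hv hw (hΓH h1) (hΓH h2)
  have hΓU : ∀ x y, x ∉ SM → y ∉ SM → Γ.Adj x y → G₁.Adj x y := by
    intro x y hx hy hxy
    have h1 := hΓH hxy
    rw [hH, SimpleGraph.sup_adj] at h1
    rcases h1 with h1 | h1
    · exact h1
    · rw [SimpleGraph.fromEdgeSet_adj] at h1
      rcases h.Asm x y h1.1 with h2 | h2
      · exact absurd h2 hx
      · exact absurd h2 hy
  have hΓT : ∀ A' B' : Finset V, Disjoint A' B' → A' ⊆ U → B' ⊆ U → #A' = t → #B' = t →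
      ∃ x ∈ A', ∃ y ∈ B', Γ.Adj x y := by
    intro A' B' h1 h2 h3 h4 h5
    obtain ⟨e, he, heT⟩ := hhit (between G₁ A' B') (by
      rw [hQ, mem_image]
      refine ⟨(A', B'), ?_, rfl⟩
      rw [mem_filter, mem_product, mem_powerset, mem_powerset]
      exact ⟨⟨subset_univ _, subset_univ _⟩, h1, h2, h3, h4, h5⟩)
    simp only [between, mem_filter, mem_univ, true_and] at he
    obtain ⟨he, x, hx, y, hy, rfl⟩ := he
    refine ⟨x, hx, y, hy, ?_⟩
    rw [hΓ, SimpleGraph.sup_adj, SimpleGraph.sup_adj]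
    left; right
    rw [SimpleGraph.fromEdgeSet_adj]
    exact ⟨heT, he.ne⟩
  -- degree of exceptional vertices
  have hdeg2 : ∀ v ∈ SM, ∃ w₁ w₂, w₁ ≠ w₂ ∧ w₁ ∈ U ∧ w₂ ∈ U ∧ Γ.Adj v w₁ ∧ Γ.Adj v w₂ := by
    intro v hv
    by_cases hc : D ≤ #(nb G₁ v)
    · have h1 : #(Nf v) = D := by rw [hNfc]; exact min_eq_left hc
      obtain ⟨w₁, hw₁, w₂, hw₂, hne⟩ := Finset.one_lt_card.1 (show 1 < #(Nf v) by omega)
      exact ⟨w₁, w₂, hne, hinU2 v w₁ (mem_nb.1 (hNf v hw₁)), hinU2 v w₂ (mem_nb.1 (hNf v hw₂)),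
        hΓN v (h.sub hv) w₁ hw₁, hΓN v (h.sub hv) w₂ hw₂⟩
    · push Not at hc
      have h1 : Nf v = nb G₁ v := by
        refine Finset.eq_of_subset_of_card_le (hNf v) ?_
        rw [hNfc, min_eq_right hc.le]
      obtain ⟨w₁, w₂, hne, hw₁, hw₂, ha₁, ha₂⟩ := h.deg2 v hv
      have key : ∀ w, H.Adj v w → Γ.Adj v w := by
        intro w hw
        rw [hH, SimpleGraph.sup_adj] at hw
        rcases hw with hw | hw
        · exact hΓN v (h.sub hv) w (by rw [h1]; exact mem_nb.2 hw)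
        · rw [hΓ, SimpleGraph.sup_adj]; exact Or.inr hw
      exact ⟨w₁, w₂, hne, hw₁, hw₂, key _ ha₁, key _ ha₂⟩
  -- local expansion
  have hloc : ∀ Y : Finset V, Y ⊆ U → Disjoint Y SM → Y.Nonempty → #Y ≤ t →
      4 * #Y + 2 * K₀ < #(NbS Γ U Y) := by
    intro Y hYU hYS hYne hYt
    by_contra hcon
    push Not at hcon
    have hY1 : 1 ≤ #Y := hYne.card_pos
    set W := Y ∪ NbS Γ U Y with hW
    have hWc : #W ≤ (5 + 2 * K₀) * #Y := by
      refine (card_union_le _ _).trans ?_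
      have : 2 * K₀ ≤ 2 * K₀ * #Y := Nat.le_mul_of_pos_right _ hY1
      have e : (5 + 2 * K₀) * #Y = 5 * #Y + 2 * K₀ * #Y := by ring
      omega
    have hWne : W.Nonempty := hYne.mono subset_union_left
    have h1 := hsp W hWne (hWc.trans (Nat.mul_le_mul_left _ hYt))
    have hYD : ∀ y ∈ Y, #(Nf y) = D := by
      intro y hy
      rw [hNfc]
      exact min_eq_left (h.degD y (hYU hy) (Finset.disjoint_left.1 hYS hy))
    have hYW : ∀ y ∈ Y, Nf y ⊆ W := by
      intro y hy w hw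
      rw [hW, mem_union]
      by_cases hc : w ∈ Y
      · exact Or.inl hc
      · right
        rw [mem_NbS]
        exact ⟨hinU2 y w (mem_nb.1 (hNf y hw)), hc, y, hy, hΓN y (hYU hy) w hw⟩
    have h2 := count_edges hNf (Y := Y) (W := W) subset_union_left hYD hYW
    have h3 : (5 + 2 * K₀) * (#Y * D) ≤ (5 + 2 * K₀) * (2 * #(ed G₁ ∩ W.sym2)) :=
      Nat.mul_le_mul_left _ h2
    have h4 : D * #W ≤ D * ((5 + 2 * K₀) * #Y) := Nat.mul_le_mul_left _ hWc
    have e1 : (5 + 2 * K₀) * (2 * #(ed G₁ ∩ W.sym2)) = 2 * (5 + 2 * K₀) * #(ed G₁ ∩ W.sym2) := by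
      ring
    have e2 : D * ((5 + 2 * K₀) * #Y) = (5 + 2 * K₀) * (#Y * D) := by ring
    omega
  -- expansion
  have hexp : ∀ X ⊆ U, (∃ x ∈ X, x ∉ SM) → #X ≤ N → 2 * #X < #(NbS Γ U X) := by
    intro X hX hXn hXN
    by_cases hc : #(X \ SM) ≤ t
    · refine combine (K₀ := K₀) (SM₀ := SM₀) Nf h.sub h.card0 ?_ ?_ hΓ1 ?_ hX ?_
      · intro v hv hv0 w hw
        have h1 := mem_nb.1 (hNf v hw)
        exact ⟨hinU2 v w h1, fun hwS => h.nosm v hv hv0 w hwS h1, hΓN v (h.sub hv) w hw⟩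
      · intro v hv hv0
        rw [hNfc]
        exact le_min hD (h.deg1 v hv hv0)
      · intro u hu huS w w' hw hw' hv hv'
        obtain ⟨v, hvS, hv0, hvw⟩ := hv
        obtain ⟨v', hvS', hv0', hvw'⟩ := hv'
        have h1 := mem_nb.1 (hNf v hvw)
        have h2 := mem_nb.1 (hNf v' hvw')
        have h1S : w ∉ SM := fun hwS => h.nosm v hvS hv0 w hwS h1
        have h2S : w' ∉ SM := fun hwS => h.nosm v' hvS' hv0' w' hwS h2
        refine h.far u hu huS w w' ?_ ?_ ⟨v, hvS, hv0, h1⟩ ⟨v', hvS', hv0', h2⟩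
        · rcases hw with hw | hw
          · exact Or.inl hw
          · exact Or.inr (hΓU u w huS h1S hw)
        · rcases hw' with hw' | hw'
          · exact Or.inl hw'
          · exact Or.inr (hΓU u w' huS h2S hw')
      · refine hloc _ (sdiff_subset.trans hX) Finset.sdiff_disjoint ?_ hc
        obtain ⟨x, hx, hxS⟩ := hXn
        exact ⟨x, mem_sdiff.2 ⟨hx, hxS⟩⟩
    · push Not at hc
      obtain ⟨A', hA', hA'c⟩ := Finset.exists_subset_card_eq hc.le
      have hAX : A' ⊆ X := hA'.trans sdiff_subset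
      set R := (U \ X) \ NbS Γ U X with hR
      have hRt : #R < t := by
        by_contra hcon
        push Not at hcon
        obtain ⟨B', hB', hB'c⟩ := Finset.exists_subset_card_eq hcon
        have hBX : ∀ y ∈ B', y ∈ U ∧ y ∉ X ∧ y ∉ NbS Γ U X := by
          intro y hy
          have := hB' hy
          rw [hR, mem_sdiff, mem_sdiff] at this
          exact ⟨this.1.1, this.1.2, this.2⟩
        obtain ⟨x, hx, y, hy, hxy⟩ := hΓT A' B' (by
          rw [Finset.disjoint_left]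
          intro x hx hx'
          exact (hBX x hx').2.1 (hAX hx)) (hAX.trans hX) (fun y hy => (hBX y hy).1) hA'c hB'c
        have h1 := hBX y hy
        exact h1.2.2 (mem_NbS.2 ⟨h1.1, h1.2.1, x, hAX hx, hxy⟩)
      have h1 : #U ≤ #X + (#(NbS Γ U X) + #R) := by
        have hsub : U ⊆ X ∪ (NbS Γ U X ∪ R) := by
          intro u hu
          rw [mem_union, mem_union]
          by_cases h1 : u ∈ X
          · exact Or.inl h1
          · by_cases h2 : u ∈ NbS Γ U X
            · exact Or.inr (Or.inl h2)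
            · right; right
              rw [hR, mem_sdiff, mem_sdiff]
              exact ⟨⟨hu, h1⟩, h2⟩
        have h2 := (card_le_card hsub).trans (card_union_le _ _)
        have h3 := card_union_le (NbS Γ U X) R
        omega
      omega
  have hnot : ∀ X ⊆ U, X.Nonempty → (∀ x ∈ X, ∀ y ∈ U, y ∉ X → ¬ Γ.Adj x y) → N < #X := by
    intro X hX hXne hno
    by_contra hcon
    push Not at hcon
    have hN0 : NbS Γ U X = ∅ := by
      rw [Finset.eq_empty_iff_forall_notMem]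
      intro y hy
      rw [mem_NbS] at hy
      obtain ⟨h1, h2, x, hx, hxy⟩ := hy
      exact hno x hx y h1 h2 hxy
    by_cases hXS : ∃ x ∈ X, x ∉ SM
    · have := hexp X hX hXS hcon
      rw [hN0] at this
      simp at this
    · push Not at hXS
      obtain ⟨v, hv⟩ := hXne
      obtain ⟨w₁, w₂, hne, hw₁, hw₂, ha₁, ha₂⟩ := hdeg2 v (hXS v hv)
      have hin : ∀ w, w ∈ U → Γ.Adj v w → w ∈ SM := by
        intro w hwU hw
        by_contra hc
        have : w ∉ X := fun h => hc (hXS w h)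
        exact hno v hv w hwU this hw
      exact hne (hΓ1 v w₁ w₂ (hin w₁ hw₁ ha₁) (hin w₂ hw₂ ha₂) ha₁ ha₂)
  refine ⟨Γ, hΓH, ?_, hdeg2, hexp, ?_⟩
  · have hsub : ed Γ ⊆ T₁ ∪ T₂ ∪ A := by
      intro e he
      rw [mem_ed, hΓ, SimpleGraph.edgeSet_sup, SimpleGraph.edgeSet_sup,
        SimpleGraph.edgeSet_fromEdgeSet, SimpleGraph.edgeSet_fromEdgeSet,
        SimpleGraph.edgeSet_fromEdgeSet] at he
      rw [mem_union, mem_union]
      rcases he with (he | he) | he
      · exact Or.inl (Or.inl he.1)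
      · exact Or.inl (Or.inr he.1)
      · exact Or.inr he.1
    have h1 := (card_le_card hsub).trans (card_union_le _ _)
    have h2 := card_union_le T₁ T₂
    omega
  · intro X hX hXne hXU
    by_contra hcon
    push Not at hcon
    have h1 := hnot X hX hXne hcon
    have hXc : (U \ X).Nonempty := by
      rw [Finset.sdiff_nonempty]
      intro hUX
      exact hXU (Finset.Subset.antisymm hX hUX)
    have h2 := hnot (U \ X) sdiff_subset hXc (by
      intro x hx y hy hyX hxy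
      rw [mem_sdiff] at hx
      have hyX' : y ∈ X := by
        by_contra hc
        exact hyX (mem_sdiff.2 ⟨hy, hc⟩)
      exact hcon y hyX' x hx.1 hx.2 hxy.symm)
    obtain ⟨A', hA', hA'c⟩ := Finset.exists_subset_card_eq (htN.trans h1.le)
    obtain ⟨B', hB', hB'c⟩ := Finset.exists_subset_card_eq (htN.trans h2.le)
    obtain ⟨x, hx, y, hy, hxy⟩ := hΓT A' B' (by
      rw [Finset.disjoint_left]
      intro x hx hx'
      exact (mem_sdiff.1 (hB' hx')).2 (hA' hx)) (hA'.trans hX) (hB'.trans sdiff_subset) hA'c hB'c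
    have h3 := mem_sdiff.1 (hB' hy)
    exact hcon x (hA' hx) y h3.1 h3.2 hxy

end

end Pool.Agent.H977.E6
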