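import Pool.Agent.H977.E6.Cases

/-! Deterministic case analysis with an additive gap in the degree sequence. -/

open Finset

namespace Pool.Agent.H977.E6

open Pool.Agent.V11328 Pool.Agent.V11328.E6

variable {V : Type*} [Fintype V] [DecidableEq V]

/-- Removing a set of `k - 1` vertices outside which degrees stay large. -/
theorem attach {G : SimpleGraph V} {F : Finset (Sym2 V)} {k K K₀ D t q C N m₀ b f₀ : ℕ}
    (hk : 2 ≤ k) (hkK : k ≤ K) (h : Rnd G K K₀ D t q C N m₀ b f₀) (hK₀ : 2 * K ≤ K₀)
    {Z : Finset V} (hZe : #Z = k - 1)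
    (hZout : ∀ v, v ∉ Z → D + K ≤ #(nb (G.deleteEdges (F : Set (Sym2 V))) v))
    (hFm : #F < minTouch k G) (hFf : #F ≤ f₀) :
    pcn (G.deleteEdges (F : Set (Sym2 V))) ≤ k - 1 := by
  classical
  set H := G.deleteEdges (F : Set (Sym2 V)) with hH
  have hHadj : ∀ x y, H.Adj x y ↔ G.Adj x y ∧ s(x, y) ∉ F := del_adj G F
  have hdeg : ∀ (R : Finset V) (v : V), #R ≤ K → v ∉ R → D + K ≤ #(nb H v) →
      D ≤ #(nb (subG G F (univ \ R)) v) := by
    intro R v hR hvR hv
    have h1 : nb H v ⊆ nb (subG G F (univ \ R)) v ∪ R := by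
      intro u hu
      rw [mem_nb, hHadj] at hu
      rw [mem_union, mem_nb, subG_adj]
      by_cases hc : u ∈ R
      · exact Or.inr hc
      · exact Or.inl ⟨hu.1, hu.2, by simp [hvR], by simp [hc]⟩
    have h2 := (card_le_card h1).trans (card_union_le _ _)
    omega
  have huc : ∀ R : Finset V, univ \ (univ \ R) = R := by intro R; ext v; simp
  have hcc : ∀ R : Finset V, #(univ \ R) + #R = Fintype.card V := by
    intro R
    rw [card_sdiff_add_card_eq_card (subset_univ R), card_univ]
  have hVN : 3 * N + t + K ≤ Fintype.card V := h.hN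
  have hV3 : K + 3 ≤ Fintype.card V := by
    by_contra hc
    have h1 := h.hV
    have h2 : N = 0 := by omega
    have h3 := h.htN
    have h4 := h.pairs ∅ ∅ (by simp) (by simp; omega) (by simp; omega)
    have h5 : between G (∅ : Finset V) ∅ = ∅ := by
      ext e
      simp [between]
    rw [h5] at h4
    have := h.hq
    simp at h4
    omega
  have hfull : ∀ R : Finset V, Z ⊆ R → #R ≤ K → HamC (subG G F (univ \ R) ⊔ fG ∅) (univ \ R) := by
    intro R hZR hR
    have hPre : Pre (subG G F (univ \ R)) ∅ (univ \ R) ∅ ∅ D K₀ := by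
      refine ⟨fun x y hxy => hxy.2.2.1, by simp, by simp, by simp, ?_, by simp, by simp,
        by simp, by simp, by simp, by simp⟩
      intro v hv _
      have hvR : v ∉ R := by simpa using hv
      exact hdeg R v hR hvR (hZout v fun hc => hvR (hZR hc))
    exact robust h hPre (by rw [huc]; exact hR) (by simp) hFf
  have hedge : ∃ e ∈ touching G Z, e ∉ F := by
    by_contra hcon
    push Not at hcon
    have h1 : #(touching G Z) ≤ #F := card_le_card hcon
    have h2 := minTouch_le G hZe
    omega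
  obtain ⟨e, he, heF⟩ := hedge
  simp only [touching, mem_filter, mem_univ, true_and] at he
  obtain ⟨he, v, hv, hve⟩ := he
  obtain ⟨w, rfl⟩ := Sym2.mem_iff_exists.1 hve
  have hGvw : G.Adj v w := he
  have hvw : H.Adj v w := (hHadj v w).2 ⟨he, heF⟩
  have hne : v ≠ w := hvw.ne
  by_cases hwZ : w ∈ Z
  · obtain ⟨f, hf, _⟩ := hfull Z subset_rfl (by omega)
    have hf' : Pth H (univ \ Z) (#(univ \ Z)) f := by
      refine pth_mono ?_ hf
      refine sup_le ?_ ?_
      · intro x y hxy
        exact (hHadj x y).2 ⟨hxy.1, hxy.2.1⟩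
      · intro x y hxy
        rw [SimpleGraph.fromEdgeSet_adj] at hxy
        simp at hxy
    obtain ⟨hch, hnd⟩ := pth_list hf'
    have hcov := pth_surj hf'
    have hmemP : ∀ z, z ∈ (List.range (#(univ \ Z))).map f → z ∉ Z := by
      intro z hz
      simp only [List.mem_map, List.mem_range] at hz
      obtain ⟨i, hi, rfl⟩ := hz
      exact (mem_sdiff.1 (hf'.mem i hi)).2
    have := pcn_le_two_lists (H := H) (P := (List.range (#(univ \ Z))).map f) (Q := [v, w]) (by
        intro h0
        have := congrArg List.length h0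
        simp only [List.length_map, List.length_range, List.length_nil] at this
        have := hcc Z
        omega) hch hnd (by simp) (by simpa using hvw)
      (by simpa using hne) (by
        intro z hz
        have := hmemP z hz
        simp only [List.mem_cons, List.not_mem_nil, or_false, not_or]
        exact ⟨fun h => this (h ▸ hv), fun h => this (h ▸ hwZ)⟩)
      ((Z.erase v).erase w) (by
        intro z hz hz2
        exact hmemP z hz (mem_of_mem_erase (mem_of_mem_erase hz2))) (by
        intro z hz hz2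
        simp only [List.mem_cons, List.not_mem_nil, or_false] at hz
        rcases hz with rfl | rfl
        · simp at hz2
        · simp at hz2) (by
        intro z
        by_cases hzB : z ∈ Z
        · right
          by_cases h1 : z = v
          · left; simp [h1]
          · by_cases h2 : z = w
            · left; simp [h2]
            · right
              simp [h1, h2, hzB]
        · left
          obtain ⟨i, hi, rfl⟩ := hcov z (by simp [hzB])
          simp only [List.mem_map, List.mem_range]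
          exact ⟨i, hi, rfl⟩)
    rw [card_erase_of_mem, card_erase_of_mem hv] at this
    · have h2 : 2 ≤ #Z := by
        have : ({v, w} : Finset V) ⊆ Z := by
          intro z hz
          simp only [mem_insert, mem_singleton] at hz
          rcases hz with rfl | rfl
          · exact hv
          · exact hwZ
        have h3 := card_le_card this
        rwa [card_pair hne] at h3
      omega
    · exact mem_erase.2 ⟨hne.symm, hwZ⟩
  · set R := Z.erase v with hR
    have hRc : #R = k - 2 := by rw [hR, card_erase_of_mem hv, hZe]; omega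
    have hvR : v ∉ R := by simp [hR]
    have hwR : w ∉ R := fun hc => hwZ (mem_of_mem_erase hc)
    obtain ⟨x, hxU, hxv, hxw⟩ : ∃ x ∈ univ \ R, x ≠ v ∧ x ≠ w := by
      have h1 : 2 < #(univ \ R) := by have := hcc R; omega
      by_contra hcon
      push Not at hcon
      have h2 : univ \ R ⊆ {v, w} := by
        intro x hx
        rw [mem_insert, mem_singleton]
        by_cases hc : x = v
        · exact Or.inl hc
        · exact Or.inr (hcon x hx hc)
      have h3 := (card_le_card h2).trans card_le_two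
      omega
    have hPre : Pre (subG G F (univ \ R)) {s(v, x)} (univ \ R) {v} {v} D K₀ := by
      refine ⟨fun x y hxy => hxy.2.2.1, by simpa using hvR, by simp, by simp; omega,
        ?_, ?_, ?_, ?_, ?_, ?_, ?_⟩
      · intro u hu huv
        have huR : u ∉ R := by simpa using hu
        refine hdeg R u (by omega) huR (hZout u ?_)
        intro hc
        exact huR (by rw [hR, mem_erase]; exact ⟨by simpa using huv, hc⟩)
      · intro u hu hu2; exact absurd hu hu2
      · intro u hu
        have huv : u = v := by simpa using hu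
        subst huv
        refine ⟨w, x, hxw.symm, by simpa using hwR, hxU, ?_, ?_⟩
        · rw [SimpleGraph.sup_adj]
          left
          exact ⟨hGvw, heF, by simpa using hvR, by simpa using hwR⟩
        · rw [SimpleGraph.sup_adj, SimpleGraph.fromEdgeSet_adj]
          exact Or.inr ⟨by simp, hxv.symm⟩
      · intro u p r hp hr _ _
        have h1 : p = v := by simpa using hp
        have h2 : r = v := by simpa using hr
        rw [h1, h2]
      · intro u hu hu2; exact absurd hu hu2
      · intro p r hpr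
        rw [mem_singleton, Sym2.eq_iff] at hpr
        rcases hpr with ⟨h1, _⟩ | ⟨_, h1⟩
        · left; simpa using h1
        · right; simpa using h1
      · rintro u _ _ p r _ _ ⟨z, hz, hz2, _⟩
        exact absurd hz hz2
    have hHam := robust h hPre (by rw [huc]; omega) (by simp; omega) hFf
    have h9 := pcn_of_hamC hHam (by have := hcc R; omega)
    rw [huc, card_singleton, max_self, ← hH] at h9
    omega

/-- Pairing the leaves after removing `R`. -/
theorem pair_up {G : SimpleGraph V} {F : Finset (Sym2 V)} {k K K₀ D t q C N m₀ b f₀ a : ℕ}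
    (hk : 2 ≤ k) (hkK : k ≤ K) (h : Rnd G K K₀ D t q C N m₀ b f₀) (hK₀ : 2 * K ≤ K₀)
    (hS : Spread G a) (hmin : ∀ v, 2 ≤ #(nb G v)) (hbig : ∀ v, v ∉ Sml G a → K + 3 ≤ #(nb G v))
    {R L : Finset V} (hR : #R ≤ k - 2) (hRL : 2 * #R + #L ≤ 2 * (k - 1))
    (hLS : L ⊆ Sml G a) (hdis : Disjoint R L)
    (hout : ∀ v, v ∉ R → v ∉ Sml G a → D ≤ #(nb (subG G F (univ \ R)) v))
    (hL : ∀ v ∈ L, 1 ≤ #(nb (subG G F (univ \ R)) v))
    (hSM : ∀ v ∈ Sml G a, v ∉ R → v ∉ L → 2 ≤ #(nb (subG G F (univ \ R)) v))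
    (hFf : #F ≤ f₀) :
    pcn (G.deleteEdges (F : Set (Sym2 V))) ≤ k - 1 := by
  classical
  set SS := Sml G a with hSS
  obtain ⟨x, hxL, hxR, hxS, hxadj⟩ : ∃ x : V, x ∉ L ∧ (L.Nonempty → x ∉ R) ∧
      (L.Nonempty → x ∉ SS) ∧ (L.Nonempty → ∀ v ∈ SS, ¬ G.Adj v x) := by
    obtain hLe | ⟨v₀, hv₀⟩ := L.eq_empty_or_nonempty
    · have hV : 0 < Fintype.card V := by have := h.hV; omega
      obtain ⟨x⟩ := Fintype.card_pos_iff.1 hV
      exact ⟨x, by rw [hLe]; simp, fun h => absurd hLe h.ne_empty,
        fun h => absurd hLe h.ne_empty, fun h => absurd hLe h.ne_empty⟩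
    · have hv₀S := hLS hv₀
      have hnb : 0 < #(nb G v₀) := by have := hmin v₀; omega
      obtain ⟨y, hy⟩ := card_pos.1 hnb
      have hy' := mem_nb.1 hy
      have hyS : y ∉ SS := fun hc => hS.s1 v₀ y hv₀S hc hy'
      have h1 := hbig y hyS
      obtain ⟨x, hx, hxv⟩ : ∃ x ∈ nb G y, x ∉ insert v₀ R := by
        by_contra hcon
        push Not at hcon
        have h2 : nb G y ⊆ insert v₀ R := hcon
        have h3 := (card_le_card h2).trans (card_insert_le _ _)
        omega
      rw [mem_insert, not_or] at hxv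
      have hx' := mem_nb.1 hx
      have hxS : x ∉ SS := fun hc => hxv.1 (hS.s2 x y v₀ hc hv₀S hx'.symm hy')
      refine ⟨x, fun hc => hxS (hLS hc), fun _ => hxv.2, fun _ => hxS, fun _ v hv hvx => ?_⟩
      by_cases hc : v₀ = v
      · subst hc
        exact hS.s5 v₀ y x hv₀S hy' hx' hvx.symm
      · exact hS.s3 v₀ y x v hv₀S hv hc hy' hx' hvx.symm
  obtain ⟨A, hA1, hA2, hA3, hA4⟩ := pairing x _ L rfl hxL
  set U : Finset V := univ \ R with hU
  have hUmem : ∀ v, v ∈ U ↔ v ∉ R := by intro v; simp [hU]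
  have hUI : univ \ U = R := by ext v; simp [hU]
  have hAne : ∀ {p q : V}, s(p, q) ∈ A → L.Nonempty := by
    intro p q hpq
    rcases (hA3 p q hpq).1 with h | h
    · exact ⟨_, h⟩
    · exact ⟨_, h⟩
  have hSMmem : ∀ v, v ∈ SS \ R ↔ v ∈ SS ∧ v ∉ R := fun v => mem_sdiff
  have hGadj : ∀ {v u}, (subG G F U).Adj v u → G.Adj v u := fun h => h.1
  have hPre : Pre (subG G F U) A U (SS \ R) L D K₀ := by
    refine ⟨?_, ?_, ?_, ?_, ?_, ?_, ?_, ?_, ?_, ?_, ?_⟩
    · intro x y hxy
      exact hxy.2.2.1
    · intro v hv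
      rw [hUmem]; exact ((hSMmem v).1 hv).2
    · intro v hv
      rw [hSMmem]
      exact ⟨hLS hv, Finset.disjoint_right.1 hdis hv⟩
    · omega
    · intro v hv hvS
      exact hout v ((hUmem v).1 hv) (fun hc => hvS ((hSMmem v).2 ⟨hc, (hUmem v).1 hv⟩))
    · intro v hv hvL
      exact hSM v ((hSMmem v).1 hv).1 ((hSMmem v).1 hv).2 hvL
    · intro v hv
      by_cases hvL : v ∈ L
      · obtain ⟨y, hy⟩ := card_pos.1 (show 0 < #(nb (subG G F U) v) from hL v hvL)
        have hy' := mem_nb.1 hy
        obtain ⟨w, hw1, hw2, hw3⟩ := hA2 v hvL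
        have hLne : L.Nonempty := ⟨v, hvL⟩
        have hyG := hy'.1
        refine ⟨y, w, ?_, hy'.2.2.2, ?_, ?_, ?_⟩
        · rintro rfl
          rcases hw3 with h3 | h3
          · exact hS.s1 v y (hLS hvL) (hLS h3) hyG
          · subst h3
            exact hxadj hLne v (hLS hvL) hyG
        · rw [hUmem]
          rcases hw3 with h3 | h3
          · exact Finset.disjoint_right.1 hdis h3
          · subst h3
            exact hxR hLne
        · rw [SimpleGraph.sup_adj]
          exact Or.inl hy'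
        · rw [SimpleGraph.sup_adj, SimpleGraph.fromEdgeSet_adj]
          exact Or.inr ⟨hw2, hw1.symm⟩
      · have h1 := hSM v ((hSMmem v).1 hv).1 ((hSMmem v).1 hv).2 hvL
        obtain ⟨w₁, hw₁, w₂, hw₂, hne⟩ :=
          Finset.one_lt_card.1 (show 1 < #(nb (subG G F U) v) from h1)
        have h3 := mem_nb.1 hw₁
        have h4 := mem_nb.1 hw₂
        refine ⟨w₁, w₂, hne, h3.2.2.2, h4.2.2.2, ?_, ?_⟩
        · rw [SimpleGraph.sup_adj]; exact Or.inl h3
        · rw [SimpleGraph.sup_adj]; exact Or.inl h4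
    · intro u v w hv hw h1 h2
      have hv' := ((hSMmem v).1 hv).1
      have hw' := ((hSMmem w).1 hw).1
      rw [SimpleGraph.sup_adj, SimpleGraph.fromEdgeSet_adj] at h1 h2
      have mixed : ∀ p r, p ∈ SS → r ∈ SS → G.Adj u p → s(u, r) ∈ A → False := by
        intro p r hp _ h3 h4
        have hLne := hAne h4
        have huS : u ∉ SS := fun hc => hS.s1 u p hc hp h3
        rcases (hA3 u r h4).2.1 with h5 | h5
        · exact huS (hLS h5)
        · subst h5
          exact hxadj hLne p hp h3.symm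
      rcases h1 with h1 | h1 <;> rcases h2 with h2 | h2
      · exact hS.s2 v u w hv' hw' (hGadj h1).symm (hGadj h2).symm
      · exact (mixed v w hv' hw' (hGadj h1) h2.1).elim
      · exact (mixed w v hw' hv' (hGadj h2) h1.1).elim
      · exact hA4 u v w h1.1 h2.1
    · intro v hv _ w hw hvw
      exact hS.s1 v w ((hSMmem v).1 hv).1 ((hSMmem w).1 hw).1 (hGadj hvw)
    · intro p r hpr
      rcases (hA3 p r hpr).1 with h1 | h1
      · exact Or.inl ((hSMmem p).2 ⟨hLS h1, Finset.disjoint_right.1 hdis h1⟩)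
      · exact Or.inr ((hSMmem r).2 ⟨hLS h1, Finset.disjoint_right.1 hdis h1⟩)
    · intro u hu huS w w' hw hw' hv hv'
      obtain ⟨v, hvS, _, hvw⟩ := hv
      obtain ⟨v', hvS', _, hvw'⟩ := hv'
      have h1 := ((hSMmem v).1 hvS).1
      have h2 := ((hSMmem v').1 hvS').1
      have huS' : u ∉ SS := fun hc => huS ((hSMmem u).2 ⟨hc, (hUmem u).1 hu⟩)
      have huv : u ≠ v := by rintro rfl; exact huS' h1
      have huv' : u ≠ v' := by rintro rfl; exact huS' h2
      have h3 := hGadj hvw
      have h4 := hGadj hvw'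
      by_contra hne
      rcases hw with hw | hw <;> rcases hw' with hw' | hw'
      · exact hne (hw.trans hw'.symm)
      · subst hw
        have h5 := hGadj hw'
        by_cases hc : v = v'
        · subst hc
          exact hS.s5 v w w' h1 h3 h5 h4.symm
        · exact hS.s3 v w w' v' h1 h2 hc h3 h5 h4.symm
      · subst hw'
        have h5 := hGadj hw
        by_cases hc : v = v'
        · subst hc
          exact hS.s5 v w w' h1 h3 h5.symm h4.symm
        · exact hS.s3 v w w' v' h1 h2 hc h3 h5.symm h4.symm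
      · have h5 := hGadj hw
        have h6 := hGadj hw'
        by_cases hc : v = v'
        · subst hc
          exact hS.s6 v w u w' h1 hne huv h3 h5.symm h6 h4.symm
        · exact hS.s4 v w u w' v' h1 h2 hc huv huv' hne h3 h5.symm h6 h4.symm
  have hHam := robust h hPre (by rw [hUI]; omega) (by omega) hFf
  have h9 := pcn_of_hamC hHam (by
    have h10 : #(univ \ U) + #U = Fintype.card V := by
      rw [card_sdiff_add_card_eq_card (subset_univ U), card_univ]
    have h11 := h.hV
    rw [hUI] at h10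
    omega)
  rw [hUI] at h9
  refine h9.trans ?_
  rcases le_total (#A) 1 with h12 | h12
  · rw [max_eq_left h12]; omega
  · rw [max_eq_right h12]; omega


/-- Deterministic core with an additive gap `g` below the threshold `a`. -/
theorem case_gap {G : SimpleGraph V} {F : Finset (Sym2 V)} {k K K₀ D t q C N m₀ b f₀ a g : ℕ}
    (hk : 2 ≤ k) (hkK : k ≤ K) (h : Rnd G K K₀ D t q C N m₀ b f₀) (hK₀ : 2 * K ≤ K₀)
    (hS : Spread G a) (hga : g ≤ a) (hg : 8 * K * D ≤ g) (hKD : 16 * K ≤ D)
    (hgap : Sml G a ⊆ Sml G (a - g) ∨ k - 1 ≤ #(Sml G (a - g)))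
    (hmin : ∀ v, 2 ≤ #(nb G v))
    (hF : (F : Set (Sym2 V)) ⊆ G.edgeSet) (hFm : #F < minTouch k G) (hFf : #F ≤ f₀) :
    pcn (G.deleteEdges (F : Set (Sym2 V))) ≤ k - 1 := by
  classical
  set H := G.deleteEdges (F : Set (Sym2 V)) with hH
  have hHadj : ∀ x y, H.Adj x y ↔ G.Adj x y ∧ s(x, y) ∉ F := del_adj G F
  -- numerical facts
  have hKK : 16 * (K * K) ≤ K * D := by
    calc 16 * (K * K) = K * (16 * K) := by ring
      _ ≤ K * D := Nat.mul_le_mul_left _ hKD
  have hgK : 8 * (K * D) ≤ g := by rw [← mul_assoc]; exact hg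
  have hK2 : 2 ≤ K := hk.trans hkK
  have hKK2 : 2 * K ≤ K * K := Nat.mul_le_mul_right _ hK2
  set B₁ := univ.filter (fun v => v ∉ Sml G a ∧ #(nb H v) < D + K) with hB₁
  have hB₁mem : ∀ v, v ∈ B₁ ↔ v ∉ Sml G a ∧ #(nb H v) < D + K := by
    intro v; rw [hB₁, mem_filter]; simp
  have hBa : ∀ v ∈ B₁, a ≤ #(nb G v) := by
    intro v hv
    have := ((hB₁mem v).1 hv).1
    rw [mem_Sml] at this
    omega
  have hBρ : ∀ S ⊆ B₁, #S ≤ K → ∑ v ∈ S, #(nb H v) ≤ K * D + K * K := by
    intro S hS' hSc
    have h1 : ∑ v ∈ S, #(nb H v) ≤ ∑ _v ∈ S, (D + K) :=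
      Finset.sum_le_sum fun v hv => ((hB₁mem v).1 (hS' hv)).2.le
    rw [sum_const, smul_eq_mul] at h1
    have h2 : #S * (D + K) ≤ K * (D + K) := Nat.mul_le_mul_right _ hSc
    have h3 : K * (D + K) = K * D + K * K := by ring
    omega
  have hnbG : ∀ S : Finset V, ∑ v ∈ S, #(nb G v) ≤ ∑ v ∈ S, #(nb H v) + ∑ v ∈ S, dF F v := by
    intro S
    rw [← sum_add_distrib]
    exact Finset.sum_le_sum fun v _ => nb_le_dF G F v
  -- few vertices in `B₁`
  have hs : #B₁ ≤ k - 1 := by
    by_contra hcon
    push Not at hcon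
    obtain ⟨S, hSs, hSc⟩ := Finset.exists_subset_card_eq (show k ≤ #B₁ by omega)
    obtain ⟨v₀, hv₀⟩ := card_pos.1 (show 0 < #S by omega)
    have h1 := minTouch_le_sum (G := G) (k := k) (S := S.erase v₀) (by
      rw [card_erase_of_mem hv₀]; omega)
    have h2 := hnbG S
    have h3 := sum_dF_le F S
    have h4 := hBρ S hSs (by omega)
    have h5 : ∑ v ∈ S.erase v₀, #(nb G v) + #(nb G v₀) = ∑ v ∈ S, #(nb G v) :=
      Finset.sum_erase_add S _ hv₀
    have h6 := hBa v₀ (hSs hv₀)
    have h7 : #S * #S ≤ K * K := Nat.mul_le_mul (by omega) (by omega)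
    omega
  -- the graph without `B₁`
  set H₁ := subG G F (univ \ B₁) with hH₁
  have hH₁adj : ∀ x y, H₁.Adj x y ↔ H.Adj x y ∧ x ∉ B₁ ∧ y ∉ B₁ := by
    intro x y
    rw [hH₁, subG_adj, hHadj]
    simp only [mem_sdiff, mem_univ, true_and]
    tauto
  set I := univ.filter (fun v => v ∈ Sml G a ∧ #(nb H₁ v) = 0) with hI
  set L := univ.filter (fun v => v ∈ Sml G a ∧ #(nb H₁ v) = 1) with hL
  have hImem : ∀ v, v ∈ I ↔ v ∈ Sml G a ∧ #(nb H₁ v) = 0 := by
    intro v; rw [hI, mem_filter]; simp
  have hLmem : ∀ v, v ∈ L ↔ v ∈ Sml G a ∧ #(nb H₁ v) = 1 := by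
    intro v; rw [hL, mem_filter]; simp
  have hIL : Disjoint I L := by
    rw [Finset.disjoint_left]
    intro v h1 h2
    have h3 := ((hImem v).1 h1).2
    have h4 := ((hLmem v).1 h2).2
    omega
  have hBI : Disjoint B₁ I := by
    rw [Finset.disjoint_left]
    intro v h1 h2
    exact ((hB₁mem v).1 h1).1 ((hImem v).1 h2).1
  have hBL : Disjoint B₁ L := by
    rw [Finset.disjoint_left]
    intro v h1 h2
    exact ((hB₁mem v).1 h1).1 ((hLmem v).1 h2).1
  -- edges between small vertices and `B₁`
  have hext : ∀ X : Finset V, X ⊆ Sml G a → ∑ v ∈ X, #(nb H v ∩ B₁) ≤ #B₁ := by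
    intro X hX
    have h1 : ∑ v ∈ X, #(nb H v ∩ B₁) = ∑ u ∈ B₁, #(X.filter (fun v => H.Adj v u)) := by
      have h2 : ∀ v ∈ X, #(nb H v ∩ B₁) = ∑ u ∈ B₁, if H.Adj v u then 1 else 0 := by
        intro v _
        rw [← card_filter]
        congr 1
        ext u
        constructor
        · intro hu
          have h8 := mem_inter.1 hu
          exact mem_filter.2 ⟨h8.2, mem_nb.1 h8.1⟩
        · intro hu
          have h8 := mem_filter.1 hu
          exact mem_inter.2 ⟨mem_nb.2 h8.2, h8.1⟩
      rw [Finset.sum_congr rfl h2, Finset.sum_comm]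
      refine Finset.sum_congr rfl fun u _ => ?_
      rw [card_filter]
    rw [h1]
    have h3 : ∀ u ∈ B₁, #(X.filter (fun v => H.Adj v u)) ≤ 1 := by
      intro u _
      rw [Finset.card_le_one]
      intro v hv w hw
      rw [mem_filter] at hv hw
      exact hS.s2 v u w (hX hv.1) (hX hw.1) ((hHadj v u).1 hv.2).1 ((hHadj w u).1 hw.2).1
    refine (Finset.sum_le_sum h3).trans ?_
    simp
  have hsplit : ∀ v, v ∉ B₁ → #(nb H v) ≤ #(nb H₁ v) + #(nb H v ∩ B₁) := by
    intro v hv
    have h1 : nb H v ⊆ nb H₁ v ∪ (nb H v ∩ B₁) := by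
      intro u hu
      rw [mem_union, mem_inter]
      by_cases hc : u ∈ B₁
      · exact Or.inr ⟨hu, hc⟩
      · exact Or.inl (mem_nb.2 ((hH₁adj v u).2 ⟨mem_nb.1 hu, hv, hc⟩))
    exact (card_le_card h1).trans (card_union_le _ _)
  have hSB : ∀ v ∈ Sml G a, v ∉ B₁ := fun v hv hc => ((hB₁mem v).1 hc).1 hv
  have hXI : ∀ X ⊆ I, ∑ v ∈ X, #(nb H v) ≤ #B₁ := by
    intro X hX
    refine le_trans ?_ (hext X (fun v hv => ((hImem v).1 (hX hv)).1))
    refine Finset.sum_le_sum fun v hv => ?_
    have h1 := (hImem v).1 (hX hv)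
    have h2 := hsplit v (hSB v h1.1)
    omega
  have hYL : ∀ Y ⊆ L, ∑ v ∈ Y, #(nb H v) ≤ #Y + #B₁ := by
    intro Y hY
    have h3 := hext Y (fun v hv => ((hLmem v).1 (hY hv)).1)
    have h4 : ∑ v ∈ Y, #(nb H v) ≤ ∑ v ∈ Y, (1 + #(nb H v ∩ B₁)) := by
      refine Finset.sum_le_sum fun v hv => ?_
      have h1 := (hLmem v).1 (hY hv)
      have h2 := hsplit v (hSB v h1.1)
      omega
    rw [sum_add_distrib, sum_const, smul_eq_mul, mul_one] at h4
    omega
  -- the basic inequality
  have hcost : ∀ X ⊆ I, ∀ Y ⊆ L, #X ≤ K → #Y ≤ 2 * K →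
      ∑ v ∈ B₁, #(nb G v) + ∑ v ∈ X, #(nb G v) + ∑ v ∈ Y, #(nb G v) ≤
        #F + (K * D + K * K) + 4 * K + 16 * (K * K) := by
    intro X hX Y hY hXc hYc
    have hd1 : Disjoint B₁ X := Finset.disjoint_of_subset_right hX hBI
    have hd2 : Disjoint (B₁ ∪ X) Y := by
      rw [Finset.disjoint_union_left]
      exact ⟨Finset.disjoint_of_subset_right hY hBL,
        Finset.disjoint_of_subset_left hX (Finset.disjoint_of_subset_right hY hIL)⟩
    have h1 := hnbG ((B₁ ∪ X) ∪ Y)
    have h2 := sum_dF_le F ((B₁ ∪ X) ∪ Y)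
    rw [sum_union hd2, sum_union hd1, sum_union hd2 (f := fun v => #(nb H v)),
      sum_union hd1 (f := fun v => #(nb H v))] at h1
    have h3 := hBρ B₁ subset_rfl (by omega)
    have h4 := hXI X hX
    have h5 := hYL Y hY
    have h6 : #((B₁ ∪ X) ∪ Y) ≤ 4 * K := by
      rw [card_union_of_disjoint hd2, card_union_of_disjoint hd1]; omega
    have h7 : #((B₁ ∪ X) ∪ Y) * #((B₁ ∪ X) ∪ Y) ≤ 16 * (K * K) := by
      calc #((B₁ ∪ X) ∪ Y) * #((B₁ ∪ X) ∪ Y) ≤ (4 * K) * (4 * K) := Nat.mul_le_mul h6 h6
        _ = 16 * (K * K) := by ring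
    omega
  -- final step
  have hfin : #B₁ + #I ≤ k - 2 → 2 * (#B₁ + #I) + #L ≤ 2 * (k - 1) → pcn H ≤ k - 1 := by
    intro h1 h2
    have hRc : #(B₁ ∪ I) = #B₁ + #I := card_union_of_disjoint hBI
    have hnbs : ∀ v, v ∉ B₁ ∪ I → nb (subG G F (univ \ (B₁ ∪ I))) v = nb H₁ v := by
      intro v hv
      rw [mem_union, not_or] at hv
      ext u
      rw [mem_nb, mem_nb, hH₁adj, subG_adj, hHadj]
      simp only [mem_sdiff, mem_univ, true_and, mem_union, not_or]
      constructor
      · rintro ⟨h3, h4, h5, h6⟩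
        exact ⟨⟨h3, h4⟩, h5.1, h6.1⟩
      · rintro ⟨⟨h3, h4⟩, h5, h6⟩
        refine ⟨h3, h4, ⟨h5, hv.2⟩, h6, ?_⟩
        intro hc
        have h7 := ((hImem u).1 hc).2
        rw [card_eq_zero] at h7
        have h8 : v ∈ nb H₁ u :=
          mem_nb.2 ((hH₁adj u v).2 ⟨((hHadj v u).2 ⟨h3, h4⟩).symm, h6, h5⟩)
        rw [h7] at h8
        simp at h8
    refine pair_up (a := a) (R := B₁ ∪ I) (L := L) hk hkK h hK₀ hS hmin ?_ (by omega) (by omega)
      (fun v hv => ((hLmem v).1 hv).1) ?_ ?_ ?_ ?_ hFf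
    · intro v hv
      rw [mem_Sml] at hv
      have : K * D ≥ 1 * D := Nat.mul_le_mul_right _ (by omega)
      omega
    · rw [Finset.disjoint_union_left]; exact ⟨hBL, hIL⟩
    · intro v hv hvS
      rw [hnbs v hv]
      rw [mem_union, not_or] at hv
      have h3 : D + K ≤ #(nb H v) := by
        by_contra hc
        exact hv.1 ((hB₁mem v).2 ⟨hvS, by omega⟩)
      have h4 := hsplit v hv.1
      have h5 : #(nb H v ∩ B₁) ≤ #B₁ := card_le_card inter_subset_right
      omega
    · intro v hv
      rw [hnbs v (by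
        rw [mem_union, not_or]
        exact ⟨Finset.disjoint_right.1 hBL hv, Finset.disjoint_right.1 hIL hv⟩)]
      exact ((hLmem v).1 hv).2.ge
    · intro v hvS hvR hvL
      rw [hnbs v hvR]
      rw [mem_union, not_or] at hvR
      have h3 : #(nb H₁ v) ≠ 0 := fun hc => hvR.2 ((hImem v).2 ⟨hvS, hc⟩)
      have h4 : #(nb H₁ v) ≠ 1 := fun hc => hvL ((hLmem v).2 ⟨hvS, hc⟩)
      omega
  obtain hBe | ⟨b₀, hb₀⟩ := B₁.eq_empty_or_nonempty
  · -- no vertex of large degree is affected
    have hB0 : #B₁ = 0 := by rw [hBe]; rfl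
    have hIiso : ∀ v ∈ I, ∀ u, ¬ H.Adj v u := by
      intro v hv u hu
      have h1 := ((hImem v).1 hv).2
      rw [card_eq_zero] at h1
      have h2 : u ∈ nb H₁ v := mem_nb.2 ((hH₁adj v u).2 ⟨hu, by rw [hBe]; simp, by rw [hBe]; simp⟩)
      rw [h1] at h2
      simp at h2
    have hIk : #I ≤ k - 2 := by
      by_contra hcon
      push Not at hcon
      obtain ⟨S, hSs, hSc⟩ := Finset.exists_subset_card_eq (show k - 1 ≤ #I by omega)
      have h1 := minTouch_le G hSc
      have h2 : touching G S ⊆ F := by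
        intro e he
        simp only [touching, mem_filter, mem_univ, true_and] at he
        obtain ⟨he, v, hv, hve⟩ := he
        obtain ⟨u, rfl⟩ := Sym2.mem_iff_exists.1 hve
        by_contra hc
        exact hIiso v (hSs hv) u ((hHadj v u).2 ⟨he, hc⟩)
      have := card_le_card h2
      omega
    have hIL2 : 2 * #I + #L ≤ 2 * (k - 1) := by
      by_contra hcon
      push Not at hcon
      set j := k - 1 - #I with hj
      have hj1 : 1 ≤ j := by omega
      obtain ⟨L', hL', hL'c⟩ := Finset.exists_subset_card_eq (show 2 * j + 1 ≤ #L by omega)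
      obtain ⟨J, hJ, hJc⟩ := Finset.exists_subset_card_eq (show j ≤ #L' by omega)
      have hdIJ : Disjoint I J := Finset.disjoint_of_subset_right (hJ.trans hL') hIL
      have hdIL' : Disjoint I L' := Finset.disjoint_of_subset_right hL' hIL
      have h1 := minTouch_le_sum (G := G) (k := k) (S := I ∪ J) (by
        rw [card_union_of_disjoint hdIJ]; omega)
      rw [sum_union hdIJ] at h1
      have h2 := sum_dF_le_of_indep hF (B := I ∪ L') (by
        intro x hx y hy
        refine hS.s1 x y ?_ ?_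
        · rw [mem_union] at hx
          rcases hx with hx | hx
          · exact ((hImem x).1 hx).1
          · exact ((hLmem x).1 (hL' hx)).1
        · rw [mem_union] at hy
          rcases hy with hy | hy
          · exact ((hImem y).1 hy).1
          · exact ((hLmem y).1 (hL' hy)).1)
      rw [sum_union hdIL'] at h2
      have h3 := hnbG I
      have h4 := hnbG L'
      have h3' := hXI I subset_rfl
      have h4' := hYL L' hL'
      have h5 : ∑ v ∈ L' \ J, #(nb G v) + ∑ v ∈ J, #(nb G v) = ∑ v ∈ L', #(nb G v) :=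
        Finset.sum_sdiff hJ
      have h6 : ∑ _v ∈ L' \ J, 2 ≤ ∑ v ∈ L' \ J, #(nb G v) :=
        Finset.sum_le_sum fun v _ => hmin v
      rw [sum_const, smul_eq_mul, card_sdiff_of_subset hJ, hL'c, hJc] at h6
      omega
    exact hfin (by omega) (by omega)
  · have hs1 : 1 ≤ #B₁ := card_pos.2 ⟨b₀, hb₀⟩
    have hb₀a := hBa b₀ hb₀
    have hBsum : ∑ v ∈ B₁.erase b₀, #(nb G v) + #(nb G b₀) = ∑ v ∈ B₁, #(nb G v) :=
      Finset.sum_erase_add B₁ _ hb₀
    have hsmall : (K * D + K * K) + 4 * K + 16 * (K * K) < g := by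
      have h1 : 1 ≤ K * D := Nat.one_le_iff_ne_zero.2 (by
        have : 0 < K * D := Nat.mul_pos (by omega) (by omega)
        omega)
      omega
    have hIk : #I ≤ k - 2 := by
      by_contra hcon
      push Not at hcon
      obtain ⟨X, hX, hXc⟩ := Finset.exists_subset_card_eq (show k - 1 ≤ #I by omega)
      have h1 := minTouch_le_sum (G := G) hXc
      have h2 := hcost X hX ∅ (empty_subset _) (by omega) (by simp)
      simp only [sum_empty] at h2
      omega
    have hsI : #B₁ + #I ≤ k - 1 := by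
      by_contra hcon
      push Not at hcon
      obtain ⟨B', hB', hB'c⟩ := Finset.exists_subset_card_eq
        (show k - 1 - #I ≤ #(B₁.erase b₀) by rw [card_erase_of_mem hb₀]; omega)
      have hd : Disjoint B' I :=
        Finset.disjoint_of_subset_left (hB'.trans (erase_subset _ _)) hBI
      have h1 := minTouch_le_sum (G := G) (k := k) (S := B' ∪ I) (by
        rw [card_union_of_disjoint hd]; omega)
      rw [sum_union hd] at h1
      have h2 := hcost I subset_rfl ∅ (empty_subset _) (by omega) (by simp)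
      simp only [sum_empty] at h2
      have h3 : ∑ v ∈ B', #(nb G v) ≤ ∑ v ∈ B₁.erase b₀, #(nb G v) :=
        Finset.sum_le_sum_of_subset hB'
      omega
    have hdE : ∀ J : Finset V, Disjoint I J → Disjoint B₁ J →
        Disjoint (B₁.erase b₀ ∪ I) J := by
      intro J h1 h2
      rw [Finset.disjoint_union_left]
      exact ⟨Finset.disjoint_of_subset_left (erase_subset _ _) h2, h1⟩
    have hdEI : Disjoint (B₁.erase b₀) I :=
      Finset.disjoint_of_subset_left (erase_subset _ _) hBI
    by_cases hc : #B₁ + #I = k - 1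
    · -- every small vertex is isolated
      have hno : ∀ x ∈ Sml G (a - g), x ∈ I := by
        intro x hx
        by_contra hxI
        have hxS : x ∈ Sml G a := Sml_mono (Nat.sub_le _ _) hx
        have hxB : x ∉ B₁ := hSB x hxS
        have hd1 : Disjoint I {x} := by simpa using hxI
        have hd2 : Disjoint B₁ {x} := by simpa using hxB
        have h1 := minTouch_le_sum (G := G) (k := k) (S := (B₁.erase b₀ ∪ I) ∪ {x}) (by
          rw [card_union_of_disjoint (hdE {x} hd1 hd2), card_union_of_disjoint hdEI,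
            card_erase_of_mem hb₀, card_singleton]; omega)
        rw [sum_union (hdE {x} hd1 hd2), sum_union hdEI, sum_singleton] at h1
        have h2 := hcost I subset_rfl ∅ (empty_subset _) (by omega) (by simp)
        simp only [sum_empty] at h2
        rw [mem_Sml] at hx
        omega
      have hall : Sml G a ⊆ I := by
        rcases hgap with h1 | h1
        · exact fun v hv => hno v (h1 hv)
        · exfalso
          have h2 : Sml G (a - g) ⊆ I := fun v hv => hno v hv
          have h3 := card_le_card h2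
          omega
      refine attach (Z := B₁ ∪ I) hk hkK h hK₀ (by rw [card_union_of_disjoint hBI, hc]) ?_ hFm hFf
      intro v hv
      rw [mem_union, not_or] at hv
      by_contra hcon
      push Not at hcon
      exact hv.1 ((hB₁mem v).2 ⟨fun hc2 => hv.2 (hall hc2), hcon⟩)
    · refine hfin (by omega) ?_
      by_contra hcon
      push Not at hcon
      set j := k - 1 - #B₁ - #I with hj
      obtain ⟨Y, hY, hYc⟩ := Finset.exists_subset_card_eq (show 2 * j + 1 ≤ #L by omega)
      obtain ⟨J, hJ, hJc⟩ := Finset.exists_subset_card_eq (show j + 1 ≤ #Y by omega)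
      have hd1 : Disjoint I J := Finset.disjoint_of_subset_right (hJ.trans hY) hIL
      have hd2 : Disjoint B₁ J := Finset.disjoint_of_subset_right (hJ.trans hY) hBL
      have h1 := minTouch_le_sum (G := G) (k := k) (S := (B₁.erase b₀ ∪ I) ∪ J) (by
        rw [card_union_of_disjoint (hdE J hd1 hd2), card_union_of_disjoint hdEI,
          card_erase_of_mem hb₀]; omega)
      rw [sum_union (hdE J hd1 hd2), sum_union hdEI] at h1
      have h2 := hcost I subset_rfl Y hY (by omega) (by omega)
      have h3 : ∑ v ∈ J, #(nb G v) ≤ ∑ v ∈ Y, #(nb G v) := Finset.sum_le_sum_of_subset hJ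
      omega

/-- Deterministic conclusion, uniformly in `k`. -/
theorem det_gap {G : SimpleGraph V} {F : Finset (Sym2 V)} {k K K₀ D t q C N m₀ b f₀ : ℕ}
    (hk : 2 ≤ k) (hkK : k ≤ K) (h : Rnd G K K₀ D t q C N m₀ b f₀) (hK₀ : 2 * K ≤ K₀)
    (hKD : 16 * K ≤ D) (hS : Spread G (16 * K * K * D)) (hmin : ∀ v, 2 ≤ #(nb G v))
    (hF : (F : Set (Sym2 V)) ⊆ G.edgeSet)
    (hFm : #F < minTouch k G) (hFf : minTouch k G ≤ f₀) :
    pcn (G.deleteEdges (F : Set (Sym2 V))) ≤ k - 1 := by
  classical
  set g := 8 * K * D with hg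
  have hgpos : 0 < g := by
    rw [hg]
    exact Nat.mul_pos (by omega) (by omega)
  set θ : ℕ → ℕ := fun j => 16 * K * K * D - j * g with hθ
  have h0 : 16 * K * K * D = 2 * K * g := by rw [hg]; ring
  have hstep : ∀ j, j ≤ K → g ≤ θ j := by
    intro j hj
    simp only [hθ]
    rw [h0]
    have h1 : j * g ≤ K * g := Nat.mul_le_mul_right _ hj
    have h2 : K * g + g ≤ 2 * K * g := by
      have : 2 * K * g = K * g + K * g := by ring
      have h3 : 1 * g ≤ K * g := Nat.mul_le_mul_right _ (by omega)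
      omega
    omega
  have hθs : ∀ j, θ (j + 1) = θ j - g := by
    intro j
    simp only [hθ]
    rw [Nat.add_mul, one_mul]
    omega
  have hex : ∃ j, j < k ∧ (Sml G (θ j) ⊆ Sml G (θ j - g) ∨ k - 1 ≤ #(Sml G (θ j - g))) := by
    by_contra hcon
    push Not at hcon
    have hdec : ∀ i, i + 1 ≤ k → #(Sml G (θ (i + 1))) + i ≤ #(Sml G (θ 1)) := by
      intro i
      induction i with
      | zero => intro _; simp
      | succ i ih =>
        intro hi
        have h1 := ih (by omega)
        have h2 := (hcon (i + 1) (by omega)).1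
        have h3 : Sml G (θ (i + 1 + 1)) ⊆ Sml G (θ (i + 1)) := by
          rw [hθs (i + 1)]; exact Sml_mono (Nat.sub_le _ _)
        have h4 : #(Sml G (θ (i + 1 + 1))) < #(Sml G (θ (i + 1))) := by
          refine card_lt_card ⟨h3, ?_⟩
          rw [hθs (i + 1)]; exact h2
        omega
    have h1 := hdec (k - 1) (by omega)
    have h2 := (hcon 0 (by omega)).2
    rw [← hθs 0] at h2
    simp only [zero_add] at h2
    omega
  obtain ⟨j, hj, hgap⟩ := hex
  have hle : θ j ≤ 16 * K * K * D := Nat.sub_le _ _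
  have hSj : Spread G (θ j) := by
    have hsub : ∀ v, v ∈ Sml G (θ j) → v ∈ Sml G (16 * K * K * D) :=
      fun v hv => Sml_mono hle hv
    exact ⟨fun v v' h1 h2 => hS.s1 v v' (hsub v h1) (hsub v' h2),
      fun v w v' h1 h2 => hS.s2 v w v' (hsub v h1) (hsub v' h2),
      fun v w w' v' h1 h2 => hS.s3 v w w' v' (hsub v h1) (hsub v' h2),
      fun v w u w' v' h1 h2 => hS.s4 v w u w' v' (hsub v h1) (hsub v' h2),
      fun v w w' h1 => hS.s5 v w w' (hsub v h1),
      fun v w u w' h1 => hS.s6 v w u w' (hsub v h1)⟩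
  exact case_gap hk hkK h hK₀ hSj (hstep j (by omega)) le_rfl hKD hgap hmin hF hFm (by omega)

/-- Exact value of the least number of deletions, uniformly in `k ≤ K`. -/
theorem det_fk_gap {G : SimpleGraph V} {k K K₀ D t q C N m₀ b f₀ : ℕ}
    (hk : 2 ≤ k) (hkK : k ≤ K) (h : Rnd G K K₀ D t q C N m₀ b f₀) (hK₀ : 2 * K ≤ K₀)
    (hKD : 16 * K ≤ D) (hS : Spread G (16 * K * K * D)) (hmin : ∀ v, 2 ≤ #(nb G v))
    (hFf : minTouch k G ≤ f₀) :
    fk k G = (minTouch k G : ℕ∞) := by
  classical
  have hkV : k ≤ Fintype.card V := by have := h.hV; omega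
  obtain ⟨S, hSc, hSt⟩ := minTouch_spec hkV G
  have hpos : 0 < minTouch k G := by
    obtain ⟨v, hv⟩ := card_pos.1 (show 0 < #S by omega)
    obtain ⟨w, hw⟩ := card_pos.1 (show 0 < #(nb G v) by have := hmin v; omega)
    rw [← hSt, card_pos]
    refine ⟨s(v, w), ?_⟩
    simp only [touching, mem_filter, mem_univ, true_and]
    exact ⟨mem_nb.1 hw, v, hv, by simp⟩
  have hGk : pcn G ≤ k := by
    have h1 := det_gap (F := ∅) hk hkK h hK₀ hKD hS hmin (by simp) (by simpa using hpos) hFf
    simp only [coe_empty, SimpleGraph.deleteEdges_empty] at h1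
    omega
  apply le_antisymm
  · exact (fk_le (b := Fintype.card V) (by omega) hkV hGk (fun v => card_le_univ _)).2
  · refine le_iInf₂ fun F hF => ?_
    by_contra hcon
    push Not at hcon
    have h1 : #F < minTouch k G := by exact_mod_cast hcon
    have h2 := det_gap hk hkK h hK₀ hKD hS hmin hF.1 h1 hFf
    rw [hF.2] at h2
    omega

end Pool.Agent.H977.E6
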