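import Pool.Graph.R_seed8.V11328.E6.Lim

/-! Rotations of longest paths and boosters. -/

open Finset

namespace Pool.Agent.H977.E6

open Pool.Agent.V11328 Pool.Agent.V11328.E6

variable {V : Type*}

lemma pth_rotate {H : SimpleGraph V} {U : Finset V} {l : ℕ} {f : ℕ → V} (h : Pth H U l f)
    {i : ℕ} (hi : i + 1 < l) (ha : H.Adj (f (l - 1)) (f i)) :
    Pth H U l (fun k => f (if k ≤ i then k else l + i - k)) := by
  refine h.reindex (fun k => if k ≤ i then k else l + i - k) ?_ ?_ ?_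
  · intro k hk
    split_ifs <;> omega
  · intro a ha b hb
    split_ifs <;> omega
  · intro k hk
    by_cases c1 : k + 1 ≤ i
    · rw [if_pos (by omega), if_pos c1]
      exact h.adj _ (by omega)
    · by_cases c2 : k = i
      · subst c2
        rw [if_pos le_rfl, if_neg (by omega)]
        have e : l + k - (k + 1) = l - 1 := by omega
        rw [e]
        exact ha.symm
      · rw [if_neg (by omega), if_neg (by omega)]
        have e : l + i - k = (l + i - (k + 1)) + 1 := by omega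
        rw [e]
        exact (h.adj _ (by omega)).symm

lemma pth_mono {H H' : SimpleGraph V} (hH : H ≤ H') {U : Finset V} {l : ℕ} {f : ℕ → V}
    (h : Pth H U l f) : Pth H' U l f := ⟨h.mem, h.inj, fun i hi => hH (h.adj i hi)⟩

lemma pth_reverse {H : SimpleGraph V} {U : Finset V} {l : ℕ} {f : ℕ → V} (h : Pth H U l f) :
    Pth H U l (fun k => f (l - 1 - k)) := by
  refine h.reindex (fun k => l - 1 - k) ?_ ?_ ?_
  · intro k hk; omega
  · intro a ha b hb hab; omega
  · intro k hk
    have e : l - 1 - k = (l - 1 - (k + 1)) + 1 := by omega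
    rw [e]
    exact (h.adj _ (by omega)).symm

/-- Paths obtained from `f₀` by rotations keeping the first vertex. -/
inductive Rot (H : SimpleGraph V) (l : ℕ) (f₀ : ℕ → V) : (ℕ → V) → Prop
  | base : Rot H l f₀ f₀
  | step {f : ℕ → V} {i : ℕ} (h : Rot H l f₀ f) (hi : i + 1 < l)
      (ha : H.Adj (f (l - 1)) (f i)) :
      Rot H l f₀ (fun k => f (if k ≤ i then k else l + i - k))

lemma Rot.pth {H : SimpleGraph V} {U : Finset V} {l : ℕ} {f₀ f : ℕ → V} (h0 : Pth H U l f₀)
    (h : Rot H l f₀ f) : Pth H U l f := by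
  induction h with
  | base => exact h0
  | step h hi ha ih => exact pth_rotate ih hi ha

lemma Rot.zero {H : SimpleGraph V} {l : ℕ} {f₀ f : ℕ → V}
    (h : Rot H l f₀ f) : f 0 = f₀ 0 := by
  induction h with
  | base => rfl
  | step h hi ha ih => simpa using ih

/-- End vertices of the rotated paths. -/
def EndS (H : SimpleGraph V) (l : ℕ) (f₀ : ℕ → V) (x : V) : Prop :=
  ∃ f, Rot H l f₀ f ∧ f (l - 1) = x

lemma EndS.of_step {H : SimpleGraph V} {l : ℕ} {f₀ f : ℕ → V} (h : Rot H l f₀ f) {i : ℕ}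
    (hi : i + 1 < l) (ha : H.Adj (f (l - 1)) (f i)) : EndS H l f₀ (f (i + 1)) := by
  refine ⟨_, Rot.step h hi ha, ?_⟩
  rw [if_neg (by omega)]
  congr 1
  omega

/-- Consecutive vertices of `f₀` outside the end set stay consecutive. -/
lemma Rot.keep {H : SimpleGraph V} {l : ℕ} {f₀ f : ℕ → V} (h : Rot H l f₀ f) {i : ℕ}
    (hi : i + 1 < l) (h1 : ¬ EndS H l f₀ (f₀ i)) (h2 : ¬ EndS H l f₀ (f₀ (i + 1))) :
    ∃ k, k + 1 < l ∧ ((f k = f₀ i ∧ f (k + 1) = f₀ (i + 1)) ∨
      (f k = f₀ (i + 1) ∧ f (k + 1) = f₀ i)) := by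
  induction h with
  | base => exact ⟨i, hi, Or.inl ⟨rfl, rfl⟩⟩
  | @step f j h hj ha ih =>
    obtain ⟨k, hk, hor⟩ := ih
    have hend : EndS H l f₀ (f (j + 1)) := EndS.of_step h hj ha
    by_cases c1 : k + 1 ≤ j
    · refine ⟨k, hk, ?_⟩
      dsimp only
      rw [if_pos (by omega), if_pos c1]
      exact hor
    · by_cases c2 : k = j
      · exfalso
        subst c2
        rcases hor with ⟨_, h4⟩ | ⟨_, h4⟩
        · exact h2 (h4 ▸ hend)
        · exact h1 (h4 ▸ hend)
      · refine ⟨l + j - k - 1, by omega, ?_⟩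
        dsimp only
        rw [if_neg (by omega), if_neg (by omega)]
        have e1 : l + j - (l + j - k - 1) = k + 1 := by omega
        have e2 : l + j - (l + j - k - 1 + 1) = k := by omega
        rw [e1, e2]
        rcases hor with ⟨h3, h4⟩ | ⟨h3, h4⟩
        · exact Or.inr ⟨h4, h3⟩
        · exact Or.inl ⟨h4, h3⟩

/-- If the path is of maximal length, neighbours of its end are on the path. -/
lemma mem_of_max {H : SimpleGraph V} {U : Finset V} {l : ℕ} {f : ℕ → V} (h : Pth H U l f)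
    (hl : 1 ≤ l) (hmax : ∀ g, ¬ Pth H U (l + 1) g) {y : V} (hy : y ∈ U)
    (ha : H.Adj (f (l - 1)) y) : ∃ j, j < l ∧ f j = y := by
  by_contra hcon
  push Not at hcon
  refine hmax (fun k => if k < l then f k else y) ⟨?_, ?_, ?_⟩
  · intro i hi
    by_cases c : i < l
    · simp only [c, if_true]; exact h.mem i c
    · simp only [c, if_false]; exact hy
  · intro i hi j hj hij
    by_cases c : i < l
    · by_cases c' : j < l
      · simp only [c, c', if_true] at hij
        exact h.inj i c j c' hij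
      · simp only [c, c', if_true, if_false] at hij
        exact absurd hij (hcon i c)
    · by_cases c' : j < l
      · simp only [c, c', if_true, if_false] at hij
        exact absurd hij.symm (hcon j c')
      · omega
  · intro i hi
    by_cases c : i + 1 < l
    · have c' : i < l := by omega
      simp only [c, c', if_true]
      exact h.adj i c
    · have c' : i < l := by omega
      simp only [c, c', if_true, if_false]
      have e : i = l - 1 := by omega
      rw [e]; exact ha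

/-- The rotation lemma: neighbours of the end set are next to the end set on the first path. -/
lemma posa_next {H : SimpleGraph V} {U : Finset V} {l : ℕ} {f₀ : ℕ → V} (h0 : Pth H U l f₀)
    (hl : 1 ≤ l) (hmax : ∀ g, ¬ Pth H U (l + 1) g) {x y : V} (hx : EndS H l f₀ x) (hy : y ∈ U)
    (hxy : H.Adj x y) (hyS : ¬ EndS H l f₀ y) :
    ∃ i, i + 1 < l ∧ ((f₀ i = y ∧ EndS H l f₀ (f₀ (i + 1))) ∨
      (f₀ (i + 1) = y ∧ EndS H l f₀ (f₀ i))) := by
  obtain ⟨f, hf, rfl⟩ := hx
  have hpf := hf.pth h0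
  obtain ⟨j, hj, rfl⟩ := mem_of_max hpf hl hmax hy hxy
  have hjl : j ≠ l - 1 := by
    rintro rfl
    exact hyS ⟨f, hf, rfl⟩
  have hj1 : j + 1 < l := by omega
  have hz : EndS H l f₀ (f (j + 1)) := EndS.of_step hf hj1 hxy
  -- the vertex is on the first path too
  have hon : ∀ {g : ℕ → V}, Rot H l f₀ g → ∀ i < l, ∃ m < l, f₀ m = g i := by
    intro g hg
    induction hg with
    | base => exact fun i hi => ⟨i, hi, rfl⟩
    | @step g s hg hs ha ih =>
      intro i hi
      dsimp only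
      split_ifs with c
      · exact ih i hi
      · exact ih _ (by omega)
  obtain ⟨m, hm, hmj⟩ := hon hf j hj
  by_contra hcon
  push Not at hcon
  have hml : m ≠ l - 1 := by
    rintro rfl
    apply hyS
    rw [← hmj]
    exact ⟨f₀, Rot.base, rfl⟩
  have hm1 : m + 1 < l := by omega
  have hplus : ¬ EndS H l f₀ (f₀ (m + 1)) := (hcon m hm1).1 hmj
  have hyS' : ¬ EndS H l f₀ (f₀ m) := by rw [hmj]; exact hyS
  obtain ⟨a, ha, hor⟩ := hf.keep hm1 hyS' hplus
  have key : j ≥ 1 ∧ f (j - 1) = f₀ (m + 1) := by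
    rcases hor with ⟨h3, h4⟩ | ⟨h3, h4⟩
    · exfalso
      have : a = j := hpf.inj a (by omega) j hj (by rw [h3, hmj])
      subst this
      exact hplus (h4 ▸ hz)
    · have : a + 1 = j := hpf.inj _ ha j hj (by rw [h4, hmj])
      subst this
      exact ⟨by omega, by simpa using h3⟩
  rcases Nat.eq_zero_or_pos m with hm0 | hm0
  · subst hm0
    have : j = 0 := by
      refine hpf.inj j hj 0 (by omega) ?_
      rw [hf.zero, hmj]
    omega
  · obtain ⟨m', rfl⟩ : ∃ m', m = m' + 1 := ⟨m - 1, by omega⟩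
    have hminus : ¬ EndS H l f₀ (f₀ m') := (hcon m' hm).2 hmj
    obtain ⟨b, hb, hor2⟩ := hf.keep hm hminus hyS'
    rcases hor2 with ⟨h3, h4⟩ | ⟨h3, h4⟩
    · -- f b = f₀ m', f (b+1) = f₀ (m'+1) = f j
      have : b + 1 = j := hpf.inj _ hb j hj (by rw [h4, hmj])
      subst this
      have h5 : f₀ m' = f₀ (m' + 1 + 1) := by
        rw [← h3, ← key.2]; simp
      have := h0.inj m' (by omega) (m' + 1 + 1) hm1 h5
      omega
    · have : b = j := hpf.inj _ (by omega) j hj (by rw [h3, hmj])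
      subst this
      exact hminus (h4 ▸ hz)


section finite

variable [Fintype V] [DecidableEq V]

open Classical in
/-- Vertices of `U` outside `X` having a neighbour in `X`. -/
noncomputable def NbS (H : SimpleGraph V) (U X : Finset V) : Finset V :=
  U.filter (fun y => y ∉ X ∧ ∃ x ∈ X, H.Adj x y)

lemma mem_NbS {H : SimpleGraph V} {U X : Finset V} {y : V} :
    y ∈ NbS H U X ↔ y ∈ U ∧ y ∉ X ∧ ∃ x ∈ X, H.Adj x y := by
  simp [NbS]

/-- The expansion properties used for rotations. `SM` is a set of exceptional vertices. -/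
structure Expd (H : SimpleGraph V) (U SM : Finset V) (N : ℕ) : Prop where
  deg2 : ∀ v ∈ SM, ∃ w₁ w₂, w₁ ≠ w₂ ∧ w₁ ∈ U ∧ w₂ ∈ U ∧ H.Adj v w₁ ∧ H.Adj v w₂
  exp : ∀ X ⊆ U, (∃ x ∈ X, x ∉ SM) → #X ≤ N → 2 * #X < #(NbS H U X)
  conn : ∀ X ⊆ U, X.Nonempty → X ≠ U → ∃ x ∈ X, ∃ y ∈ U, y ∉ X ∧ H.Adj x y

lemma Expd.mono {H H' : SimpleGraph V} (hH : H ≤ H') {U SM : Finset V} {N : ℕ}
    (h : Expd H U SM N) : Expd H' U SM N := by
  refine ⟨?_, ?_, ?_⟩
  · intro v hv
    obtain ⟨w₁, w₂, h1, h2, h3, h4, h5⟩ := h.deg2 v hv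
    exact ⟨w₁, w₂, h1, h2, h3, hH h4, hH h5⟩
  · intro X hX hX2 hX3
    refine (h.exp X hX hX2 hX3).trans_le (card_le_card ?_)
    intro y hy
    rw [mem_NbS] at hy ⊢
    obtain ⟨h1, h2, x, h3, h4⟩ := hy
    exact ⟨h1, h2, x, h3, hH h4⟩
  · intro X hX hX2 hX3
    obtain ⟨x, hx, y, hy, hyX, ha⟩ := h.conn X hX hX2 hX3
    exact ⟨x, hx, y, hy, hyX, hH ha⟩

open Classical in
/-- The end set as a finset. -/
noncomputable def EndF (H : SimpleGraph V) (l : ℕ) (f₀ : ℕ → V) : Finset V :=
  univ.filter (EndS H l f₀)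

omit [DecidableEq V] in
lemma mem_EndF {H : SimpleGraph V} {l : ℕ} {f₀ : ℕ → V} {x : V} :
    x ∈ EndF H l f₀ ↔ EndS H l f₀ x := by simp [EndF]

lemma EndF_nbs {H : SimpleGraph V} {U : Finset V} {l : ℕ} {f₀ : ℕ → V} (h0 : Pth H U l f₀)
    (hl : 1 ≤ l) (hmax : ∀ g, ¬ Pth H U (l + 1) g) :
    #(NbS H U (EndF H l f₀)) ≤ 2 * #(EndF H l f₀) := by
  classical
  set S := EndF H l f₀ with hS
  set idx : V → ℕ := fun v => if h : ∃ i, i < l ∧ f₀ i = v then h.choose else 0 with hidx
  have hidx2 : ∀ i, i < l → idx (f₀ i) = i := by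
    intro i hi
    have hex : ∃ j, j < l ∧ f₀ j = f₀ i := ⟨i, hi, rfl⟩
    simp only [hidx]
    rw [dif_pos hex]
    exact h0.inj _ hex.choose_spec.1 i hi hex.choose_spec.2
  have hsub : NbS H U S ⊆ S.image (fun v => f₀ (idx v - 1)) ∪ S.image (fun v => f₀ (idx v + 1)) := by
    intro y hy
    rw [mem_NbS] at hy
    obtain ⟨hyU, hyS, x, hx, hxy⟩ := hy
    rw [hS, mem_EndF] at hx hyS
    obtain ⟨i, hi, hor⟩ := posa_next h0 hl hmax hx hyU hxy hyS
    rw [mem_union, mem_image, mem_image]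
    rcases hor with ⟨h1, h2⟩ | ⟨h1, h2⟩
    · left
      refine ⟨f₀ (i + 1), by rw [hS, mem_EndF]; exact h2, ?_⟩
      rw [hidx2 _ hi]
      simpa using h1
    · right
      refine ⟨f₀ i, by rw [hS, mem_EndF]; exact h2, ?_⟩
      rw [hidx2 _ (by omega)]
      exact h1
  refine (card_le_card hsub).trans ((card_union_le _ _).trans ?_)
  have := card_image_le (s := S) (f := fun v => f₀ (idx v - 1))
  have := card_image_le (s := S) (f := fun v => f₀ (idx v + 1))
  omega

lemma EndF_sub {H : SimpleGraph V} {U : Finset V} {l : ℕ} {f₀ : ℕ → V} (h0 : Pth H U l f₀)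
    (hl : 1 ≤ l) : EndF H l f₀ ⊆ U := by
  intro x hx
  rw [mem_EndF] at hx
  obtain ⟨f, hf, rfl⟩ := hx
  exact (hf.pth h0).mem _ (by omega)

/-- The end set is large. -/
lemma EndF_large {H : SimpleGraph V} {U SM : Finset V} {N l : ℕ} {f₀ : ℕ → V}
    (hE : Expd H U SM N)
    (hone : ∀ u v w, v ∈ SM → w ∈ SM → H.Adj u v → H.Adj u w → v = w)
    (h0 : Pth H U l f₀) (hl : 1 ≤ l) (hmax : ∀ g, ¬ Pth H U (l + 1) g) :
    N < #(EndF H l f₀) := by
  classical
  by_contra hcon
  push Not at hcon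
  have h1 := EndF_nbs h0 hl hmax
  have hx : EndS H l f₀ (f₀ (l - 1)) := ⟨f₀, Rot.base, rfl⟩
  have hex : ∃ x ∈ EndF H l f₀, x ∉ SM := by
    by_cases hxS : f₀ (l - 1) ∈ SM
    · obtain ⟨w₁, w₂, h21, h22, h23, h24, h25⟩ := hE.deg2 _ hxS
      obtain ⟨w, hw, hwne⟩ : ∃ w, (w ∈ U ∧ H.Adj (f₀ (l - 1)) w) ∧ w ≠ f₀ (l - 2) := by
        by_cases hc : w₁ = f₀ (l - 2)
        · exact ⟨w₂, ⟨h23, h25⟩, fun h => h21 (hc.trans h.symm)⟩
        · exact ⟨w₁, ⟨h22, h24⟩, hc⟩
      obtain ⟨j, hj, rfl⟩ := mem_of_max h0 hl hmax hw.1 hw.2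
      have hj1 : j ≠ l - 1 := by
        rintro rfl
        exact hw.2.ne rfl
      have hj2 : j ≠ l - 2 := by
        rintro rfl
        exact hwne rfl
      have hj3 : j + 1 < l := by omega
      have hz : EndS H l f₀ (f₀ (j + 1)) := EndS.of_step Rot.base hj3 hw.2
      refine ⟨f₀ (j + 1), mem_EndF.2 hz, ?_⟩
      intro hzS
      have := hone (f₀ j) (f₀ (l - 1)) (f₀ (j + 1)) hxS hzS hw.2.symm (h0.adj j hj3)
      have := h0.inj _ (by omega) _ hj3 this
      omega
    · exact ⟨_, mem_EndF.2 hx, hxS⟩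
  have := hE.exp _ (EndF_sub h0 hl) hex hcon
  omega

/-- A Hamilton cycle of `H` on the vertex set `U`. -/
def HamC (H : SimpleGraph V) (U : Finset V) : Prop :=
  ∃ f, Pth H U (#U) f ∧ H.Adj (f (#U - 1)) (f 0)

omit [Fintype V] [DecidableEq V] in
lemma HamC.mono {H H' : SimpleGraph V} (hH : H ≤ H') {U : Finset V} (h : HamC H U) :
    HamC H' U := by
  obtain ⟨f, hf, ha⟩ := h
  exact ⟨f, pth_mono hH hf, hH ha⟩

open Classical in
/-- Boosters: non-edges inside `U` whose addition creates a Hamilton cycle or a longer path. -/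
noncomputable def Bst (H : SimpleGraph V) (U : Finset V) : Finset (Sym2 V) :=
  univ.filter (fun e => ¬ e.IsDiag ∧ e ∉ H.edgeSet ∧ (∀ v ∈ e, v ∈ U) ∧
    (HamC (H ⊔ SimpleGraph.fromEdgeSet {e}) U ∨
      ∀ l, (∃ f, Pth H U l f) → ∃ g, Pth (H ⊔ SimpleGraph.fromEdgeSet {e}) U (l + 1) g))

lemma mem_Bst {H : SimpleGraph V} {U : Finset V} {e : Sym2 V} : e ∈ Bst H U ↔
    ¬ e.IsDiag ∧ e ∉ H.edgeSet ∧ (∀ v ∈ e, v ∈ U) ∧
    (HamC (H ⊔ SimpleGraph.fromEdgeSet {e}) U ∨
      ∀ l, (∃ f, Pth H U l f) → ∃ g, Pth (H ⊔ SimpleGraph.fromEdgeSet {e}) U (l + 1) g) := by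
  simp [Bst]

omit [Fintype V] in
/-- A cycle not covering everything extends to a longer path. -/
lemma longer_of_cycle {H : SimpleGraph V} {U : Finset V} {l : ℕ} {f : ℕ → V}
    (hconn : ∀ X ⊆ U, X.Nonempty → X ≠ U → ∃ x ∈ X, ∃ y ∈ U, y ∉ X ∧ H.Adj x y)
    (h : Pth H U l f) (hl : 1 ≤ l) (hlU : l ≠ #U) (hc : H.Adj (f (l - 1)) (f 0)) :
    ∃ g, Pth H U (l + 1) g := by
  classical
  have hle := h.length_le
  set X := (range l).image f with hX
  have hXU : X ⊆ U := by
    intro x hx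
    rw [hX, mem_image] at hx
    obtain ⟨i, hi, rfl⟩ := hx
    exact h.mem i (by simpa using hi)
  have hXc : #X = l := by
    rw [hX, card_image_of_injOn, card_range]
    intro a ha b hb hab
    exact h.inj a (by simpa using ha) b (by simpa using hb) hab
  have hXne : X.Nonempty := by rw [← card_pos]; omega
  obtain ⟨x, hx, y, hy, hyX, ha⟩ := hconn X hXU hXne (by rintro rfl; exact hlU hXc.symm)
  rw [hX, mem_image] at hx
  obtain ⟨t, ht, rfl⟩ := hx
  have ht' : t < l := by simpa using ht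
  obtain ⟨g, hg, hg0, hgf, _, _⟩ := rotate_cyc h hc ht'
  refine ⟨fun k => if k = 0 then y else g (k - 1), ⟨?_, ?_, ?_⟩⟩
  · intro i hi
    split_ifs with c
    · exact hy
    · exact hg.mem _ (by omega)
  · have hny : ∀ i < l, g i ≠ y := by
      intro i hi hgi
      obtain ⟨j, hj, hj2⟩ := hgf i hi
      apply hyX
      rw [hX, mem_image]
      exact ⟨j, by simpa using hj, by rw [← hj2, hgi]⟩
    intro i hi j hj hij
    split_ifs at hij with c1 c2 c2
    · omega
    · exact absurd hij.symm (hny _ (by omega))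
    · exact absurd hij (hny _ (by omega))
    · have := hg.inj _ (by omega) _ (by omega) hij
      omega
  · intro i hi
    rw [if_neg (show ¬ i + 1 = 0 by omega)]
    split_ifs with c
    · subst c
      simp only [zero_add, Nat.sub_self]
      rw [hg0]
      exact ha.symm
    · have := hg.adj (i - 1) (by omega)
      have e : i + 1 - 1 = i - 1 + 1 := by omega
      rw [e]; exact this

omit [Fintype V] [DecidableEq V] in
lemma pth_prefix {H : SimpleGraph V} {U : Finset V} {l l' : ℕ} {f : ℕ → V}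
    (h : Pth H U l f) (hl : l' ≤ l) : Pth H U l' f :=
  ⟨fun i hi => h.mem i (by omega), fun i hi j hj => h.inj i (by omega) j (by omega),
    fun i hi => h.adj i (by omega)⟩

lemma bst_of_ends {H : SimpleGraph V} {U SM : Finset V} {N l : ℕ} {f : ℕ → V}
    (hE : Expd H U SM N) (hnH : ¬ HamC H U)
    (h : Pth H U l f) (hl : 2 ≤ l) (hmax : ∀ g, ¬ Pth H U (l + 1) g) :
    s(f 0, f (l - 1)) ∈ Bst H U := by
  classical
  rw [mem_Bst]
  have hne : f 0 ≠ f (l - 1) := by
    intro hcon
    have := h.inj 0 (by omega) (l - 1) (by omega) hcon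
    omega
  set H' := H ⊔ SimpleGraph.fromEdgeSet {s(f 0, f (l - 1))} with hH'
  have hHH : H ≤ H' := le_sup_left
  have hcl : H'.Adj (f (l - 1)) (f 0) := by
    rw [hH', SimpleGraph.sup_adj, SimpleGraph.fromEdgeSet_adj]
    right
    exact ⟨by simp [Sym2.eq_swap], hne.symm⟩
  refine ⟨?_, ?_, ?_, ?_⟩
  · rw [Sym2.mk_isDiag_iff]; exact hne
  · rw [SimpleGraph.mem_edgeSet]
    intro hadj
    by_cases hlU : l = #U
    · subst hlU
      exact hnH ⟨f, h, hadj.symm⟩
    · obtain ⟨g, hg⟩ := longer_of_cycle hE.conn h (by omega) hlU hadj.symm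
      exact hmax g hg
  · intro v hv
    rw [Sym2.mem_iff] at hv
    rcases hv with rfl | rfl
    · exact h.mem _ (by omega)
    · exact h.mem _ (by omega)
  · by_cases hlU : l = #U
    · left
      subst hlU
      exact ⟨f, pth_mono hHH h, hcl⟩
    · right
      rintro l' ⟨f', hf'⟩
      have hle : l' ≤ l := by
        by_contra hc
        push Not at hc
        exact hmax f' (pth_prefix hf' (by omega))
      obtain ⟨g, hg⟩ := longer_of_cycle (hE.mono hHH).conn (pth_mono hHH h) (by omega) hlU hcl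
      exact ⟨g, pth_prefix hg (by omega)⟩

/-- Number of boosters. -/
theorem card_Bst {H : SimpleGraph V} {U SM : Finset V} {N : ℕ}
    (hE : Expd H U SM N)
    (hone : ∀ u v w, v ∈ SM → w ∈ SM → H.Adj u v → H.Adj u w → v = w)
    (hnH : ¬ HamC H U) (hU : 2 ≤ #U) :
    (N + 1) * (N + 1) ≤ 2 * #(Bst H U) := by
  classical
  -- a longest path
  have hbdd : ∃ l, (∃ f, Pth H U l f) ∧ ∀ g, ¬ Pth H U (l + 1) g := by
    have hfin : ∃ l, (∃ f, Pth H U l f) ∧ ¬ ∃ f, Pth H U (l + 1) f := by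
      by_contra hcon
      push Not at hcon
      have hall : ∀ l, ∃ f, Pth H U l f := by
        intro l
        induction l with
        | zero =>
          obtain ⟨u, hu⟩ : U.Nonempty := by rw [← card_pos]; omega
          exact ⟨fun _ => u, ⟨by intro i hi; omega, by intro i hi; omega, by intro i hi; omega⟩⟩
        | succ l ih => exact hcon l ih
      obtain ⟨f, hf⟩ := hall (#U + 1)
      have := hf.length_le
      omega
    obtain ⟨l, h1, h2⟩ := hfin
    exact ⟨l, h1, fun g hg => h2 ⟨g, hg⟩⟩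
  obtain ⟨l, ⟨f₀, h0⟩, hmax⟩ := hbdd
  -- the length is at least two
  obtain ⟨u, hu⟩ : U.Nonempty := by rw [← card_pos]; omega
  have hl2 : 2 ≤ l := by
    obtain ⟨x, hx, y, hy, hyX, ha⟩ := hE.conn {u} (by simpa using hu) (by simp) (by
      rintro rfl
      simp at hU)
    have hx' : x = u := by simpa using hx
    subst hx'
    by_contra hc
    have : Pth H U 2 (fun k => if k = 0 then x else y) := by
      refine ⟨?_, ?_, ?_⟩
      · intro i hi
        split_ifs
        · exact hu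
        · exact hy
      · intro i hi j hj hij
        have hne := ha.ne
        split_ifs at hij with c1 c2 c2
        · omega
        · exact absurd hij hne
        · exact absurd hij.symm hne
        · omega
      · intro i hi
        have : i = 0 := by omega
        subst this
        simpa using ha
    exact hmax _ (pth_prefix this (by omega))
  have hS0 := EndF_large hE hone h0 (by omega) hmax
  -- second end sets
  have hsec : ∀ x ∈ EndF H l f₀, ∃ Sx : Finset V, N < #Sx ∧ ∀ y ∈ Sx, s(x, y) ∈ Bst H U := by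
    intro x hx
    rw [mem_EndF] at hx
    obtain ⟨f, hf, rfl⟩ := hx
    have hp := pth_reverse (hf.pth h0)
    refine ⟨EndF H l (fun k => f (l - 1 - k)), EndF_large hE hone hp (by omega) hmax, ?_⟩
    intro y hy
    rw [mem_EndF] at hy
    obtain ⟨g, hg, rfl⟩ := hy
    have h3 := bst_of_ends hE hnH (hg.pth hp) hl2 hmax
    rw [hg.zero] at h3
    simpa using h3
  choose! Sx hSx1 hSx2 using hsec
  set P : Finset (V × V) := (EndF H l f₀).biUnion (fun x => (Sx x).image (fun y => (x, y))) with hP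
  have hPc : (N + 1) * (N + 1) ≤ #P := by
    rw [hP, card_biUnion]
    · have : ∀ x ∈ EndF H l f₀, N + 1 ≤ #((Sx x).image (fun y => (x, y))) := by
        intro x hx
        rw [card_image_of_injective _ (fun a b hab => (Prod.mk.inj hab).2)]
        exact hSx1 x hx
      calc (N + 1) * (N + 1) ≤ #(EndF H l f₀) * (N + 1) := Nat.mul_le_mul_right _ hS0
        _ = ∑ _x ∈ EndF H l f₀, (N + 1) := by rw [sum_const, smul_eq_mul]
        _ ≤ _ := Finset.sum_le_sum this
    · intro x _ x' _ hxx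
      rw [Function.onFun, Finset.disjoint_left]
      rintro ⟨a, b⟩ h1 h2
      simp only [mem_image, Prod.mk.injEq] at h1 h2
      obtain ⟨_, _, rfl, _⟩ := h1
      obtain ⟨_, _, h3, _⟩ := h2
      exact hxx h3.symm
  have himg : P.image (fun q => s(q.1, q.2)) ⊆ Bst H U := by
    intro e he
    rw [mem_image] at he
    obtain ⟨⟨a, b⟩, hab, rfl⟩ := he
    rw [hP, mem_biUnion] at hab
    obtain ⟨x, hx, hab⟩ := hab
    simp only [mem_image, Prod.mk.injEq] at hab
    obtain ⟨y, hy, rfl, rfl⟩ := hab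
    exact hSx2 _ hx _ hy
  have hfib : #P ≤ 2 * #(P.image (fun q => s(q.1, q.2))) := by
    refine Finset.card_le_mul_card_image _ _ ?_
    intro e _
    induction e with
    | h a b =>
      have : {q ∈ P | s(q.1, q.2) = s(a, b)} ⊆ {(a, b), (b, a)} := by
        rintro ⟨x, y⟩ hq
        rw [mem_filter] at hq
        have := hq.2
        simp only [Sym2.eq_iff] at this
        simp only [mem_insert, mem_singleton, Prod.mk.injEq]
        exact this
      exact (card_le_card this).trans card_le_two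
  exact hPc.trans (hfib.trans (Nat.mul_le_mul_left _ (card_le_card himg)))

/-- Adding boosters one at a time. -/
theorem hamC_of_boost {Γ₀ H : SimpleGraph V} {U : Finset V} (h0 : Γ₀ ≤ H)
    (hb : ∀ Γ, Γ₀ ≤ Γ → Γ ≤ H → #(ed Γ) ≤ #(ed Γ₀) + #U → ¬ HamC Γ U →
      ∃ e ∈ Bst Γ U, e ∈ H.edgeSet) (hU : U.Nonempty) : HamC H U := by
  classical
  by_contra hnot
  have hind : ∀ j, j ≤ #U + 1 → ∃ Γ, Γ₀ ≤ Γ ∧ Γ ≤ H ∧ #(ed Γ) ≤ #(ed Γ₀) + j ∧
      ∃ f, Pth Γ U j f := by
    intro j
    induction j with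
    | zero =>
      intro _
      obtain ⟨u, hu⟩ := hU
      exact ⟨Γ₀, le_rfl, h0, le_rfl, fun _ => u,
        ⟨by intro i hi; omega, by intro i hi; omega, by intro i hi; omega⟩⟩
    | succ j ih =>
      intro hj
      obtain ⟨Γ, h1, h2, h3, f, hf⟩ := ih (by omega)
      obtain ⟨e, he, heH⟩ := hb Γ h1 h2 (by omega) (fun hc => hnot (hc.mono h2))
      rw [mem_Bst] at he
      obtain ⟨he1, he2, he3, he4⟩ := he
      have hle : Γ ⊔ SimpleGraph.fromEdgeSet {e} ≤ H := by
        refine sup_le h2 ?_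
        intro x y hxy
        rw [SimpleGraph.fromEdgeSet_adj] at hxy
        have : s(x, y) = e := by simpa using hxy.1
        rw [← SimpleGraph.mem_edgeSet, this]; exact heH
      refine ⟨Γ ⊔ SimpleGraph.fromEdgeSet {e}, h1.trans le_sup_left, hle, ?_, ?_⟩
      · have : ed (Γ ⊔ SimpleGraph.fromEdgeSet {e}) ⊆ insert e (ed Γ) := by
          intro x hx
          rw [mem_ed, SimpleGraph.edgeSet_sup, SimpleGraph.edgeSet_fromEdgeSet] at hx
          rw [mem_insert, mem_ed]
          rcases hx with h | h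
          · exact Or.inr h
          · left
            simpa using h.1
        have := (card_le_card this).trans (card_insert_le _ _)
        omega
      · rcases he4 with h | h
        · exact absurd (h.mono hle) hnot
        · exact h j ⟨f, hf⟩
  obtain ⟨Γ, _, _, _, f, hf⟩ := hind (#U + 1) le_rfl
  have := hf.length_le
  omega

end finite

end Pool.Agent.H977.E6
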