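import Pool.Agent.H977.E6.Cases

/-! Probability bounds: patterns and upper tails. -/

open MeasureTheory ProbabilityTheory unitInterval Finset Filter Topology
open scoped SimpleGraph

namespace Pool.Agent.H977.E6

open Pool.Agent.V11328 Pool.Agent.V11328.E6

variable {V : Type*} [Fintype V] [DecidableEq V]

/-- Product formula with weights on edges and on non-edges. -/
lemma sum_prod2 (p : ℝ) (c c' : Sym2 V → ℝ) :
    ∑ G : SimpleGraph V, gw p G * ((∏ e ∈ ed G, c e) * ∏ e ∈ allE V \ ed G, c' e) =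
      ∏ e ∈ allE V, (p * c e + (1 - p) * c' e) := by
  classical
  rw [Finset.prod_add]
  have := sum_graph (V := V) (fun S => (p ^ (#S) * (1 - p) ^ (#(allE V \ S))) *
    ((∏ e ∈ S, c e) * ∏ e ∈ allE V \ S, c' e))
  simp only [gw]
  rw [this]
  refine Finset.sum_congr rfl fun S _ => ?_
  rw [Finset.prod_mul_distrib, Finset.prod_mul_distrib, Finset.prod_const, Finset.prod_const]
  ring

/-- Probability that `T` is present and few pairs of `Q` are present. -/
lemma pat (p : I) {T Q : Finset (Sym2 V)} (hT : T ⊆ allE V) (hQ : Q ⊆ allE V) {z : ℝ}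
    (hz0 : 0 < z) (hz1 : z ≤ 1) (s : ℕ) (A : Set (SimpleGraph V))
    (hA : ∀ G ∈ A, T ⊆ ed G ∧ #(ed G ∩ Q) ≤ s) :
    (G(V, p)).real A ≤ (p : ℝ) ^ (#T) * ((1 / z) ^ s *
      Real.exp (-((p : ℝ) * (1 - z) * #(Q \ T)))) := by
  classical
  have hp0 : (0 : ℝ) ≤ p := p.2.1
  have hp1 : (p : ℝ) ≤ 1 := p.2.2
  have hq0 : (0 : ℝ) ≤ 1 - p := by linarith
  set c : Sym2 V → ℝ := fun e => if e ∈ Q then z else 1 with hc
  set c' : Sym2 V → ℝ := fun e => if e ∈ T then 0 else 1 with hc'
  have hc0 : ∀ e, 0 ≤ c e := by intro e; simp only [hc]; split_ifs <;> linarith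
  have hc'0 : ∀ e, 0 ≤ c' e := by intro e; simp only [hc']; split_ifs <;> norm_num
  rw [real_event]
  have h1 : ∀ G ∈ univ.filter (fun G : SimpleGraph V => G ∈ A),
      gw (p : ℝ) G ≤ (1 / z) ^ s *
        (gw (p : ℝ) G * ((∏ e ∈ ed G, c e) * ∏ e ∈ allE V \ ed G, c' e)) := by
    intro G hG
    have hGA : G ∈ A := by simpa using hG
    obtain ⟨h2, h3⟩ := hA G hGA
    have h4 : ∏ e ∈ allE V \ ed G, c' e = 1 := by
      refine Finset.prod_eq_one fun e he => ?_
      simp only [hc']
      rw [if_neg]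
      intro heT
      exact (mem_sdiff.1 he).2 (h2 heT)
    have h5 : ∏ e ∈ ed G, c e = z ^ #(ed G ∩ Q) := by
      simp only [hc]
      rw [Finset.prod_ite, Finset.prod_const, Finset.prod_const_one, mul_one,
        Finset.filter_mem_eq_inter]
    rw [h4, h5, mul_one]
    have h6 : z ^ s ≤ z ^ #(ed G ∩ Q) := pow_le_pow_of_le_one hz0.le hz1 h3
    have h7 : 1 ≤ (1 / z) ^ s * z ^ #(ed G ∩ Q) := by
      calc (1 : ℝ) = (1 / z) ^ s * z ^ s := by
            rw [← mul_pow, one_div_mul_cancel hz0.ne', one_pow]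
        _ ≤ _ := mul_le_mul_of_nonneg_left h6 (by positivity)
    calc gw (p : ℝ) G = gw (p : ℝ) G * 1 := (mul_one _).symm
      _ ≤ gw (p : ℝ) G * ((1 / z) ^ s * z ^ #(ed G ∩ Q)) :=
          mul_le_mul_of_nonneg_left h7 (gw_nonneg hp0 hp1 G)
      _ = _ := by ring
  refine (Finset.sum_le_sum h1).trans ?_
  refine (Finset.sum_le_sum_of_subset_of_nonneg (Finset.filter_subset _ _)
    fun G _ _ => ?_).trans ?_
  · refine mul_nonneg (by positivity) (mul_nonneg (gw_nonneg hp0 hp1 G) (mul_nonneg ?_ ?_))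
    · exact Finset.prod_nonneg fun e _ => hc0 e
    · exact Finset.prod_nonneg fun e _ => hc'0 e
  · rw [← Finset.mul_sum, sum_prod2]
    have hexp : p * z + (1 - p) ≤ Real.exp (-((p : ℝ) * (1 - z))) := by
      have := Real.add_one_le_exp (-((p : ℝ) * (1 - z)))
      linarith
    have h8 : ∏ e ∈ allE V, ((p : ℝ) * c e + (1 - p) * c' e) ≤
        ∏ e ∈ allE V, ((if e ∈ T then (p : ℝ) else 1) *
          (if e ∈ Q \ T then Real.exp (-((p : ℝ) * (1 - z))) else 1)) := by
      refine Finset.prod_le_prod (fun e _ => ?_) (fun e _ => ?_)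
      · exact add_nonneg (mul_nonneg hp0 (hc0 e)) (mul_nonneg hq0 (hc'0 e))
      · simp only [hc, hc']
        by_cases h9 : e ∈ T
        · have hn : e ∉ Q \ T := fun h => (mem_sdiff.1 h).2 h9
          rw [if_pos h9, if_neg hn, if_pos h9, mul_zero, add_zero, mul_one]
          split_ifs
          · nlinarith
          · linarith
        · by_cases h10 : e ∈ Q
          · have hn : e ∈ Q \ T := mem_sdiff.2 ⟨h10, h9⟩
            rw [if_neg h9, if_pos hn, if_neg h9, if_pos h10, mul_one, one_mul]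
            exact hexp
          · have hn : e ∉ Q \ T := fun h => h10 (mem_sdiff.1 h).1
            rw [if_neg h9, if_neg hn, if_neg h9, if_neg h10, mul_one, mul_one, mul_one]
            linarith
    have h9 : ∏ e ∈ allE V, ((if e ∈ T then (p : ℝ) else 1) *
          (if e ∈ Q \ T then Real.exp (-((p : ℝ) * (1 - z))) else 1)) =
        (p : ℝ) ^ (#T) * Real.exp (-((p : ℝ) * (1 - z) * #(Q \ T))) := by
      rw [Finset.prod_mul_distrib, Finset.prod_ite, Finset.prod_ite]
      simp only [Finset.prod_const, Finset.prod_const_one, mul_one]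
      rw [Finset.filter_mem_eq_inter, Finset.filter_mem_eq_inter,
        Finset.inter_eq_right.2 hT, Finset.inter_eq_right.2 (sdiff_subset.trans hQ),
        ← Real.exp_nat_mul]
      simp only [one_pow, mul_one]
      congr 2
      ring
    rw [h9] at h8
    calc (1 / z) ^ s * ∏ e ∈ allE V, ((p : ℝ) * c e + (1 - p) * c' e)
        ≤ (1 / z) ^ s * ((p : ℝ) ^ (#T) * Real.exp (-((p : ℝ) * (1 - z) * #(Q \ T)))) :=
          mul_le_mul_of_nonneg_left h8 (by positivity)
      _ = _ := by ring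

/-- Upper tail with a free parameter. -/
lemma pat_up (p : I) {Q : Finset (Sym2 V)} (hQ : Q ⊆ allE V) {z : ℝ}
    (hz1 : 1 ≤ z) {s : ℝ} (A : Set (SimpleGraph V))
    (hA : ∀ G ∈ A, s ≤ #(ed G ∩ Q)) :
    (G(V, p)).real A ≤ Real.exp ((p : ℝ) * z * #Q - s * Real.log z) := by
  classical
  have hp0 : (0 : ℝ) ≤ p := p.2.1
  have hp1 : (p : ℝ) ≤ 1 := p.2.2
  have hz0 : (0 : ℝ) < z := by linarith
  have hlog : 0 ≤ Real.log z := Real.log_nonneg hz1
  rw [real_event]
  have h1 : ∀ G ∈ univ.filter (fun G : SimpleGraph V => G ∈ A),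
      gw (p : ℝ) G ≤ Real.exp (-(s * Real.log z)) *
        (gw (p : ℝ) G * ∏ e ∈ ed G, (if e ∈ Q then z else 1)) := by
    intro G hG
    have hGA : G ∈ A := by simpa using hG
    have h3 := hA G hGA
    have h5 : ∏ e ∈ ed G, (if e ∈ Q then z else 1) = Real.exp (#(ed G ∩ Q) * Real.log z) := by
      rw [Finset.prod_ite, Finset.prod_const, Finset.prod_const_one, mul_one,
        Finset.filter_mem_eq_inter, Real.exp_nat_mul, Real.exp_log hz0]
    rw [h5]
    have h7 : 1 ≤ Real.exp (-(s * Real.log z)) * Real.exp (#(ed G ∩ Q) * Real.log z) := by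
      rw [← Real.exp_add, Real.one_le_exp_iff]
      nlinarith
    calc gw (p : ℝ) G = gw (p : ℝ) G * 1 := (mul_one _).symm
      _ ≤ gw (p : ℝ) G * (Real.exp (-(s * Real.log z)) * Real.exp (#(ed G ∩ Q) * Real.log z)) :=
          mul_le_mul_of_nonneg_left h7 (gw_nonneg hp0 hp1 G)
      _ = _ := by ring
  refine (Finset.sum_le_sum h1).trans ?_
  refine (Finset.sum_le_sum_of_subset_of_nonneg (Finset.filter_subset _ _)
    fun G _ _ => ?_).trans ?_
  · refine mul_nonneg (Real.exp_pos _).le (mul_nonneg (gw_nonneg hp0 hp1 G) ?_)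
    exact Finset.prod_nonneg fun e _ => by split_ifs <;> linarith
  · rw [← Finset.mul_sum, sum_prod]
    have h8 : ∏ e ∈ allE V, ((p : ℝ) * (if e ∈ Q then z else 1) + (1 - p)) ≤
        ∏ e ∈ allE V, (if e ∈ Q then Real.exp ((p : ℝ) * z) else 1) := by
      refine Finset.prod_le_prod (fun e _ => ?_) (fun e _ => ?_)
      · have : (0 : ℝ) ≤ 1 - p := by linarith
        split_ifs <;> positivity
      · split_ifs
        · have := Real.add_one_le_exp ((p : ℝ) * z)
          linarith
        · linarith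
    have h9 : ∏ e ∈ allE V, (if e ∈ Q then Real.exp ((p : ℝ) * z) else 1) =
        Real.exp ((p : ℝ) * z * #Q) := by
      rw [Finset.prod_ite, Finset.prod_const, Finset.prod_const_one, mul_one,
        Finset.filter_mem_eq_inter, Finset.inter_eq_right.2 hQ, ← Real.exp_nat_mul]
      congr 1
      ring
    rw [h9] at h8
    calc Real.exp (-(s * Real.log z)) * ∏ e ∈ allE V, ((p : ℝ) * (if e ∈ Q then z else 1) + (1 - p))
        ≤ Real.exp (-(s * Real.log z)) * Real.exp ((p : ℝ) * z * #Q) :=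
          mul_le_mul_of_nonneg_left h8 (Real.exp_pos _).le
      _ = _ := by rw [← Real.exp_add]; congr 1; ring

end Pool.Agent.H977.E6
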