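import Pool.Agent.H977.E6.PrA

/-! Probability bound for the booster property. -/

open MeasureTheory ProbabilityTheory unitInterval Finset Filter Topology
open scoped SimpleGraph

namespace Pool.Agent.H977.E6

open Pool.Agent.V11328 Pool.Agent.V11328.E6

/-- Number of small subsets. -/
lemma card_small {α : Type*} [Fintype α] [DecidableEq α] (k : ℕ) :
    #(univ.filter (fun s : Finset α => #s ≤ k)) ≤ (Fintype.card α + 1) ^ k := by
  induction k with
  | zero =>
    have : univ.filter (fun s : Finset α => #s ≤ 0) ⊆ {∅} := by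
      intro s hs
      rw [mem_filter] at hs
      rw [mem_singleton, ← card_eq_zero]
      omega
    simpa using card_le_card this
  | succ k ih =>
    have hsub : univ.filter (fun s : Finset α => #s ≤ k + 1) ⊆
        ((univ : Finset (Option α)) ×ˢ univ.filter (fun s : Finset α => #s ≤ k)).image
          (fun q => q.1.elim q.2 (fun a => insert a q.2)) := by
      intro s hs
      rw [mem_filter] at hs
      rw [mem_image]
      obtain rfl | ⟨a, ha⟩ := s.eq_empty_or_nonempty
      · exact ⟨(none, ∅), by simp, rfl⟩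
      · refine ⟨(some a, s.erase a), ?_, ?_⟩
        · rw [mem_product, mem_filter]
          refine ⟨mem_univ _, mem_univ _, ?_⟩
          rw [card_erase_of_mem ha]
          omega
        · simp [insert_erase ha]
    refine (card_le_card hsub).trans (card_image_le.trans ?_)
    rw [card_product, card_univ, Fintype.card_option, pow_succ, mul_comm]
    exact Nat.mul_le_mul_right _ ih

variable {V : Type*} [Fintype V] [DecidableEq V]

lemma Bst_sub (T : Finset (Sym2 V)) (U : Finset V) :
    Bst (fG T) U ⊆ allE V ∧ Disjoint (Bst (fG T) U) T := by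
  constructor
  · intro e he
    rw [mem_Bst] at he
    rw [mem_allE]
    exact he.1
  · rw [Finset.disjoint_left]
    intro e he heT
    rw [mem_Bst] at he
    apply he.2.1
    rw [SimpleGraph.edgeSet_fromEdgeSet]
    exact ⟨heT, he.1⟩

lemma boost_prob (p : I) (K m₀ b f₀ : ℕ) {y : ℝ} (hy0 : 0 < y) (hy1 : y ≤ 1) :
    (G(V, p)).real {G : SimpleGraph V | ¬ Boost G K m₀ b f₀} ≤
      ((Fintype.card V + 1) ^ K * (Fintype.card (Sym2 V) + 1) ^ K) *
        (2 ^ f₀ * Real.exp (-((p : ℝ) / 2 * b)) * ((1 / y) ^ m₀ *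
          Real.exp ((p : ℝ) * y * #(allE V)))) := by
  classical
  have hp0 : (0 : ℝ) ≤ p := p.2.1
  set RS := univ.filter (fun s : Finset V => #s ≤ K) with hRS
  set AS := univ.filter (fun s : Finset (Sym2 V) => #s ≤ K) with hAS
  set TS := (allE V).powerset.filter (fun T => #T ≤ m₀) with hTS
  set Ev : Finset V × Finset (Sym2 V) × Finset (Sym2 V) → Set (SimpleGraph V) := fun q =>
    {G | q.2.2 ⊆ ed G ∧ b ≤ #(Bst (fG (q.2.2 ∪ q.2.1)) (univ \ q.1)) ∧
      #(Bst (fG (q.2.2 ∪ q.2.1)) (univ \ q.1) ∩ ed G) ≤ f₀} with hEv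
  have hsub : {G : SimpleGraph V | ¬ Boost G K m₀ b f₀} ⊆ ⋃ q ∈ RS ×ˢ (AS ×ˢ TS), Ev q := by
    intro G hG
    simp only [Boost, Set.mem_ofPred_eq, not_forall] at hG
    obtain ⟨U, A, T, h1, h2, h3, h4, h5, h6⟩ := hG
    simp only [Set.mem_iUnion]
    refine ⟨(univ \ U, A, T), ?_, h3, ?_, ?_⟩
    · rw [mem_product, mem_product, hRS, hAS, hTS, mem_filter, mem_filter, mem_filter, mem_powerset]
      exact ⟨⟨mem_univ _, h1⟩, ⟨mem_univ _, h2⟩, h3.trans (ed_subset G), h4⟩
    · have : univ \ (univ \ U) = U := by ext v; simp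
      simp only [this]
      exact h5
    · have : univ \ (univ \ U) = U := by ext v; simp
      simp only [this]
      omega
  have hev : ∀ q ∈ RS ×ˢ (AS ×ˢ TS), (G(V, p)).real (Ev q) ≤
      (p : ℝ) ^ (#q.2.2) * (2 ^ f₀ * Real.exp (-((p : ℝ) / 2 * b))) := by
    rintro ⟨R, A, T⟩ hq
    rw [mem_product, mem_product, hRS, hAS, hTS, mem_filter, mem_filter, mem_filter,
      mem_powerset] at hq
    obtain ⟨_, _, hTE, hTm⟩ := hq
    obtain ⟨hB1, hB2⟩ := Bst_sub (T ∪ A) (univ \ R)
    set B := Bst (fG (T ∪ A)) (univ \ R) with hB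
    by_cases hb : b ≤ #B
    · have h1 := pat p hTE hB1 (z := 1 / 2) (by norm_num) (by norm_num) f₀ (Ev (R, A, T)) (by
        intro G hG
        refine ⟨hG.1, ?_⟩
        have := hG.2.2
        rw [inter_comm]
        exact this)
      refine h1.trans ?_
      have h2 : B \ T = B := by
        rw [Finset.sdiff_eq_self_iff_disjoint]
        exact Finset.disjoint_of_subset_right subset_union_left hB2
      rw [h2]
      have h3 : (1 / (1 / 2 : ℝ)) ^ f₀ = 2 ^ f₀ := by norm_num
      rw [h3]
      refine mul_le_mul_of_nonneg_left ?_ (by positivity)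
      refine mul_le_mul_of_nonneg_left ?_ (by positivity)
      refine Real.exp_le_exp.2 ?_
      have h4 : (b : ℝ) ≤ #B := by exact_mod_cast hb
      have h5 : (p : ℝ) / 2 * b ≤ (p : ℝ) / 2 * #B := mul_le_mul_of_nonneg_left h4 (by positivity)
      have h6 : (p : ℝ) * (1 - 1 / 2) * #B = (p : ℝ) / 2 * #B := by ring
      linarith
    · have : Ev (R, A, T) = ∅ := by
        ext G
        simp only [hEv, Set.mem_ofPred_eq, Set.mem_empty_iff_false, iff_false]
        rintro ⟨_, h, _⟩
        exact hb h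
      rw [this, measureReal_empty]
      positivity
  refine (measureReal_mono hsub (measure_ne_top _ _)).trans ?_
  refine (measureReal_biUnion_finset_le _ _).trans ?_
  refine (Finset.sum_le_sum hev).trans ?_
  rw [Finset.sum_product]
  simp_rw [Finset.sum_product]
  simp only [Finset.sum_const, nsmul_eq_mul]
  rw [← mul_assoc]
  have hTSum : ∑ T ∈ TS, (p : ℝ) ^ (#T) * (2 ^ f₀ * Real.exp (-((p : ℝ) / 2 * b))) ≤
      2 ^ f₀ * Real.exp (-((p : ℝ) / 2 * b)) * ((1 / y) ^ m₀ *
          Real.exp ((p : ℝ) * y * #(allE V))) := by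
    rw [← Finset.sum_mul, mul_comm]
    refine mul_le_mul_of_nonneg_left ?_ (by positivity)
    have h1 : ∀ T ∈ TS, (p : ℝ) ^ (#T) ≤ (1 / y) ^ m₀ * ∏ _e ∈ T, ((p : ℝ) * y) := by
      intro T hT
      rw [hTS, mem_filter] at hT
      rw [Finset.prod_const, mul_pow]
      have h2 : 1 ≤ (1 / y) ^ m₀ * y ^ (#T) := by
        calc (1 : ℝ) = (1 / y) ^ m₀ * y ^ m₀ := by
              rw [← mul_pow, one_div_mul_cancel hy0.ne', one_pow]
          _ ≤ _ := mul_le_mul_of_nonneg_left (pow_le_pow_of_le_one hy0.le hy1 hT.2)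
              (by positivity)
      calc (p : ℝ) ^ (#T) = (p : ℝ) ^ (#T) * 1 := (mul_one _).symm
        _ ≤ (p : ℝ) ^ (#T) * ((1 / y) ^ m₀ * y ^ (#T)) :=
            mul_le_mul_of_nonneg_left h2 (by positivity)
        _ = _ := by ring
    refine (Finset.sum_le_sum h1).trans ?_
    rw [← Finset.mul_sum]
    refine mul_le_mul_of_nonneg_left ?_ (by positivity)
    have h3 : ∑ T ∈ TS, ∏ _e ∈ T, ((p : ℝ) * y) ≤
        ∑ T ∈ (allE V).powerset, ∏ _e ∈ T, ((p : ℝ) * y) := by
      refine Finset.sum_le_sum_of_subset_of_nonneg (Finset.filter_subset _ _) fun T _ _ => ?_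
      exact Finset.prod_nonneg fun _ _ => by positivity
    refine h3.trans ?_
    rw [← Finset.prod_one_add, Finset.prod_const]
    have h4 : 1 + (p : ℝ) * y ≤ Real.exp ((p : ℝ) * y) := by
      have := Real.add_one_le_exp ((p : ℝ) * y)
      linarith
    refine (pow_le_pow_left₀ (by positivity) h4 _).trans (le_of_eq ?_)
    rw [← Real.exp_nat_mul]
    congr 1
    ring
  refine mul_le_mul ?_ hTSum ?_ (by positivity)
  · have h1 : (#RS : ℝ) ≤ (Fintype.card V + 1) ^ K := by
      exact_mod_cast card_small (α := V) K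
    have h2 : (#AS : ℝ) ≤ (Fintype.card (Sym2 V) + 1) ^ K := by
      exact_mod_cast card_small (α := Sym2 V) K
    exact mul_le_mul h1 h2 (by positivity) (by positivity)
  · exact Finset.sum_nonneg fun T _ => by positivity

end Pool.Agent.H977.E6
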