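import Pool.Agent.H977.E6.PrB

/-! Probability bounds: sparsity, pairs, degrees. -/

open MeasureTheory ProbabilityTheory unitInterval Finset Filter Topology
open scoped SimpleGraph

namespace Pool.Agent.H977.E6

open Pool.Agent.V11328 Pool.Agent.V11328.E6

variable {V : Type*} [Fintype V] [DecidableEq V]

lemma sum_geom_le {r : ℝ} (h0 : 0 ≤ r) (h1 : r ≤ 1 / 2) (m : ℕ) :
    ∑ w ∈ Finset.Icc 1 m, r ^ w ≤ 2 * r := by
  have h : ∑ w ∈ Finset.Icc 1 m, r ^ w ≤ 2 * r * (1 - (1 / 2) ^ m) := by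
    induction m with
    | zero => simp
    | succ m ih =>
      rw [Finset.sum_Icc_succ_top (by omega)]
      have h2 : r ^ (m + 1) ≤ r * (1 / 2) ^ m := by
        rw [pow_succ, mul_comm]
        exact mul_le_mul_of_nonneg_left (pow_le_pow_left₀ h0 h1 m) h0
      have h3 : ((1 : ℝ) / 2) ^ (m + 1) = (1 / 2) ^ m * (1 / 2) := pow_succ _ _
      rw [h3]
      nlinarith
  refine h.trans ?_
  have : (0 : ℝ) ≤ (1 / 2) ^ m := by positivity
  nlinarith

lemma choose_exp {n w : ℕ} (hw : 1 ≤ w) (hwn : w ≤ n) :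
    (n.choose w : ℝ) ≤ Real.exp (w * (1 + Real.log (n / w))) := by
  have hwR : (1 : ℝ) ≤ w := by exact_mod_cast hw
  have hnR : (w : ℝ) ≤ n := by exact_mod_cast hwn
  have h1 : (n.choose w : ℝ) ≤ (n : ℝ) ^ w / (w.factorial : ℝ) := Nat.choose_le_pow_div w n
  have h2 : (w : ℝ) ^ w / (w.factorial : ℝ) ≤ Real.exp w :=
    Real.pow_div_factorial_le_exp (w : ℝ) (by linarith) w
  have h3 : (n : ℝ) ^ w / (w.factorial : ℝ) = (n / w) ^ w * ((w : ℝ) ^ w / (w.factorial : ℝ)) := by
    rw [div_pow]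
    have : ((w : ℝ) ^ w) ≠ 0 := by positivity
    field_simp
  rw [h3] at h1
  refine h1.trans ?_
  have h4 : ((n : ℝ) / w) ^ w = Real.exp (w * Real.log (n / w)) := by
    have hn0 : (0 : ℝ) < n := by linarith
    have hw0 : (0 : ℝ) < w := by linarith
    rw [Real.exp_nat_mul, Real.exp_log (by positivity)]
  have h5 : Real.exp (w * (1 + Real.log (n / w))) = Real.exp (w * Real.log (n / w)) * Real.exp w := by
    rw [← Real.exp_add]; congr 1; ring
  rw [h4, h5]
  exact mul_le_mul_of_nonneg_left h2 (Real.exp_pos _).le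

/-- Local sparsity fails with small probability. -/
lemma sparse_prob (p : I) {D c₅ w₁ : ℕ} {γ : ℝ} (hγ0 : 0 < γ) (hγ1 : γ ≤ 1) (hc : 0 < c₅)
    (hD : c₅ * (γ * (Fintype.card V * p)) ≤ D) (hx : 8 ≤ γ * (Fintype.card V * p))
    (hw : (w₁ : ℝ) ≤ γ ^ 2 / 8 * Fintype.card V) :
    (G(V, p)).real {G : SimpleGraph V | ∃ W : Finset V, W.Nonempty ∧ #W ≤ w₁ ∧
      D * #W ≤ c₅ * #(ed G ∩ W.sym2)} ≤ 2 * Real.exp (-(γ * (Fintype.card V * p) / 4)) := by
  classical
  set n : ℕ := Fintype.card V with hn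
  set x : ℝ := n * p with hxdef
  have hp0 : (0 : ℝ) ≤ p := p.2.1
  set Ev : Finset V → Set (SimpleGraph V) := fun W => {G | D * #W ≤ c₅ * #(ed G ∩ W.sym2)} with hEv
  have hsub : {G : SimpleGraph V | ∃ W : Finset V, W.Nonempty ∧ #W ≤ w₁ ∧
      D * #W ≤ c₅ * #(ed G ∩ W.sym2)} ⊆
      ⋃ w ∈ Finset.Icc 1 w₁, ⋃ W ∈ powersetCard w (univ : Finset V), Ev W := by
    rintro G ⟨W, h1, h2, h3⟩
    simp only [Set.mem_iUnion]
    refine ⟨#W, ?_, W, ?_, h3⟩
    · rw [Finset.mem_Icc]; exact ⟨h1.card_pos, h2⟩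
    · rw [mem_powersetCard]; exact ⟨subset_univ _, rfl⟩
  have hcR : (0 : ℝ) < c₅ := by exact_mod_cast hc
  have hx0 : 0 ≤ x := by positivity
  -- one set
  have hone : ∀ w ∈ Finset.Icc 1 w₁, ∀ W ∈ powersetCard w (univ : Finset V),
      (G(V, p)).real (Ev W) ≤ Real.exp (-(γ * x * w * (Real.log (γ * n / w) - 1))) := by
    intro w hw' W hW
    rw [Finset.mem_Icc] at hw'
    rw [mem_powersetCard] at hW
    have hw1 : (1 : ℝ) ≤ w := by exact_mod_cast hw'.1
    have hw2 : (w : ℝ) ≤ γ ^ 2 / 8 * n := le_trans (by exact_mod_cast hw'.2) hw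
    have hnpos : (0 : ℝ) < n := by
      by_contra hcon
      push Not at hcon
      have : γ ^ 2 / 8 * n ≤ 0 := mul_nonpos_of_nonneg_of_nonpos (by positivity) hcon
      linarith
    have hwn : (w : ℝ) ≤ γ * n := by
      have : γ ^ 2 / 8 * n ≤ γ * n := by
        refine mul_le_mul_of_nonneg_right ?_ hnpos.le
        nlinarith
      linarith
    have hz1 : 1 ≤ γ * n / w := by rw [one_le_div (by linarith)]; exact hwn
    have hlog : 0 ≤ Real.log (γ * n / w) := Real.log_nonneg hz1
    have h1 := pat_up p (Q := W.sym2 ∩ allE V) inter_subset_right (z := γ * n / w) hz1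
      (s := D * w / c₅) (Ev W) (by
      intro G hG
      have h2 : D * #W ≤ c₅ * #(ed G ∩ W.sym2) := hG
      have h3 : ed G ∩ (W.sym2 ∩ allE V) = ed G ∩ W.sym2 := by
        ext e
        simp only [mem_inter]
        exact ⟨fun h => ⟨h.1, h.2.1⟩, fun h => ⟨h.1, h.2, ed_subset G h.1⟩⟩
      rw [h3, div_le_iff₀ hcR]
      rw [hW.2] at h2
      have h4 : ((D * w : ℕ) : ℝ) ≤ ((c₅ * #(ed G ∩ W.sym2) : ℕ) : ℝ) := by exact_mod_cast h2
      push_cast at h4
      linarith)
    refine h1.trans (Real.exp_le_exp.2 ?_)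
    have h5 : (#(W.sym2 ∩ allE V) : ℝ) ≤ w ^ 2 := by
      have h6 : #(W.sym2 ∩ allE V) ≤ #W.sym2 := card_le_card inter_subset_left
      rw [Finset.card_sym2, hW.2] at h6
      have h7 : (w + 1).choose 2 ≤ w ^ 2 := by
        rw [Nat.choose_two_right]
        have : (w + 1) * (w + 1 - 1) / 2 ≤ (w + 1) * w / 2 := by simp
        refine this.trans ?_
        rw [Nat.div_le_iff_le_mul_add_pred (by norm_num)]
        have := hw'.1
        nlinarith
      exact_mod_cast h6.trans h7
    have h8 : (p : ℝ) * (γ * n / w) * #(W.sym2 ∩ allE V) ≤ γ * x * w := by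
      calc (p : ℝ) * (γ * n / w) * #(W.sym2 ∩ allE V) ≤ (p : ℝ) * (γ * n / w) * w ^ 2 :=
            mul_le_mul_of_nonneg_left h5 (by positivity)
        _ = γ * x * w := by rw [hxdef]; field_simp
    have h9 : γ * x * w * Real.log (γ * n / w) ≤ D * w / c₅ * Real.log (γ * n / w) := by
      refine mul_le_mul_of_nonneg_right ?_ hlog
      rw [le_div_iff₀ hcR]
      have : c₅ * (γ * x) * w ≤ D * w := mul_le_mul_of_nonneg_right hD (by linarith)
      linarith
    nlinarith
  refine (measureReal_mono hsub (measure_ne_top _ _)).trans ?_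
  refine (measureReal_biUnion_finset_le _ _).trans ?_
  have hw2 : ∀ w ∈ Finset.Icc 1 w₁, (G(V, p)).real (⋃ W ∈ powersetCard w (univ : Finset V), Ev W) ≤
      Real.exp (-(γ * x / 4)) ^ w := by
    intro w hw'
    refine (measureReal_biUnion_finset_le _ _).trans ?_
    refine (Finset.sum_le_sum (hone w hw')).trans ?_
    rw [Finset.sum_const, card_powersetCard, card_univ, nsmul_eq_mul]
    rw [Finset.mem_Icc] at hw'
    have hw1 : (1 : ℝ) ≤ w := by exact_mod_cast hw'.1
    have hw2 : (w : ℝ) ≤ γ ^ 2 / 8 * n := le_trans (by exact_mod_cast hw'.2) hw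
    have hnpos : (0 : ℝ) < n := by
      by_contra hcon
      push Not at hcon
      have : γ ^ 2 / 8 * n ≤ 0 := mul_nonpos_of_nonneg_of_nonpos (by positivity) hcon
      linarith
    have hwn : (w : ℝ) ≤ n := by
      have : γ ^ 2 / 8 * n ≤ 1 * n := by
        refine mul_le_mul_of_nonneg_right ?_ hnpos.le
        nlinarith
      linarith
    have hwn' : w ≤ n := by exact_mod_cast hwn
    have h1 := choose_exp hw'.1 hwn'
    set L := Real.log (n / w) with hL
    have hLlog : Real.log (γ * n / w) = Real.log γ + L := by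
      rw [mul_div_assoc, Real.log_mul hγ0.ne' (by positivity)]
    have hLlow : 2 * (1 - Real.log γ) ≤ L := by
      have h3 : Real.exp (2 * (1 - Real.log γ)) ≤ n / w := by
        have h4 : Real.exp (2 * (1 - Real.log γ)) = Real.exp 2 / γ ^ 2 := by
          rw [mul_sub, Real.exp_sub, mul_one]
          congr 1
          rw [mul_comm, Real.exp_mul, Real.exp_log hγ0]
          norm_num
        rw [h4]
        have h5 : Real.exp 2 ≤ 8 := by
          have h6 := Real.exp_one_lt_d9
          have h7 : Real.exp 2 = Real.exp 1 * Real.exp 1 := by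
            rw [← Real.exp_add]; norm_num
          have h8 := Real.exp_pos 1
          rw [h7]; nlinarith
        rw [div_le_div_iff₀ (by positivity) (by linarith)]
        calc Real.exp 2 * w ≤ 8 * w := mul_le_mul_of_nonneg_right h5 (by linarith)
          _ ≤ n * γ ^ 2 := by nlinarith
      rw [hL, Real.le_log_iff_exp_le (by positivity)]
      exact h3
    have hlogγ : Real.log γ ≤ 0 := Real.log_nonpos hγ0.le hγ1
    have hL1 : 1 ≤ L := by linarith
    calc (n.choose w : ℝ) * Real.exp (-(γ * x * w * (Real.log (γ * n / w) - 1)))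
        ≤ Real.exp (w * (1 + L)) * Real.exp (-(γ * x * w * (Real.log (γ * n / w) - 1))) :=
          mul_le_mul_of_nonneg_right h1 (Real.exp_pos _).le
      _ = Real.exp (w * (1 + L) - γ * x * w * (Real.log (γ * n / w) - 1)) := by
          rw [← Real.exp_add]; congr 1
      _ ≤ Real.exp (w * (-(γ * x / 4))) := by
          refine Real.exp_le_exp.2 ?_
          rw [hLlog]
          have h10 : L / 2 ≤ Real.log γ + L - 1 := by linarith
          have h11 : γ * x * w * (L / 2) ≤ γ * x * w * (Real.log γ + L - 1) :=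
            mul_le_mul_of_nonneg_left h10 (by positivity)
          have h12 : 1 + L ≤ γ * x * L / 4 := by nlinarith
          have h13 : γ * x / 4 ≤ γ * x * L / 4 := by nlinarith
          have h14 : 1 + L - γ * x * (L / 2) ≤ -(γ * x / 4) := by linarith
          have h15 : w * (1 + L - γ * x * (L / 2)) ≤ w * (-(γ * x / 4)) :=
            mul_le_mul_of_nonneg_left h14 (by linarith)
          nlinarith
      _ = Real.exp (-(γ * x / 4)) ^ w := by rw [← Real.exp_nat_mul]
  refine (Finset.sum_le_sum hw2).trans ?_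
  refine sum_geom_le (Real.exp_pos _).le ?_ w₁
  have h1 : Real.exp (-(γ * x / 4)) ≤ Real.exp (-1) := Real.exp_le_exp.2 (by linarith)
  refine h1.trans ?_
  rw [Real.exp_neg]
  have := Real.exp_one_gt_d9
  rw [inv_le_comm₀ (Real.exp_pos _) (by norm_num)]
  norm_num
  linarith

end Pool.Agent.H977.E6
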