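import Pool.Agent.H977.E6.PrC

/-! Probability bounds: pairs, degrees, patterns. -/

open MeasureTheory ProbabilityTheory unitInterval Finset Filter Topology
open scoped SimpleGraph

namespace Pool.Agent.H977.E6

open Pool.Agent.V11328 Pool.Agent.V11328.E6

variable {V : Type*} [Fintype V] [DecidableEq V]

lemma pairs_prob (p : I) (m : ℕ) :
    (G(V, p)).real (badPair (V := V) (p : ℝ) m) ≤
      4 ^ (Fintype.card V) * Real.exp (-((p : ℝ) * (m * m : ℕ) / 16)) := by
  classical
  set R := Real.exp (-((p : ℝ) * (m * m : ℕ) / 16)) with hR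
  set P := ((univ : Finset V).powerset) ×ˢ ((univ : Finset V).powerset) with hP
  have hsub : badPair (V := V) (p : ℝ) m ⊆ ⋃ q ∈ P,
      {G | Disjoint q.1 q.2 ∧ #q.1 = m ∧ #q.2 = m ∧
        (#(prs q.1 q.2 ∩ ed G) : ℝ) ≤ (1 - 1 / 2) * (p * (m * m : ℕ))} := by
    rintro G ⟨A, B, hd, hA, hB, h⟩
    simp only [Set.mem_iUnion]
    refine ⟨(A, B), ?_, hd, hA, hB, ?_⟩
    · rw [hP, mem_product, mem_powerset, mem_powerset]
      exact ⟨subset_univ _, subset_univ _⟩
    · rw [prs_inter]; exact h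
  refine (measureReal_mono hsub (measure_ne_top _ _)).trans ?_
  refine (measureReal_biUnion_finset_le _ _).trans ?_
  have : ∀ q ∈ P, (G(V, p)).real
      {G | Disjoint q.1 q.2 ∧ #q.1 = m ∧ #q.2 = m ∧
        (#(prs q.1 q.2 ∩ ed G) : ℝ) ≤ (1 - 1 / 2) * (p * (m * m : ℕ))} ≤ R := by
    rintro ⟨A, B⟩ _
    by_cases hd : Disjoint A B ∧ #A = m ∧ #B = m
    · have hc : #(prs A B) = m * m := by rw [prs_card hd.1, hd.2.1, hd.2.2]
      have h2 := chernoff_lower p (prs_subset hd.1) (η := 1 / 2) (by norm_num) (by norm_num)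
        {G | Disjoint A B ∧ #A = m ∧ #B = m ∧
          (#(prs A B ∩ ed G) : ℝ) ≤ (1 - 1 / 2) * (p * (m * m : ℕ))}
        (fun G hG => by rw [hc]; exact hG.2.2.2)
      rw [hc] at h2
      refine h2.trans (le_of_eq ?_)
      rw [hR]
      congr 1
      ring
    · have : {G : SimpleGraph V | Disjoint A B ∧ #A = m ∧ #B = m ∧
          (#(prs A B ∩ ed G) : ℝ) ≤ (1 - 1 / 2) * (p * (m * m : ℕ))} = ∅ := by
        ext G
        simp only [Set.mem_ofPred_eq, Set.mem_empty_iff_false, iff_false]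
        rintro ⟨h1, h2, h3, _⟩
        exact hd ⟨h1, h2, h3⟩
      simp only [this, measureReal_empty]
      exact (Real.exp_pos _).le
  refine (Finset.sum_le_sum this).trans ?_
  rw [Finset.sum_const, nsmul_eq_mul]
  refine mul_le_mul_of_nonneg_right ?_ (Real.exp_pos _).le
  rw [hP, card_product, card_powerset, card_univ, ← mul_pow]
  norm_num

/-- Large degrees are unlikely. -/
lemma maxdeg_prob (p : I) :
    (G(V, p)).real {G : SimpleGraph V | ∃ v, 10 * (Fintype.card V * (p : ℝ)) ≤ #(nb G v)} ≤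
      Fintype.card V * Real.exp (-(8 * (Fintype.card V * (p : ℝ)))) := by
  classical
  have hp0 : (0 : ℝ) ≤ p := p.2.1
  set x : ℝ := Fintype.card V * (p : ℝ) with hx
  have hsub : {G : SimpleGraph V | ∃ v, 10 * x ≤ #(nb G v)} ⊆ ⋃ v ∈ (univ : Finset V),
      {G | 10 * x ≤ #(nb G v)} := by
    rintro G ⟨v, hv⟩
    simp only [Set.mem_iUnion]
    exact ⟨v, mem_univ v, hv⟩
  refine (measureReal_mono hsub (measure_ne_top _ _)).trans ?_
  refine (measureReal_biUnion_finset_le _ _).trans ?_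
  have : ∀ v ∈ (univ : Finset V), (G(V, p)).real {G | 10 * x ≤ #(nb G v)} ≤
      Real.exp (-(8 * x)) := by
    intro v _
    refine (chernoff p (star_subset v) (s := 1) (a := 10 * x) (by simp) _ ?_).trans ?_
    · intro G hG
      rw [star_inter, one_mul]
      exact hG
    · refine Real.exp_le_exp.2 ?_
      rw [star_card]
      have h1 : ((Fintype.card V - 1 : ℕ) : ℝ) ≤ Fintype.card V := by
        exact_mod_cast Nat.sub_le _ _
      have h2 : (p : ℝ) * (Fintype.card V - 1 : ℕ) ≤ x := by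
        rw [hx, mul_comm]
        exact mul_le_mul_of_nonneg_right h1 hp0
      linarith
  refine (Finset.sum_le_sum this).trans ?_
  rw [Finset.sum_const, card_univ, nsmul_eq_mul]

/-- Degrees at most one are unlikely. -/
lemma mindeg_prob (p : I) (hx : 1 ≤ Fintype.card V * (p : ℝ)) :
    (G(V, p)).real {G : SimpleGraph V | ∃ v, #(nb G v) ≤ 1} ≤
      Real.exp 2 * (Fintype.card V * ((Fintype.card V * (p : ℝ)) *
        Real.exp (-(Fintype.card V * (p : ℝ))))) := by
  classical
  have hp0 : (0 : ℝ) ≤ p := p.2.1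
  have hp1 : (p : ℝ) ≤ 1 := p.2.2
  set x : ℝ := Fintype.card V * (p : ℝ) with hxd
  have hx0 : 0 < x := by linarith
  have hn1 : 1 ≤ Fintype.card V := by
    by_contra hcon
    have : Fintype.card V = 0 := by omega
    rw [hxd, this] at hx
    simp at hx
    linarith
  have hsub : {G : SimpleGraph V | ∃ v, #(nb G v) ≤ 1} ⊆ ⋃ v ∈ (univ : Finset V),
      {G | #(nb G v) ≤ 1} := by
    rintro G ⟨v, hv⟩
    simp only [Set.mem_iUnion]
    exact ⟨v, mem_univ v, hv⟩
  refine (measureReal_mono hsub (measure_ne_top _ _)).trans ?_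
  refine (measureReal_biUnion_finset_le _ _).trans ?_
  have : ∀ v ∈ (univ : Finset V), (G(V, p)).real {G | #(nb G v) ≤ 1} ≤
      Real.exp 2 * (x * Real.exp (-x)) := by
    intro v _
    refine (pat p (T := ∅) (Q := star v) (by simp) (star_subset v) (z := 1 / x) (by positivity)
      (by rw [div_le_one hx0]; exact hx) 1 _ ?_).trans ?_
    · intro G hG
      refine ⟨by simp, ?_⟩
      rw [inter_comm, star_inter]
      exact hG
    · rw [card_empty, pow_zero, one_mul, pow_one, one_div_one_div, sdiff_empty, star_card]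
      have h1 : ((Fintype.card V - 1 : ℕ) : ℝ) = Fintype.card V - 1 := by
        rw [Nat.cast_sub hn1]; simp
      rw [h1]
      have h2 : -((p : ℝ) * (1 - 1 / x) * (Fintype.card V - 1)) ≤ 2 - x := by
        have h3 : (p : ℝ) * (1 - 1 / x) * (Fintype.card V - 1) = x - p - 1 + p / x := by
          have : (p : ℝ) * (1 - 1 / x) * (Fintype.card V - 1) =
            x - p - x * (1 / x) + p / x := by rw [hxd]; ring
          rw [this, mul_one_div_cancel hx0.ne']
        rw [h3]
        have : 0 ≤ (p : ℝ) / x := by positivity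
        linarith
      calc x * Real.exp (-((p : ℝ) * (1 - 1 / x) * (Fintype.card V - 1)))
          ≤ x * Real.exp (2 - x) :=
            mul_le_mul_of_nonneg_left (Real.exp_le_exp.2 h2) hx0.le
        _ = Real.exp 2 * (x * Real.exp (-x)) := by
            rw [sub_eq_add_neg, Real.exp_add]; ring
  refine (Finset.sum_le_sum this).trans (le_of_eq ?_)
  rw [Finset.sum_const, card_univ, nsmul_eq_mul]
  ring

/-- Union bound for patterns. -/
lemma pat_union {ι : Type*} (p : I) (X : Finset ι) (T Q : ι → Finset (Sym2 V)) {j s m : ℕ}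
    (hT : ∀ i ∈ X, T i ⊆ allE V) (hQ : ∀ i ∈ X, Q i ⊆ allE V) (hTc : ∀ i ∈ X, #(T i) = j)
    (hQc : ∀ i ∈ X, m ≤ #(Q i \ T i) + 7) (A : Set (SimpleGraph V))
    (hA : ∀ G ∈ A, ∃ i ∈ X, T i ⊆ ed G ∧ #(ed G ∩ Q i) ≤ s) :
    (G(V, p)).real A ≤ #X * ((p : ℝ) ^ j * (10 ^ s *
      Real.exp (7 - (p : ℝ) * (9 / 10) * m))) := by
  classical
  have hp0 : (0 : ℝ) ≤ p := p.2.1
  have hp1 : (p : ℝ) ≤ 1 := p.2.2
  have hsub : A ⊆ ⋃ i ∈ X, {G | T i ⊆ ed G ∧ #(ed G ∩ Q i) ≤ s} := by
    intro G hG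
    obtain ⟨i, hi, h⟩ := hA G hG
    simp only [Set.mem_iUnion]
    exact ⟨i, hi, h⟩
  refine (measureReal_mono hsub (measure_ne_top _ _)).trans ?_
  refine (measureReal_biUnion_finset_le _ _).trans ?_
  have : ∀ i ∈ X, (G(V, p)).real {G | T i ⊆ ed G ∧ #(ed G ∩ Q i) ≤ s} ≤
      (p : ℝ) ^ j * (10 ^ s * Real.exp (7 - (p : ℝ) * (9 / 10) * m)) := by
    intro i hi
    refine (pat p (hT i hi) (hQ i hi) (z := 1 / 10) (by norm_num) (by norm_num) s _
      (fun G hG => hG)).trans ?_
    rw [hTc i hi, one_div_one_div]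
    refine mul_le_mul_of_nonneg_left ?_ (by positivity)
    refine mul_le_mul_of_nonneg_left ?_ (by positivity)
    refine Real.exp_le_exp.2 ?_
    have h1 : (m : ℝ) ≤ #(Q i \ T i) + 7 := by exact_mod_cast hQc i hi
    nlinarith
  refine (Finset.sum_le_sum this).trans (le_of_eq ?_)
  rw [Finset.sum_const, nsmul_eq_mul]

lemma inter_two_star {G : SimpleGraph V} {a : ℕ} {v v' : V} (h : v ∈ Sml G a)
    (h' : v' ∈ Sml G a) : #(ed G ∩ (star v ∪ star v')) ≤ 2 * a := by
  classical
  rw [mem_Sml] at h h'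
  have h1 : ed G ∩ (star v ∪ star v') ⊆ (star v ∩ ed G) ∪ (star v' ∩ ed G) := by
    intro e he
    simp only [mem_inter, mem_union] at he ⊢
    tauto
  have h2 := (card_le_card h1).trans (card_union_le _ _)
  rw [star_inter, star_inter] at h2
  omega

lemma inter_one_star {G : SimpleGraph V} {a : ℕ} {v : V} (h : v ∈ Sml G a) :
    #(ed G ∩ star v) ≤ a := by
  classical
  rw [mem_Sml] at h
  rw [inter_comm, star_inter]
  omega

lemma card_two_star {v v' : V} (h : v ≠ v') :
    2 * Fintype.card V ≤ #(star v ∪ star v') + 3 := by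
  classical
  have h1 := card_union_add_card_inter (star v) (star v')
  have h2 : star v ∩ star v' ⊆ {s(v, v')} := by
    intro e he
    rw [mem_inter] at he
    simp only [Pool.Agent.V11328.E6.star, mem_image, mem_erase, mem_univ, and_true] at he
    obtain ⟨⟨a, _, rfl⟩, b, _, hb⟩ := he
    rw [mem_singleton]
    rw [Sym2.eq_iff] at hb
    rcases hb with ⟨h3, _⟩ | ⟨h3, _⟩
    · exact absurd h3.symm h
    · rw [h3]
  have h3 := card_le_card h2
  rw [card_singleton] at h3
  rw [star_card, star_card] at h1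
  have : 1 ≤ Fintype.card V := Fintype.card_pos_iff.2 ⟨v⟩
  omega

lemma card_sdiff_ge (Q T : Finset (Sym2 V)) : #Q ≤ #(Q \ T) + #T := card_le_card_sdiff_add_card


/-- Patterns with distinct entries. -/
def tX1 (V : Type*) [Fintype V] [DecidableEq V] : Finset (V × V) :=
  univ.filter (fun q => q.1 ≠ q.2)
def tX2 (V : Type*) [Fintype V] [DecidableEq V] : Finset (V × V × V) :=
  univ.filter (fun q => q.1 ≠ q.2.1 ∧ q.1 ≠ q.2.2 ∧ q.2.1 ≠ q.2.2)
def tX3 (V : Type*) [Fintype V] [DecidableEq V] : Finset (V × V × V × V) :=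
  univ.filter (fun q => q.1 ≠ q.2.1 ∧ q.1 ≠ q.2.2.1 ∧ q.1 ≠ q.2.2.2 ∧ q.2.1 ≠ q.2.2.1 ∧
    q.2.1 ≠ q.2.2.2 ∧ q.2.2.1 ≠ q.2.2.2)
def tX4 (V : Type*) [Fintype V] [DecidableEq V] : Finset (V × V × V × V × V) :=
  univ.filter (fun q => q.1 ≠ q.2.1 ∧ q.1 ≠ q.2.2.1 ∧ q.1 ≠ q.2.2.2.1 ∧ q.1 ≠ q.2.2.2.2 ∧
    q.2.1 ≠ q.2.2.1 ∧ q.2.1 ≠ q.2.2.2.1 ∧ q.2.1 ≠ q.2.2.2.2 ∧
    q.2.2.1 ≠ q.2.2.2.1 ∧ q.2.2.1 ≠ q.2.2.2.2 ∧ q.2.2.2.1 ≠ q.2.2.2.2)

/-- The union of all bad patterns. -/
def badPat (a : ℕ) : Fin 6 → Set (SimpleGraph V)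
  | 0 => {G | ∃ q ∈ tX1 V, ({s(q.1, q.2)} : Finset (Sym2 V)) ⊆ ed G ∧
      #(ed G ∩ (star q.1 ∪ star q.2)) ≤ 2 * a}
  | 1 => {G | ∃ q ∈ tX2 V, ({s(q.1, q.2.1), s(q.2.1, q.2.2)} : Finset (Sym2 V)) ⊆ ed G ∧
      #(ed G ∩ (star q.1 ∪ star q.2.2)) ≤ 2 * a}
  | 2 => {G | ∃ q ∈ tX3 V, ({s(q.1, q.2.1), s(q.2.1, q.2.2.1), s(q.2.2.1, q.2.2.2)} :
      Finset (Sym2 V)) ⊆ ed G ∧ #(ed G ∩ (star q.1 ∪ star q.2.2.2)) ≤ 2 * a}
  | 3 => {G | ∃ q ∈ tX4 V, ({s(q.1, q.2.1), s(q.2.1, q.2.2.1), s(q.2.2.1, q.2.2.2.1),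
      s(q.2.2.2.1, q.2.2.2.2)} :
      Finset (Sym2 V)) ⊆ ed G ∧ #(ed G ∩ (star q.1 ∪ star q.2.2.2.2)) ≤ 2 * a}
  | 4 => {G | ∃ q ∈ tX2 V, ({s(q.1, q.2.1), s(q.2.1, q.2.2), s(q.2.2, q.1)} :
      Finset (Sym2 V)) ⊆ ed G ∧ #(ed G ∩ star q.1) ≤ a}
  | 5 => {G | ∃ q ∈ tX3 V, ({s(q.1, q.2.1), s(q.2.1, q.2.2.1), s(q.2.2.1, q.2.2.2),
      s(q.2.2.2, q.1)} : Finset (Sym2 V)) ⊆ ed G ∧ #(ed G ∩ star q.1) ≤ a}

lemma spread_of_not (a : ℕ) (G : SimpleGraph V) (h : ∀ i, G ∉ badPat a i) : Spread G a := by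
  classical
  have s1 : ∀ v v', v ∈ Sml G a → v' ∈ Sml G a → ¬ G.Adj v v' := by
    intro v v' hv hv' ha
    refine h 0 ⟨(v, v'), ?_, ?_, inter_two_star hv hv'⟩
    · simp only [tX1, mem_filter, mem_univ, true_and]; exact ha.ne
    · intro e he
      rw [mem_singleton] at he
      rw [mem_ed, he]; exact ha
  refine ⟨s1, ?_, ?_, ?_, ?_, ?_⟩
  · intro v w v' hv hv' h1 h2
    by_contra hne
    refine h 1 ⟨(v, w, v'), ?_, ?_, inter_two_star hv hv'⟩
    · simp only [tX2, mem_filter, mem_univ, true_and]; exact ⟨h1.ne, hne, h2.ne'⟩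
    · intro e he
      simp only [mem_insert, mem_singleton] at he
      rw [mem_ed]
      rcases he with rfl | rfl
      · exact h1
      · exact h2.symm
  · intro v w w' v' hv hv' hne h1 h2 h3
    have e1 : v ≠ w' := by rintro rfl; exact s1 _ _ hv hv' h3
    have e2 : w ≠ v' := by rintro rfl; exact s1 _ _ hv hv' h1
    refine h 2 ⟨(v, w, w', v'), ?_, ?_, inter_two_star hv hv'⟩
    · simp only [tX3, mem_filter, mem_univ, true_and]
      exact ⟨h1.ne, e1, hne, h2.ne, e2, h3.ne⟩
    · intro e he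
      simp only [mem_insert, mem_singleton] at he
      rw [mem_ed]
      rcases he with rfl | rfl | rfl
      · exact h1
      · exact h2
      · exact h3
  · intro v w u w' v' hv hv' hne huv huv' hww h1 h2 h3 h4
    have e1 : v ≠ w' := by rintro rfl; exact s1 _ _ hv hv' h4
    have e2 : w ≠ v' := by rintro rfl; exact s1 _ _ hv hv' h1
    refine h 3 ⟨(v, w, u, w', v'), ?_, ?_, inter_two_star hv hv'⟩
    · simp only [tX4, mem_filter, mem_univ, true_and]
      exact ⟨h1.ne, huv.symm, e1, hne, h2.ne, hww, e2, h3.ne, huv', h4.ne⟩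
    · intro e he
      simp only [mem_insert, mem_singleton] at he
      rw [mem_ed]
      rcases he with rfl | rfl | rfl | rfl
      · exact h1
      · exact h2
      · exact h3
      · exact h4
  · intro v w w' hv h1 h2 h3
    refine h 4 ⟨(v, w, w'), ?_, ?_, inter_one_star hv⟩
    · simp only [tX2, mem_filter, mem_univ, true_and]; exact ⟨h1.ne, h3.ne', h2.ne⟩
    · intro e he
      simp only [mem_insert, mem_singleton] at he
      rw [mem_ed]
      rcases he with rfl | rfl | rfl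
      · exact h1
      · exact h2
      · exact h3
  · intro v w u w' hv hww huv h1 h2 h3 h4
    refine h 5 ⟨(v, w, u, w'), ?_, ?_, inter_one_star hv⟩
    · simp only [tX3, mem_filter, mem_univ, true_and]
      exact ⟨h1.ne, huv.symm, h4.ne', h2.ne, hww, h3.ne⟩
    · intro e he
      simp only [mem_insert, mem_singleton] at he
      rw [mem_ed]
      rcases he with rfl | rfl | rfl | rfl
      · exact h1
      · exact h2
      · exact h3
      · exact h4

lemma ten_pow_le (a : ℕ) : (10 : ℝ) ^ a ≤ Real.exp (5 / 2 * a) := by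
  have h1 : (10 : ℝ) ≤ Real.exp (5 / 2) := by
    have h2 := Real.exp_one_gt_d9
    have h3 : Real.exp (5 / 2) * Real.exp (5 / 2) = Real.exp 1 ^ 5 := by
      rw [← Real.exp_add, ← Real.exp_nat_mul]; norm_num
    have h4 : (2.7182818283 : ℝ) ^ 5 ≤ Real.exp 1 ^ 5 :=
      pow_le_pow_left₀ (by norm_num) h2.le 5
    have h5 : (100 : ℝ) ≤ (2.7182818283 : ℝ) ^ 5 := by norm_num
    have h6 := Real.exp_pos (5 / 2)
    nlinarith
  calc (10 : ℝ) ^ a ≤ Real.exp (5 / 2) ^ a := pow_le_pow_left₀ (by norm_num) h1 a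
    _ = Real.exp (5 / 2 * a) := by rw [← Real.exp_nat_mul]; congr 1; ring

lemma two_bound {p : I} {a n j : ℕ} (hn : 1 ≤ n) (hx1 : 1 ≤ (n : ℝ) * p)
    (hlog : Real.log n ≤ n * p) (ha : 40 * (a : ℝ) ≤ n * p) (hj : j ≤ 4) :
    (n : ℝ) ^ (j + 1) * ((p : ℝ) ^ j * (10 ^ (2 * a) *
      Real.exp (7 - (p : ℝ) * (9 / 10) * (2 * n : ℕ)))) ≤
      ((n : ℝ) * p) ^ 4 * Real.exp (7 - (n : ℝ) * p / 2) := by
  have hp0 : (0 : ℝ) ≤ p := p.2.1
  set x : ℝ := (n : ℝ) * p with hx
  have hnR : (1 : ℝ) ≤ n := by exact_mod_cast hn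
  have h1 := ten_pow_le (2 * a)
  have h2 : (n : ℝ) ≤ Real.exp x := by
    rw [← Real.log_le_iff_le_exp (by linarith)]; exact hlog
  have h3 : (n : ℝ) ^ (j + 1) * ((p : ℝ) ^ j * (10 ^ (2 * a) *
      Real.exp (7 - (p : ℝ) * (9 / 10) * (2 * n : ℕ)))) =
      x ^ j * (n * (10 ^ (2 * a) * Real.exp (7 - (p : ℝ) * (9 / 10) * (2 * n : ℕ)))) := by
    rw [hx, mul_pow]; ring
  rw [h3]
  have h4 : x ^ j ≤ x ^ 4 := pow_le_pow_right₀ hx1 hj
  have h5 : (n : ℝ) * (10 ^ (2 * a) * Real.exp (7 - (p : ℝ) * (9 / 10) * (2 * n : ℕ))) ≤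
      Real.exp (7 - x / 2) := by
    calc (n : ℝ) * (10 ^ (2 * a) * Real.exp (7 - (p : ℝ) * (9 / 10) * (2 * n : ℕ)))
        ≤ Real.exp x * (Real.exp (5 / 2 * (2 * a : ℕ)) *
          Real.exp (7 - (p : ℝ) * (9 / 10) * (2 * n : ℕ))) := by
          refine mul_le_mul h2 ?_ (by positivity) (by positivity)
          exact mul_le_mul_of_nonneg_right h1 (by positivity)
      _ = Real.exp (x + (5 / 2 * (2 * a : ℕ) + (7 - (p : ℝ) * (9 / 10) * (2 * n : ℕ)))) := by
          rw [Real.exp_add, Real.exp_add]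
      _ ≤ Real.exp (7 - x / 2) := by
          refine Real.exp_le_exp.2 ?_
          push_cast
          have : (p : ℝ) * (9 / 10) * (2 * n) = 9 / 5 * x := by rw [hx]; ring
          rw [this]
          linarith
  exact mul_le_mul h4 h5 (by positivity) (by positivity)

lemma one_bound {p : I} {a n j : ℕ} (hn : 1 ≤ n) (hx1 : 1 ≤ (n : ℝ) * p)
    (ha : 40 * (a : ℝ) ≤ n * p) (hj : j ≤ 4) :
    (n : ℝ) ^ j * ((p : ℝ) ^ j * (10 ^ a *
      Real.exp (7 - (p : ℝ) * (9 / 10) * n))) ≤
      ((n : ℝ) * p) ^ 4 * Real.exp (7 - (n : ℝ) * p / 2) := by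
  have hp0 : (0 : ℝ) ≤ p := p.2.1
  set x : ℝ := (n : ℝ) * p with hx
  have hnR : (1 : ℝ) ≤ n := by exact_mod_cast hn
  have h1 := ten_pow_le a
  have h3 : (n : ℝ) ^ j * ((p : ℝ) ^ j * (10 ^ a *
      Real.exp (7 - (p : ℝ) * (9 / 10) * n))) =
      x ^ j * (10 ^ a * Real.exp (7 - (p : ℝ) * (9 / 10) * n)) := by
    rw [hx, mul_pow]; ring
  rw [h3]
  have h4 : x ^ j ≤ x ^ 4 := pow_le_pow_right₀ hx1 hj
  have h5 : (10 ^ a * Real.exp (7 - (p : ℝ) * (9 / 10) * n)) ≤
      Real.exp (7 - x / 2) := by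
    calc (10 ^ a * Real.exp (7 - (p : ℝ) * (9 / 10) * n))
        ≤ (Real.exp (5 / 2 * a) *
          Real.exp (7 - (p : ℝ) * (9 / 10) * n)) := by
          exact mul_le_mul_of_nonneg_right h1 (by positivity)
      _ = Real.exp (5 / 2 * a + (7 - (p : ℝ) * (9 / 10) * n)) := by
          rw [Real.exp_add]
      _ ≤ Real.exp (7 - x / 2) := by
          refine Real.exp_le_exp.2 ?_
          have : (p : ℝ) * (9 / 10) * n = 9 / 10 * x := by rw [hx]; ring
          rw [this]
          linarith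
  exact mul_le_mul h4 h5 (by positivity) (by positivity)

lemma pair_mem_allE {x y : V} (h : x ≠ y) : s(x, y) ∈ allE V := by
  rw [mem_allE, Sym2.mk_isDiag_iff]; exact h

lemma badPat_prob (p : I) {a : ℕ} (hx1 : 1 ≤ (Fintype.card V : ℝ) * p)
    (hlog : Real.log (Fintype.card V) ≤ Fintype.card V * p)
    (ha : 40 * (a : ℝ) ≤ Fintype.card V * p) (i : Fin 6) :
    (G(V, p)).real (badPat (V := V) a i) ≤
      ((Fintype.card V : ℝ) * p) ^ 4 * Real.exp (7 - (Fintype.card V : ℝ) * p / 2) := by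
  classical
  have hp0 : (0 : ℝ) ≤ p := p.2.1
  set n := Fintype.card V with hn
  have hn1 : 1 ≤ n := by
    by_contra hcon
    have : n = 0 := by omega
    rw [this] at hx1
    simp at hx1
    linarith
  have hc2 : ∀ {v v' : V}, v ≠ v' → ∀ T : Finset (Sym2 V), #T ≤ 4 →
      2 * n ≤ #((star v ∪ star v') \ T) + 7 := by
    intro v v' hv T hT
    have h1 := card_two_star hv
    have h2 := card_sdiff_ge (star v ∪ star v') T
    omega
  have hc1 : ∀ (v : V), ∀ T : Finset (Sym2 V), #T ≤ 4 → n ≤ #(star v \ T) + 7 := by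
    intro v T hT
    have h1 : #(star v) = n - 1 := star_card v
    have h2 := card_sdiff_ge (star v) T
    omega
  have hst : ∀ v v' : V, star v ∪ star v' ⊆ allE V := fun v v' =>
    union_subset (star_subset v) (star_subset v')
  fin_cases i
  · refine (pat_union p (tX1 V) (fun q => {s(q.1, q.2)}) (fun q => star q.1 ∪ star q.2)
      (j := 1) (s := 2 * a) (m := 2 * n) ?_ (fun q _ => hst _ _) ?_ ?_ _
      (fun G hG => hG)).trans ?_
    · intro q hq
      simp only [tX1, mem_filter, mem_univ, true_and] at hq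
      simpa using pair_mem_allE hq
    · intro q _; simp
    · intro q hq
      simp only [tX1, mem_filter, mem_univ, true_and] at hq
      exact hc2 hq _ (by simp)
    · refine le_trans ?_ (two_bound (j := 1) hn1 hx1 hlog ha (by norm_num))
      refine mul_le_mul_of_nonneg_right ?_ (by positivity)
      have : #(tX1 V) ≤ n ^ 2 := by
        refine (card_filter_le _ _).trans ?_
        rw [card_univ, Fintype.card_prod]; exact le_of_eq (by ring)
      exact_mod_cast this
  · refine (pat_union p (tX2 V) (fun q => {s(q.1, q.2.1), s(q.2.1, q.2.2)})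
      (fun q => star q.1 ∪ star q.2.2)
      (j := 2) (s := 2 * a) (m := 2 * n) ?_ (fun q _ => hst _ _) ?_ ?_ _
      (fun G hG => hG)).trans ?_
    · intro q hq
      simp only [tX2, mem_filter, mem_univ, true_and] at hq
      simp [insert_subset_iff, pair_mem_allE hq.1, pair_mem_allE hq.2.2]
    · intro q hq
      simp only [tX2, mem_filter, mem_univ, true_and] at hq
      obtain ⟨h1, h2, h3⟩ := hq
      rw [card_pair]
      simp only [ne_eq, Sym2.eq_iff]
      tauto
    · intro q hq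
      simp only [tX2, mem_filter, mem_univ, true_and] at hq
      exact hc2 hq.2.1 _ (card_le_two.trans (by norm_num))
    · refine le_trans ?_ (two_bound (j := 2) hn1 hx1 hlog ha (by norm_num))
      refine mul_le_mul_of_nonneg_right ?_ (by positivity)
      have : #(tX2 V) ≤ n ^ 3 := by
        refine (card_filter_le _ _).trans ?_
        rw [card_univ, Fintype.card_prod, Fintype.card_prod]; exact le_of_eq (by ring)
      exact_mod_cast this
  · refine (pat_union p (tX3 V) (fun q => {s(q.1, q.2.1), s(q.2.1, q.2.2.1), s(q.2.2.1, q.2.2.2)})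
      (fun q => star q.1 ∪ star q.2.2.2)
      (j := 3) (s := 2 * a) (m := 2 * n) ?_ (fun q _ => hst _ _) ?_ ?_ _
      (fun G hG => hG)).trans ?_
    · intro q hq
      simp only [tX3, mem_filter, mem_univ, true_and] at hq
      obtain ⟨h1, h2, h3, h4, h5, h6⟩ := hq
      simp [insert_subset_iff, pair_mem_allE h1, pair_mem_allE h4, pair_mem_allE h6]
    · intro q hq
      simp only [tX3, mem_filter, mem_univ, true_and] at hq
      obtain ⟨h1, h2, h3, h4, h5, h6⟩ := hq
      rw [card_insert_of_notMem, card_pair]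
      · simp only [ne_eq, Sym2.eq_iff]; tauto
      · simp only [mem_insert, mem_singleton, Sym2.eq_iff]; tauto
    · intro q hq
      simp only [tX3, mem_filter, mem_univ, true_and] at hq
      exact hc2 hq.2.2.1 _ (card_le_three.trans (by norm_num))
    · refine le_trans ?_ (two_bound (j := 3) hn1 hx1 hlog ha (by norm_num))
      refine mul_le_mul_of_nonneg_right ?_ (by positivity)
      have : #(tX3 V) ≤ n ^ 4 := by
        refine (card_filter_le _ _).trans ?_
        rw [card_univ, Fintype.card_prod, Fintype.card_prod, Fintype.card_prod]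
        exact le_of_eq (by ring)
      exact_mod_cast this
  · refine (pat_union p (tX4 V) (fun q => {s(q.1, q.2.1), s(q.2.1, q.2.2.1), s(q.2.2.1, q.2.2.2.1),
      s(q.2.2.2.1, q.2.2.2.2)})
      (fun q => star q.1 ∪ star q.2.2.2.2)
      (j := 4) (s := 2 * a) (m := 2 * n) ?_ (fun q _ => hst _ _) ?_ ?_ _
      (fun G hG => hG)).trans ?_
    · intro q hq
      simp only [tX4, mem_filter, mem_univ, true_and] at hq
      obtain ⟨h1, h2, h3, h4, h5, h6, h7, h8, h9, h10⟩ := hq
      simp [insert_subset_iff, pair_mem_allE h1, pair_mem_allE h5, pair_mem_allE h8,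
        pair_mem_allE h10]
    · intro q hq
      simp only [tX4, mem_filter, mem_univ, true_and] at hq
      obtain ⟨h1, h2, h3, h4, h5, h6, h7, h8, h9, h10⟩ := hq
      rw [card_insert_of_notMem, card_insert_of_notMem, card_pair]
      · simp only [ne_eq, Sym2.eq_iff]; tauto
      · simp only [mem_insert, mem_singleton, Sym2.eq_iff]; tauto
      · simp only [mem_insert, mem_singleton, Sym2.eq_iff]; tauto
    · intro q hq
      simp only [tX4, mem_filter, mem_univ, true_and] at hq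
      exact hc2 hq.2.2.2.1 _ (card_le_four)
    · refine le_trans ?_ (two_bound (j := 4) hn1 hx1 hlog ha (by norm_num))
      refine mul_le_mul_of_nonneg_right ?_ (by positivity)
      have : #(tX4 V) ≤ n ^ 5 := by
        refine (card_filter_le _ _).trans ?_
        rw [card_univ, Fintype.card_prod, Fintype.card_prod, Fintype.card_prod, Fintype.card_prod]
        exact le_of_eq (by ring)
      exact_mod_cast this
  · refine (pat_union p (tX2 V) (fun q => {s(q.1, q.2.1), s(q.2.1, q.2.2), s(q.2.2, q.1)})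
      (fun q => star q.1)
      (j := 3) (s := a) (m := n) ?_ (fun q _ => star_subset _) ?_ ?_ _
      (fun G hG => hG)).trans ?_
    · intro q hq
      simp only [tX2, mem_filter, mem_univ, true_and] at hq
      obtain ⟨h1, h2, h3⟩ := hq
      simp [insert_subset_iff, pair_mem_allE h1, pair_mem_allE h3, pair_mem_allE (Ne.symm h2)]
    · intro q hq
      simp only [tX2, mem_filter, mem_univ, true_and] at hq
      obtain ⟨h1, h2, h3⟩ := hq
      rw [card_insert_of_notMem, card_pair]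
      · simp only [ne_eq, Sym2.eq_iff]; tauto
      · simp only [mem_insert, mem_singleton, Sym2.eq_iff]; tauto
    · intro q _
      exact hc1 _ _ (card_le_three.trans (by norm_num))
    · refine le_trans ?_ (one_bound (j := 3) hn1 hx1 ha (by norm_num))
      refine mul_le_mul_of_nonneg_right ?_ (by positivity)
      have : #(tX2 V) ≤ n ^ 3 := by
        refine (card_filter_le _ _).trans ?_
        rw [card_univ, Fintype.card_prod, Fintype.card_prod]; exact le_of_eq (by ring)
      exact_mod_cast this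
  · refine (pat_union p (tX3 V) (fun q => {s(q.1, q.2.1), s(q.2.1, q.2.2.1), s(q.2.2.1, q.2.2.2),
      s(q.2.2.2, q.1)})
      (fun q => star q.1)
      (j := 4) (s := a) (m := n) ?_ (fun q _ => star_subset _) ?_ ?_ _
      (fun G hG => hG)).trans ?_
    · intro q hq
      simp only [tX3, mem_filter, mem_univ, true_and] at hq
      obtain ⟨h1, h2, h3, h4, h5, h6⟩ := hq
      simp [insert_subset_iff, pair_mem_allE h1, pair_mem_allE h4, pair_mem_allE h6,
        pair_mem_allE (Ne.symm h3)]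
    · intro q hq
      simp only [tX3, mem_filter, mem_univ, true_and] at hq
      obtain ⟨h1, h2, h3, h4, h5, h6⟩ := hq
      rw [card_insert_of_notMem, card_insert_of_notMem, card_pair]
      · simp only [ne_eq, Sym2.eq_iff]; tauto
      · simp only [mem_insert, mem_singleton, Sym2.eq_iff]; tauto
      · simp only [mem_insert, mem_singleton, Sym2.eq_iff]; tauto
    · intro q _
      exact hc1 _ _ (card_le_four)
    · refine le_trans ?_ (one_bound (j := 4) hn1 hx1 ha (by norm_num))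
      refine mul_le_mul_of_nonneg_right ?_ (by positivity)
      have : #(tX3 V) ≤ n ^ 4 := by
        refine (card_filter_le _ _).trans ?_
        rw [card_univ, Fintype.card_prod, Fintype.card_prod, Fintype.card_prod]
        exact le_of_eq (by ring)
      exact_mod_cast this

end Pool.Agent.H977.E6
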