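import Pool.Agent.H977.E6.PrD
import Pool.Agent.H977.E6.Gap

/-! Choice of constants. -/

open MeasureTheory ProbabilityTheory unitInterval Finset Filter Topology
open scoped SimpleGraph

namespace Pool.Agent.H977.E6.Q

open Pool.Agent.H977.E6 Pool.Agent.V11328 Pool.Agent.V11328.E6

/-- constants -/
noncomputable def cM (k : ℕ) : ℕ := 640 * k * k
noncomputable def c5 (k : ℕ) : ℕ := 2 * (5 + 2 * (2 * k))
noncomputable def cg (k : ℕ) : ℝ := 1 / (2 * cM k * c5 k)
noncomputable def ct (k : ℕ) : ℝ := (cg k) ^ 2 / (8 * (5 + 2 * (2 * k)))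
noncomputable def cC (k : ℕ) : ℕ := ⌈320 / (ct k) ^ 2⌉₊
noncomputable def vD (k : ℕ) (x : ℝ) : ℕ := ⌊x / cM k⌋₊
noncomputable def vth (k : ℕ) (x : ℝ) : ℕ := 16 * k * k * vD k x
noncomputable def vt (k n : ℕ) : ℕ := ⌊ct k * n⌋₊
noncomputable def vq (k n : ℕ) (p : ℝ) : ℕ := ⌊p * ((vt k n * vt k n : ℕ) : ℝ) / 4⌋₊
noncomputable def vf (k : ℕ) (x : ℝ) : ℕ := ⌊10 * k * x⌋₊
noncomputable def vm (n : ℕ) (x : ℝ) : ℕ := ⌊n * x / 1000⌋₊
def vb (n : ℕ) : ℕ := n * n / 32

lemma cM_ge {k : ℕ} (hk : 2 ≤ k) : 2000 ≤ cM k := by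
  unfold cM
  have h2 : 2 * 2 ≤ k * k := Nat.mul_le_mul hk hk
  have h3 : 640 * k * k = 640 * (k * k) := by ring
  omega

lemma c5_pos (k : ℕ) : 0 < c5 k := by unfold c5; omega

lemma cg_pos {k : ℕ} (hk : 2 ≤ k) : 0 < cg k := by
  have h1 : (0 : ℝ) < cM k := by exact_mod_cast (show 0 < cM k by have := cM_ge hk; omega)
  have h2 : (0 : ℝ) < c5 k := by exact_mod_cast c5_pos k
  unfold cg
  positivity

lemma cg_le {k : ℕ} (hk : 2 ≤ k) : cg k ≤ 1 := by
  have h1 : (2000 : ℝ) ≤ cM k := by exact_mod_cast cM_ge hk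
  have h2 : (1 : ℝ) ≤ c5 k := by exact_mod_cast c5_pos k
  unfold cg
  rw [div_le_one (by positivity)]
  nlinarith

lemma ct_pos {k : ℕ} (hk : 2 ≤ k) : 0 < ct k := by
  have := cg_pos hk
  unfold ct
  positivity

lemma ct_le {k : ℕ} (hk : 2 ≤ k) : ct k ≤ 1 / 8 := by
  have h1 := cg_pos hk
  have h2 := cg_le hk
  have h4 : (0 : ℝ) ≤ k := Nat.cast_nonneg k
  unfold ct
  rw [div_le_div_iff₀ (by positivity) (by norm_num)]
  nlinarith

/-- Bad event. -/
def Bad (k n : ℕ) (p : I) : Set (SimpleGraph (Fin n)) :=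
  {G | ¬ Boost G k (vm n (n * p)) (vb n) (vf k (n * p))} ∪
  {G | ∃ W : Finset (Fin n), W.Nonempty ∧ #W ≤ (5 + 2 * (2 * k)) * vt k n ∧
      vD k (n * p) * #W ≤ c5 k * #(ed G ∩ W.sym2)} ∪
  badPair (V := Fin n) (p : ℝ) (vt k n) ∪
  {G | ∃ v, 10 * (n * (p : ℝ)) ≤ #(nb G v)} ∪
  {G | ∃ v, #(nb G v) ≤ 1} ∪
  ⋃ i : Fin 6, badPat (V := Fin n) (vth k (n * p)) i

/-- Largeness conditions. -/
structure Lg (k n : ℕ) (x : ℝ) : Prop where
  a1 : 32 * cM k * k ≤ x
  a2 : 8 ≤ cg k * x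
  a3 : 2 / ct k ≤ n
  a4 : 160 * k / ct k ^ 2 ≤ n
  a5 : (8 * k + 8 : ℕ) ≤ n
  a6 : 2000 * (2 * (cC k : ℝ) + 3) ≤ x
  a7 : 200 / ct k ^ 2 ≤ x
  a8 : 20000 * (k : ℝ) ≤ n
  a9 : Real.log n ≤ x

lemma Lg.xpos {k n : ℕ} {x : ℝ} (h : Lg k n x) : 6000 ≤ x := by
  have := h.a6
  have h2 : (0 : ℝ) ≤ cC k := Nat.cast_nonneg _
  linarith

/-- Outside the bad event the formula holds. -/
theorem fk_of_not_bad {k n : ℕ} (hk : 2 ≤ k) {p : I} (hL : Lg k n (n * p))
    {G : SimpleGraph (Fin n)} (hG : G ∉ Bad k n p) :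
    ∀ k', 2 ≤ k' → k' ≤ k → fk k' G = (minTouch k' G : ℕ∞) := by
  classical
  set x : ℝ := n * p with hx
  have hx6 := hL.xpos
  have hkR : (2 : ℝ) ≤ k := by exact_mod_cast hk
  have hp0 : (0 : ℝ) ≤ p := p.2.1
  have hp1 : (p : ℝ) ≤ 1 := p.2.2
  have hMR : (2000 : ℝ) ≤ cM k := by exact_mod_cast cM_ge hk
  have hτ := ct_pos hk
  have hτ8 := ct_le hk
  have hn0 : (0 : ℝ) ≤ n := Nat.cast_nonneg n
  have hnR : (20000 : ℝ) * k ≤ n := hL.a8
  have hxn : x ≤ n := by
    rw [hx]; exact mul_le_of_le_one_right hn0 hp1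
  simp only [Bad, Set.mem_union, not_or, Set.mem_ofPred_eq, not_not, not_exists, not_and, not_le,
    Set.mem_iUnion] at hG
  obtain ⟨⟨⟨⟨⟨hboost, hsparse⟩, hpair⟩, hmax⟩, hmin⟩, hpat⟩ := hG
  set D := vD k x with hDdef
  have hD1 : (D : ℝ) ≤ x / cM k := Nat.floor_le (by positivity)
  have hD2 : x / cM k - 1 < D := Nat.sub_one_lt_floor _
  have hD3 : x / (2 * cM k) ≤ D := by
    have h1 : 1 ≤ x / (2 * cM k) := by
      rw [one_le_div (by positivity)]
      have := hL.a1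
      nlinarith
    have h2 : x / cM k = x / (2 * cM k) + x / (2 * cM k) := by field_simp; ring
    linarith
  have hD4 : (16 * k : ℝ) ≤ D := by
    refine le_trans ?_ hD3
    rw [le_div_iff₀ (by positivity)]
    have := hL.a1
    nlinarith
  have hD4' : 16 * k ≤ D := by exact_mod_cast hD4
  set t := vt k n with htdef
  have ht1 : (t : ℝ) ≤ ct k * n := Nat.floor_le (by positivity)
  have ht2 : ct k * n / 2 ≤ t := by
    have h1 : ct k * n - 1 < t := Nat.sub_one_lt_floor _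
    have h2 := hL.a3
    rw [div_le_iff₀ hτ] at h2
    linarith
  -- the product
  set P : ℝ := (p : ℝ) * ((t * t : ℕ) : ℝ) with hP
  have hP1 : ct k ^ 2 * n * x / 4 ≤ P := by
    rw [hP]
    push_cast
    have h1 : (ct k * n / 2) * (ct k * n / 2) ≤ (t : ℝ) * t :=
      mul_le_mul ht2 ht2 (by positivity) (by positivity)
    have h2 := mul_le_mul_of_nonneg_left h1 hp0
    have h3 : (p : ℝ) * ((ct k * n / 2) * (ct k * n / 2)) = ct k ^ 2 * n * x / 4 := by
      rw [hx]; ring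
    linarith
  have hnx : 320 ≤ ct k ^ 2 * n * x := by
    have h1 := hL.a4
    rw [div_le_iff₀ (by positivity)] at h1
    nlinarith
  set q := vq k n p with hqdef
  have hq1 : (q : ℝ) ≤ P / 4 := Nat.floor_le (by positivity)
  have hq2 : P / 4 - 1 < q := Nat.sub_one_lt_floor _
  have hq3 : ct k ^ 2 * n * x / 32 ≤ q := by linarith
  set f₀ := vf k x with hfdef
  have hf1 : (f₀ : ℝ) ≤ 10 * k * x := Nat.floor_le (by positivity)
  have hf2 : (f₀ : ℝ) ≤ P / 4 := by
    have h1 := hL.a4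
    rw [div_le_iff₀ (by positivity)] at h1
    have h2 : 160 * k * x ≤ n * ct k ^ 2 * x := mul_le_mul_of_nonneg_right h1 (by linarith)
    nlinarith
  set m₀ := vm n x with hmdef
  have hm1 : n * x / 1000 - 1 < m₀ := Nat.sub_one_lt_floor _
  have hRnd : Rnd G k (2 * k) D t q (cC k) (n / 4) m₀ (vb n) f₀ := by
    refine ⟨hboost, ?_, ?_, ?_, ?_, ?_, ?_, ?_, ?_, ?_, ?_, ?_⟩
    · intro W hW hWt
      exact hsparse W hW hWt
    · intro A' B' hAB hA hB
      have h1 : ¬ (#(between G A' B') : ℝ) ≤ (1 - 1 / 2) * (p * (t * t : ℕ)) := fun hc =>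
        hpair ⟨A', B', hAB, hA, hB, hc⟩
      push Not at h1
      have h2 : (q : ℝ) + f₀ ≤ #(between G A' B') := by
        have h3 : (1 - 1 / 2) * ((p : ℝ) * ((t * t : ℕ) : ℝ)) = P / 2 := by rw [hP]; ring
        linarith
      exact_mod_cast h2
    · have h1 : ed G ⊆ touching G univ := by
        intro e he
        rw [mem_ed] at he
        simp only [touching, mem_filter, mem_univ, true_and]
        refine ⟨he, ?_⟩
        induction e with
        | h a b => exact ⟨a, by simp⟩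
      have h2 := (card_le_card h1).trans (touching_le_sum G univ)
      have h3 : (#(ed G) : ℝ) ≤ n * (10 * x) := by
        have h4 : (#(ed G) : ℝ) ≤ ∑ v : Fin n, (#(nb G v) : ℝ) := by exact_mod_cast h2
        refine h4.trans ((Finset.sum_le_sum fun v _ => (hmax v).le).trans ?_)
        rw [sum_const, card_univ, Fintype.card_fin, nsmul_eq_mul]
      have h4 : (n : ℝ) * (10 * x) ≤ cC k * q := by
        have h5 : 320 / (ct k) ^ 2 ≤ cC k := Nat.le_ceil _
        calc (n : ℝ) * (10 * x) = 320 / (ct k) ^ 2 * (ct k ^ 2 * n * x / 32) := by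
              field_simp; ring
          _ ≤ cC k * q := mul_le_mul h5 hq3 (by positivity) (by positivity)
      have h5 : (#(ed G) : ℝ) ≤ ((cC k * q : ℕ) : ℝ) := by push_cast; linarith
      exact_mod_cast h5
    · have : (0 : ℝ) < q := by linarith
      have : 0 < q := by exact_mod_cast this
      omega
    · unfold cC
      rw [Nat.one_le_ceil_iff]
      positivity
    · omega
    · rw [Fintype.card_fin]
      have h1 : (8 * t : ℝ) ≤ n := by nlinarith
      have h2 : 8 * t ≤ n := by exact_mod_cast h1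
      have h3 := hL.a5
      have h3' : 8 * k + 8 ≤ n := by exact_mod_cast h3
      omega
    · have h1 : (8 * t : ℝ) ≤ n := by nlinarith
      have h2 : 8 * t ≤ n := by exact_mod_cast h1
      omega
    · rw [Fintype.card_fin]
      have h3 := hL.a5
      have h3' : 8 * k + 8 ≤ n := by exact_mod_cast h3
      omega
    · unfold vb
      have h1 : n ≤ 4 * (n / 4) + 3 := by omega
      set N := n / 4 with hN
      have h2 : n * n ≤ (4 * (N + 1)) * (4 * (N + 1)) := Nat.mul_le_mul (by omega) (by omega)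
      have h3 : (4 * (N + 1)) * (4 * (N + 1)) = 16 * ((N + 1) * (N + 1)) := by ring
      omega
    · rw [Fintype.card_fin]
      have h1 : ((n * D + 2 * cC k * n + k + n : ℕ) : ℝ) ≤ n * x / 1000 - 1 := by
        push_cast
        have h2 : (n : ℝ) * D ≤ n * x / 2000 := by
          have h3 : (D : ℝ) ≤ x / 2000 :=
            hD1.trans (div_le_div_of_nonneg_left (by linarith) (by norm_num) hMR)
          calc (n : ℝ) * D ≤ n * (x / 2000) := mul_le_mul_of_nonneg_left h3 hn0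
            _ = n * x / 2000 := by ring
        have h4 : (n : ℝ) * (2 * cC k + 3) ≤ n * x / 2000 := by
          have h5 : (2 * (cC k : ℝ) + 3) ≤ x / 2000 := by
            rw [le_div_iff₀ (by norm_num)]; linarith [hL.a6]
          calc (n : ℝ) * (2 * cC k + 3) ≤ n * (x / 2000) := mul_le_mul_of_nonneg_left h5 hn0
            _ = n * x / 2000 := by ring
        have h6 : (k : ℝ) + 1 ≤ n := by linarith
        nlinarith
      have h2 : ((n * D + 2 * cC k * n + k + n : ℕ) : ℝ) ≤ m₀ := by linarith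
      exact_mod_cast h2
  intro k' hk' hkk
  refine det_fk_gap hk' hkk hRnd le_rfl (by omega) (spread_of_not _ G hpat) ?_ ?_
  · intro v
    have := hmin v
    omega
  · have h3' : 8 * k + 8 ≤ n := hL.a5
    obtain ⟨S, _, hSc⟩ := Finset.exists_subset_card_eq (s := (univ : Finset (Fin n))) (n := k' - 1)
      (by rw [card_univ, Fintype.card_fin]; omega)
    have h1 := minTouch_le_sum (G := G) hSc
    have h2 : (minTouch k' G : ℝ) ≤ 10 * k * x := by
      have h4 : (minTouch k' G : ℝ) ≤ ∑ v ∈ S, (#(nb G v) : ℝ) := by exact_mod_cast h1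
      refine h4.trans ((Finset.sum_le_sum fun v _ => (hmax v).le).trans ?_)
      rw [sum_const, hSc, nsmul_eq_mul]
      have h5 : ((k' - 1 : ℕ) : ℝ) ≤ k := by exact_mod_cast (show k' - 1 ≤ k by omega)
      have h6 : ((k' - 1 : ℕ) : ℝ) * (10 * x) ≤ k * (10 * x) :=
        mul_le_mul_of_nonneg_right h5 (by linarith)
      linarith
    exact Nat.le_floor h2

end Pool.Agent.H977.E6.Q
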