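import Pool.Agent.H977.E6.QE

/-! Probability of the bad event and limits. -/

open MeasureTheory ProbabilityTheory unitInterval Finset Filter Topology
open scoped SimpleGraph

namespace Pool.Agent.H977.E6.Q

open Pool.Agent.H977.E6 Pool.Agent.V11328 Pool.Agent.V11328.E6

/-- bound -/
noncomputable def bd (k n : ℕ) (x : ℝ) : ℝ :=
  Real.exp (1 - x) + 2 * Real.exp (-(cg k * x / 4)) + Real.exp (-x) + Real.exp (-x) +
    Real.exp 2 * (n * (x * Real.exp (-x))) + 6 * (x ^ 4 * Real.exp (7 - x / 2))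

lemma boost_final {k n : ℕ} (hk : 2 ≤ k) {p : I} (hL : Lg k n (n * p)) :
    (G(Fin n, p)).real {G : SimpleGraph (Fin n) | ¬ Boost G k (vm n (n * p)) (vb n)
      (vf k (n * p))} ≤ Real.exp (1 - n * p) := by
  set x : ℝ := n * p with hx
  have hx6 := hL.xpos
  have hkR : (2 : ℝ) ≤ k := by exact_mod_cast hk
  have hp0 : (0 : ℝ) ≤ p := p.2.1
  have hp1 : (p : ℝ) ≤ 1 := p.2.2
  have hnR : (20000 : ℝ) * k ≤ n := hL.a8
  have hn0 : (0 : ℝ) < n := by linarith
  refine (boost_prob p k (vm n x) (vb n) (vf k x) (y := 1 / 100) (by norm_num)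
    (by norm_num)).trans ?_
  rw [Fintype.card_fin]
  have hlog := hL.a9
  -- polynomial factor
  have hl1 : Real.log ((n : ℝ) + 1) ≤ 2 * x := by
    have h1 : (n : ℝ) + 1 ≤ Real.exp 1 * n := by
      have := Real.exp_one_gt_d9
      nlinarith
    have h2 : Real.log ((n : ℝ) + 1) ≤ Real.log (Real.exp 1 * n) :=
      Real.log_le_log (by linarith) h1
    rw [Real.log_mul (Real.exp_pos _).ne' hn0.ne', Real.log_exp] at h2
    linarith
  have hn1 : (n : ℝ) + 1 ≤ Real.exp (2 * x) := by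
    rw [← Real.log_le_iff_le_exp (by linarith)]; exact hl1
  have hS : ((Fintype.card (Sym2 (Fin n)) : ℝ) + 1) ≤ Real.exp (2 * x) * Real.exp (2 * x) := by
    have h1 : Fintype.card (Sym2 (Fin n)) + 1 ≤ (n + 1) * (n + 1) := by
      rw [Sym2.card, Fintype.card_fin, Nat.choose_two_right]
      have h2 : (n + 1) * (n + 1 - 1) / 2 ≤ (n + 1) * n := by
        simp only [Nat.add_sub_cancel]
        exact Nat.div_le_self _ _
      nlinarith
    have h2 : ((Fintype.card (Sym2 (Fin n)) : ℝ) + 1) ≤ ((n : ℝ) + 1) * ((n : ℝ) + 1) := by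
      exact_mod_cast h1
    exact h2.trans (mul_le_mul hn1 hn1 (by positivity) (by positivity))
  have hA : (((n : ℝ) + 1) ^ k * ((Fintype.card (Sym2 (Fin n)) : ℝ) + 1) ^ k) ≤
      Real.exp (6 * k * x) := by
    calc (((n : ℝ) + 1) ^ k * ((Fintype.card (Sym2 (Fin n)) : ℝ) + 1) ^ k)
        ≤ (Real.exp (2 * x)) ^ k * (Real.exp (2 * x) * Real.exp (2 * x)) ^ k :=
          mul_le_mul (pow_le_pow_left₀ (by positivity) hn1 k)
            (pow_le_pow_left₀ (by positivity) hS k) (by positivity) (by positivity)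
      _ = Real.exp (6 * k * x) := by
          rw [← Real.exp_add, ← Real.exp_nat_mul, ← Real.exp_nat_mul, ← Real.exp_add]
          congr 1; ring
  have hB : (2 : ℝ) ^ (vf k x) ≤ Real.exp (10 * k * x) := by
    have h1 : (2 : ℝ) ≤ Real.exp 1 := by have := Real.exp_one_gt_d9; linarith
    have h2 : ((vf k x : ℕ) : ℝ) ≤ 10 * k * x := Nat.floor_le (by positivity)
    calc (2 : ℝ) ^ (vf k x) ≤ Real.exp 1 ^ (vf k x) := pow_le_pow_left₀ (by norm_num) h1 _
      _ = Real.exp (vf k x) := by rw [← Real.exp_nat_mul, mul_one]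
      _ ≤ _ := Real.exp_le_exp.2 h2
  have hC : Real.exp (-((p : ℝ) / 2 * (vb n : ℕ))) ≤ Real.exp (1 / 2 - n * x / 64) := by
    refine Real.exp_le_exp.2 ?_
    have h1 : n * n < 32 * (vb n + 1) := by unfold vb; omega
    have h2 : ((n : ℝ) * n) < 32 * ((vb n : ℕ) + 1) := by exact_mod_cast h1
    have h3 : (n : ℝ) * n / 32 - 1 ≤ (vb n : ℕ) := by linarith
    have h4 : (p : ℝ) / 2 * ((n : ℝ) * n / 32 - 1) ≤ (p : ℝ) / 2 * (vb n : ℕ) :=
      mul_le_mul_of_nonneg_left h3 (by positivity)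
    have h5 : (p : ℝ) / 2 * ((n : ℝ) * n / 32 - 1) = n * x / 64 - p / 2 := by rw [hx]; ring
    linarith
  have hD : ((1 : ℝ) / (1 / 100)) ^ (vm n x) ≤ Real.exp (n * x / 200) := by
    have h1 : (1 : ℝ) / (1 / 100) ≤ Real.exp 5 := by
      have h2 := Real.exp_one_gt_d9
      have h3 : Real.exp 5 = Real.exp 1 ^ 5 := by rw [← Real.exp_nat_mul]; norm_num
      have h4 : (2.7182818283 : ℝ) ^ 5 ≤ Real.exp 1 ^ 5 :=
        pow_le_pow_left₀ (by norm_num) h2.le 5
      have h5 : (100 : ℝ) ≤ (2.7182818283 : ℝ) ^ 5 := by norm_num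
      rw [h3]
      norm_num at *
      linarith
    have h2 : ((vm n x : ℕ) : ℝ) ≤ n * x / 1000 := Nat.floor_le (by positivity)
    calc ((1 : ℝ) / (1 / 100)) ^ (vm n x) ≤ Real.exp 5 ^ (vm n x) :=
          pow_le_pow_left₀ (by norm_num) h1 _
      _ = Real.exp ((vm n x : ℕ) * 5) := by rw [← Real.exp_nat_mul]
      _ ≤ _ := Real.exp_le_exp.2 (by linarith)
  have hE : Real.exp ((p : ℝ) * (1 / 100) * #(allE (Fin n))) ≤ Real.exp (n * x / 200) := by
    refine Real.exp_le_exp.2 ?_
    rw [card_allE, Fintype.card_fin, Nat.choose_two_right]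
    have h1 : ((n * (n - 1) / 2 : ℕ) : ℝ) ≤ n * n / 2 := by
      have h2 : ((n * (n - 1) / 2 : ℕ) : ℝ) ≤ ((n * (n - 1) : ℕ) : ℝ) / 2 := Nat.cast_div_le
      have h3 : ((n * (n - 1) : ℕ) : ℝ) ≤ n * n := by
        exact_mod_cast Nat.mul_le_mul_left _ (Nat.sub_le _ _)
      linarith
    have h2 : (p : ℝ) * (1 / 100) * ((n * (n - 1) / 2 : ℕ) : ℝ) ≤ (p : ℝ) * (1 / 100) * (n * n / 2) :=
      mul_le_mul_of_nonneg_left h1 (by positivity)
    have h3 : (p : ℝ) * (1 / 100) * (n * n / 2) = n * x / 200 := by rw [hx]; ring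
    linarith
  have hall := mul_le_mul hA (mul_le_mul (mul_le_mul hB hC (by positivity) (by positivity))
    (mul_le_mul hD hE (by positivity) (by positivity)) (by positivity) (by positivity))
    (by positivity) (by positivity)
  refine hall.trans ?_
  rw [← Real.exp_add, ← Real.exp_add, ← Real.exp_add, ← Real.exp_add]
  refine Real.exp_le_exp.2 ?_
  have h1 : 20000 * k * x ≤ n * x := mul_le_mul_of_nonneg_right hnR (by linarith)
  have h2 : x ≤ k * x := by nlinarith
  nlinarith

lemma pairs_final {k n : ℕ} (hk : 2 ≤ k) {p : I} (hL : Lg k n (n * p)) :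
    (G(Fin n, p)).real (badPair (V := Fin n) (p : ℝ) (vt k n)) ≤ Real.exp (-(n * p)) := by
  set x : ℝ := n * p with hx
  have hx6 := hL.xpos
  have hp0 : (0 : ℝ) ≤ p := p.2.1
  have hp1 : (p : ℝ) ≤ 1 := p.2.2
  have hτ := ct_pos hk
  have hn0 : (0 : ℝ) ≤ n := Nat.cast_nonneg n
  have hxn : x ≤ n := by
    rw [hx]; exact mul_le_of_le_one_right hn0 hp1
  refine (pairs_prob p (vt k n)).trans ?_
  rw [Fintype.card_fin]
  set t := vt k n with htdef
  have ht2 : ct k * n / 2 ≤ t := by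
    have h1 : ct k * n - 1 < t := Nat.sub_one_lt_floor _
    have h2 := hL.a3
    rw [div_le_iff₀ hτ] at h2
    linarith
  have hP1 : ct k ^ 2 * n * x / 4 ≤ (p : ℝ) * ((t * t : ℕ) : ℝ) := by
    push_cast
    have h1 : (ct k * n / 2) * (ct k * n / 2) ≤ (t : ℝ) * t :=
      mul_le_mul ht2 ht2 (by positivity) (by positivity)
    have h2 := mul_le_mul_of_nonneg_left h1 hp0
    have h3 : (p : ℝ) * ((ct k * n / 2) * (ct k * n / 2)) = ct k ^ 2 * n * x / 4 := by
      rw [hx]; ring
    linarith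
  have h4 : (4 : ℝ) ^ n ≤ Real.exp (2 * n) := by
    have h5 : (4 : ℝ) ≤ Real.exp 2 := by
      have h6 := Real.exp_one_gt_d9
      have h7 : Real.exp 2 = Real.exp 1 * Real.exp 1 := by
        rw [← Real.exp_add]; norm_num
      rw [h7]; nlinarith
    calc (4 : ℝ) ^ n ≤ Real.exp 2 ^ n := pow_le_pow_left₀ (by norm_num) h5 n
      _ = _ := by rw [← Real.exp_nat_mul]; congr 1; ring
  calc (4 : ℝ) ^ n * Real.exp (-((p : ℝ) * ((t * t : ℕ) : ℝ) / 16))
      ≤ Real.exp (2 * n) * Real.exp (-((p : ℝ) * ((t * t : ℕ) : ℝ) / 16)) :=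
        mul_le_mul_of_nonneg_right h4 (Real.exp_pos _).le
    _ = Real.exp (2 * n - (p : ℝ) * ((t * t : ℕ) : ℝ) / 16) := by
        rw [← Real.exp_add]; congr 1
    _ ≤ Real.exp (-x) := by
        refine Real.exp_le_exp.2 ?_
        have h5 := hL.a7
        rw [div_le_iff₀ (by positivity)] at h5
        have h6 : 200 * (n : ℝ) ≤ x * ct k ^ 2 * n := mul_le_mul_of_nonneg_right h5 hn0
        nlinarith

lemma sparse_final {k n : ℕ} (hk : 2 ≤ k) {p : I} (hL : Lg k n (n * p)) :
    (G(Fin n, p)).real {G | ∃ W : Finset (Fin n), W.Nonempty ∧ #W ≤ (5 + 2 * (2 * k)) * vt k n ∧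
      vD k (n * p) * #W ≤ c5 k * #(ed G ∩ W.sym2)} ≤ 2 * Real.exp (-(cg k * (n * p) / 4)) := by
  set x : ℝ := n * p with hx
  have hx6 := hL.xpos
  have hkR : (2 : ℝ) ≤ k := by exact_mod_cast hk
  have hp0 : (0 : ℝ) ≤ p := p.2.1
  have hMR : (2000 : ℝ) ≤ cM k := by exact_mod_cast cM_ge hk
  have hτ := ct_pos hk
  have h5R : (0 : ℝ) < c5 k := by exact_mod_cast c5_pos k
  have h := sparse_prob (V := Fin n) p (D := vD k x) (c₅ := c5 k)
    (w₁ := (5 + 2 * (2 * k)) * vt k n) (γ := cg k) (cg_pos hk) (cg_le hk) (c5_pos k) ?_ ?_ ?_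
  · rw [Fintype.card_fin] at h
    exact h
  · rw [Fintype.card_fin, ← hx]
    have hD2 : x / cM k - 1 < vD k x := Nat.sub_one_lt_floor _
    have h1 : 1 ≤ x / (2 * cM k) := by
      rw [one_le_div (by positivity)]
      have := hL.a1
      nlinarith
    have h2 : x / cM k = x / (2 * cM k) + x / (2 * cM k) := by field_simp; ring
    have h3 : (c5 k : ℝ) * (cg k * x) = x / (2 * cM k) := by
      unfold cg
      field_simp
    rw [h3]
    linarith
  · rw [Fintype.card_fin]; exact hL.a2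
  · rw [Fintype.card_fin]
    have h1 : (vt k n : ℝ) ≤ ct k * n := Nat.floor_le (by positivity)
    push_cast
    have h2 : (5 + 2 * (2 * (k : ℝ))) * vt k n ≤ (5 + 2 * (2 * (k : ℝ))) * (ct k * n) :=
      mul_le_mul_of_nonneg_left h1 (by positivity)
    refine h2.trans (le_of_eq ?_)
    unfold ct
    field_simp

theorem bad_prob {k n : ℕ} (hk : 2 ≤ k) {p : I} (hL : Lg k n (n * p)) :
    (G(Fin n, p)).real (Bad k n p) ≤ bd k n (n * p) := by
  have hx6 := hL.xpos
  have hp0 : (0 : ℝ) ≤ p := p.2.1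
  have hMR : (2000 : ℝ) ≤ cM k := by exact_mod_cast cM_ge hk
  have hn0 : (0 : ℝ) ≤ n := Nat.cast_nonneg n
  have hnpos : (0 : ℝ) < n := by
    have h1 := hL.a8
    have hkR : (2 : ℝ) ≤ k := by exact_mod_cast hk
    linarith
  unfold Bad
  refine (measureReal_union_le _ _).trans ?_
  unfold bd
  refine add_le_add ?_ ?_
  · refine (measureReal_union_le _ _).trans ?_
    refine add_le_add ?_ ?_
    · refine (measureReal_union_le _ _).trans ?_
      refine add_le_add ?_ ?_
      · refine (measureReal_union_le _ _).trans ?_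
        refine add_le_add ?_ (pairs_final hk hL)
        refine (measureReal_union_le _ _).trans ?_
        exact add_le_add (boost_final hk hL) (sparse_final hk hL)
      · have h := maxdeg_prob (V := Fin n) p
        rw [Fintype.card_fin] at h
        refine h.trans ?_
        have h2 : (n : ℝ) ≤ Real.exp (n * p) := by
          rw [← Real.log_le_iff_le_exp hnpos]; exact hL.a9
        calc (n : ℝ) * Real.exp (-(8 * (n * (p : ℝ))))
            ≤ Real.exp (n * p) * Real.exp (-(8 * (n * (p : ℝ)))) :=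
              mul_le_mul_of_nonneg_right h2 (Real.exp_pos _).le
          _ = Real.exp (n * p + -(8 * (n * (p : ℝ)))) := by rw [← Real.exp_add]
          _ ≤ Real.exp (-(n * p)) := Real.exp_le_exp.2 (by linarith)
    · have h := mindeg_prob (V := Fin n) p (by rw [Fintype.card_fin]; linarith)
      rw [Fintype.card_fin] at h
      exact h
  · refine (measureReal_iUnion_fintype_le _).trans ?_
    have h : ∀ i : Fin 6, (G(Fin n, p)).real (badPat (V := Fin n) (vth k (n * p)) i) ≤
        ((n : ℝ) * p) ^ 4 * Real.exp (7 - (n : ℝ) * p / 2) := by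
      intro i
      have h1 := badPat_prob (V := Fin n) p (a := vth k (n * p))
        (by rw [Fintype.card_fin]; linarith) (by rw [Fintype.card_fin]; exact hL.a9) (by
          rw [Fintype.card_fin]
          have hD1 : (vD k (n * p) : ℝ) ≤ n * p / cM k := Nat.floor_le (by positivity)
          rw [le_div_iff₀ (by positivity)] at hD1
          have h2 : 40 * vth k (n * p) = vD k (n * p) * cM k := by
            unfold vth cM
            ring
          have h3 : 40 * (vth k (n * p) : ℝ) = vD k (n * p) * cM k := by exact_mod_cast h2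
          rw [h3]; exact hD1) i
      rw [Fintype.card_fin] at h1
      exact h1
    refine (Finset.sum_le_sum fun i _ => h i).trans (le_of_eq ?_)
    simp

end Pool.Agent.H977.E6.Q
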