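import Pool.Agent.H977.E6.QF

/-! Limits and the main theorem, with a growing number of paths. -/

open MeasureTheory ProbabilityTheory unitInterval Finset Filter Topology
open scoped SimpleGraph

namespace Pool.Agent.H977.E6.Q

open Pool.Agent.H977.E6 Pool.Agent.V11328 Pool.Agent.V11328.E6

lemma x_facts {p : ℕ → I}
    (hp : Tendsto (fun n : ℕ => (n : ℝ) * p n - Real.log n - Real.log (Real.log n)) atTop atTop) :
    (∀ᶠ n : ℕ in atTop, Real.log n ≤ (n : ℝ) * p n) ∧
      Tendsto (fun n : ℕ => (n : ℝ) * p n) atTop atTop := by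
  have hlogn : Tendsto (fun n : ℕ => Real.log (n : ℝ)) atTop atTop :=
    Real.tendsto_log_atTop.comp tendsto_natCast_atTop_atTop
  have h1 : ∀ᶠ n : ℕ in atTop, Real.log n ≤ (n : ℝ) * p n := by
    filter_upwards [hp.eventually_ge_atTop 0, hlogn.eventually_ge_atTop 1] with n h1 h2
    have : 0 ≤ Real.log (Real.log n) := Real.log_nonneg h2
    linarith
  exact ⟨h1, tendsto_atTop_mono' _ h1 hlogn⟩

lemma nx_exp {p : ℕ → I}
    (hp : Tendsto (fun n : ℕ => (n : ℝ) * p n - Real.log n - Real.log (Real.log n)) atTop atTop) :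
    Tendsto (fun n : ℕ => (n : ℝ) * (((n : ℝ) * p n) * Real.exp (-((n : ℝ) * p n)))) atTop
      (𝓝 0) := by
  obtain ⟨hl, hx⟩ := x_facts hp
  have hlogn : Tendsto (fun n : ℕ => Real.log (n : ℝ)) atTop atTop :=
    Real.tendsto_log_atTop.comp tendsto_natCast_atTop_atTop
  have hmain : Tendsto (fun n : ℕ => Real.log n + Real.log (n * p n) - n * p n)
      atTop atBot := by
    rw [tendsto_atBot]
    intro M
    filter_upwards [hp.eventually_ge_atTop (-M + Real.log 4),
      hlogn.eventually_ge_atTop 1, hlogn.eventually_ge_atTop (2 - M),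
      hx.eventually_ge_atTop 1] with n h1 h2 h3 h0
    set L := Real.log (n : ℝ) with hL
    set x : ℝ := (n : ℝ) * p n with hx
    by_cases hc : x ≤ 4 * L
    · have h4 : Real.log x ≤ Real.log 4 + Real.log L := by
        rw [← Real.log_mul (by norm_num) (by linarith)]
        exact Real.log_le_log (by linarith) hc
      linarith
    · push Not at hc
      have h5 : Real.log x ≤ x / 8 + 2 := by
        have h6 : Real.log (x / 8) ≤ x / 8 - 1 := Real.log_le_sub_one_of_pos (by positivity)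
        rw [Real.log_div (by linarith) (by norm_num)] at h6
        have h7 : Real.log 8 ≤ 3 := by
          rw [Real.log_le_iff_le_exp (by norm_num)]
          have h8 := Real.exp_one_gt_d9
          have h9 : Real.exp 3 = Real.exp 1 * Real.exp 1 * Real.exp 1 := by
            rw [← Real.exp_add, ← Real.exp_add]; norm_num
          rw [h9]
          nlinarith
        linarith
      linarith
  refine (Real.tendsto_exp_atBot.comp hmain).congr' ?_
  filter_upwards [eventually_ge_atTop 1, hx.eventually_ge_atTop 1] with n h1 h2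
  have hn : (0 : ℝ) < n := by exact_mod_cast h1
  simp only [Function.comp]
  rw [sub_eq_add_neg, Real.exp_add, Real.exp_add, Real.exp_log hn, Real.exp_log (by linarith)]
  ring

/-- explicit lower bounds for the constants -/
lemma cg_low {k : ℕ} (hk : 2 ≤ k) : 1 / (16640 * (k : ℝ) ^ 3) ≤ cg k := by
  have hkR : (2 : ℝ) ≤ k := by exact_mod_cast hk
  unfold cg cM c5
  push_cast
  refine one_div_le_one_div_of_le (by positivity) ?_
  nlinarith [sq_nonneg (k : ℝ), mul_nonneg (sq_nonneg (k : ℝ)) (by linarith : (0 : ℝ) ≤ k - 2)]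

lemma ct_low {k : ℕ} (hk : 2 ≤ k) : 1 / (10 ^ 11 * (k : ℝ) ^ 7) ≤ ct k := by
  have hkR : (2 : ℝ) ≤ k := by exact_mod_cast hk
  have h1 := cg_low hk
  have h2 : (1 / (16640 * (k : ℝ) ^ 3)) ^ 2 ≤ cg k ^ 2 := pow_le_pow_left₀ (by positivity) h1 2
  unfold ct
  have h3 : (1 / (16640 * (k : ℝ) ^ 3)) ^ 2 / (8 * (5 + 2 * (2 * k))) ≤
      cg k ^ 2 / (8 * (5 + 2 * (2 * k))) := by gcongr
  refine le_trans ?_ h3
  rw [div_pow, one_pow, div_div]
  refine one_div_le_one_div_of_le (by positivity) ?_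
  have h4 : (8 * (5 + 2 * (2 * (k : ℝ)))) ≤ 52 * k := by linarith
  calc (16640 * (k : ℝ) ^ 3) ^ 2 * (8 * (5 + 2 * (2 * k)))
      ≤ (16640 * (k : ℝ) ^ 3) ^ 2 * (52 * k) := mul_le_mul_of_nonneg_left h4 (by positivity)
    _ = (16640 ^ 2 * 52) * (k : ℝ) ^ 7 := by ring
    _ ≤ 10 ^ 11 * (k : ℝ) ^ 7 := by
        refine mul_le_mul_of_nonneg_right (by norm_num) (by positivity)

lemma ct_inv {k : ℕ} (hk : 2 ≤ k) : 1 / ct k ≤ 10 ^ 11 * (k : ℝ) ^ 7 := by
  have hkR : (2 : ℝ) ≤ k := by exact_mod_cast hk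
  rw [one_div_le (ct_pos hk) (by positivity)]
  exact ct_low hk

lemma ct_inv2 {k : ℕ} (hk : 2 ≤ k) : 1 / ct k ^ 2 ≤ 10 ^ 22 * (k : ℝ) ^ 14 := by
  have h1 := pow_le_pow_left₀ (by have := ct_pos hk; positivity) (ct_inv hk) 2
  rw [div_pow, one_pow] at h1
  refine h1.trans (le_of_eq ?_)
  ring

/-- One condition implies all largeness conditions. -/
lemma lg_of {k n : ℕ} (hk : 2 ≤ k) {x : ℝ} (hx : 10 ^ 30 * (k : ℝ) ^ 15 ≤ x) (hxn : x ≤ n)
    (hl : Real.log n ≤ x) : Lg k n x := by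
  have hkR : (2 : ℝ) ≤ k := by exact_mod_cast hk
  have hk1 : (1 : ℝ) ≤ k := by linarith
  have pw : ∀ j : ℕ, j ≤ 15 → (k : ℝ) ^ j ≤ (k : ℝ) ^ 15 := fun j hj => pow_le_pow_right₀ hk1 hj
  have p0 : (1 : ℝ) ≤ (k : ℝ) ^ 15 := one_le_pow₀ hk1
  have p1 := pw 1 (by norm_num)
  have p3 := pw 3 (by norm_num)
  have p7 := pw 7 (by norm_num)
  have p14 := pw 14 (by norm_num)
  rw [pow_one] at p1
  have i1 := ct_inv hk
  have i2 := ct_inv2 hk
  have hct := ct_pos hk
  have hcg := cg_pos hk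
  refine ⟨?_, ?_, ?_, ?_, ?_, ?_, ?_, ?_, hl⟩
  · unfold cM
    push_cast
    have : 32 * (640 * (k : ℝ) * k) * k = 20480 * (k : ℝ) ^ 3 := by ring
    rw [this]
    linarith
  · have h1 := cg_low hk
    have h2 : 1 / (16640 * (k : ℝ) ^ 3) * x ≤ cg k * x :=
      mul_le_mul_of_nonneg_right h1 (by linarith)
    refine le_trans ?_ h2
    rw [one_div, ← div_eq_inv_mul, le_div_iff₀ (by positivity)]
    linarith
  · have : 2 / ct k = 2 * (1 / ct k) := by ring
    rw [this]
    linarith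
  · have : 160 * (k : ℝ) / ct k ^ 2 = 160 * (k * (1 / ct k ^ 2)) := by ring
    rw [this]
    have h1 : (k : ℝ) * (1 / ct k ^ 2) ≤ k * (10 ^ 22 * (k : ℝ) ^ 14) :=
      mul_le_mul_of_nonneg_left i2 (by linarith)
    have h2 : (k : ℝ) * (10 ^ 22 * (k : ℝ) ^ 14) = 10 ^ 22 * (k : ℝ) ^ 15 := by ring
    linarith
  · have h1 : ((8 * k + 8 : ℕ) : ℝ) ≤ n := by
      push_cast
      linarith
    exact_mod_cast h1
  · have h1 : (cC k : ℝ) ≤ 320 / ct k ^ 2 + 1 := by
      unfold cC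
      exact (Nat.ceil_lt_add_one (by positivity)).le
    have h2 : 320 / ct k ^ 2 = 320 * (1 / ct k ^ 2) := by ring
    rw [h2] at h1
    linarith
  · have : 200 / ct k ^ 2 = 200 * (1 / ct k ^ 2) := by ring
    rw [this]
    linarith
  · linarith

lemma key_tendsto {p : ℕ → I} {K : ℕ → ℕ} (hK2 : ∀ n, 2 ≤ K n)
    (hK : Tendsto (fun n : ℕ => (K n : ℝ) ^ 15 / ((n : ℝ) * p n)) atTop (𝓝 0))
    (hx : Tendsto (fun n : ℕ => (n : ℝ) * p n) atTop atTop) :
    Tendsto (fun n : ℕ => (n : ℝ) * p n / (K n : ℝ) ^ 15) atTop atTop := by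
  have h1 : Tendsto (fun n : ℕ => (K n : ℝ) ^ 15 / ((n : ℝ) * p n)) atTop (𝓝[>] 0) := by
    rw [tendsto_nhdsWithin_iff]
    refine ⟨hK, ?_⟩
    filter_upwards [hx.eventually_gt_atTop 0] with n hn
    have : (0 : ℝ) < K n := by exact_mod_cast (show 0 < K n by have := hK2 n; omega)
    exact div_pos (by positivity) hn
  refine (tendsto_inv_nhdsGT_zero.comp h1).congr fun n => ?_
  simp [Function.comp]

lemma lg_eventually {p : ℕ → I}
    (hp : Tendsto (fun n : ℕ => (n : ℝ) * p n - Real.log n - Real.log (Real.log n)) atTop atTop)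
    {K : ℕ → ℕ} (hK2 : ∀ n, 2 ≤ K n)
    (hK : Tendsto (fun n : ℕ => (K n : ℝ) ^ 15 / ((n : ℝ) * p n)) atTop (𝓝 0)) :
    ∀ᶠ n : ℕ in atTop, Lg (K n) n (n * p n) := by
  obtain ⟨hl, hx⟩ := x_facts hp
  have hq := key_tendsto hK2 hK hx
  filter_upwards [hl, hq.eventually_ge_atTop (10 ^ 30)] with n h1 h2
  refine lg_of (hK2 n) ?_ ?_ h1
  · have : (0 : ℝ) < K n := by exact_mod_cast (show 0 < K n by have := hK2 n; omega)
    rwa [le_div_iff₀ (by positivity)] at h2
  · exact mul_le_of_le_one_right (Nat.cast_nonneg n) (p n).2.2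

lemma bd_tendsto {p : ℕ → I}
    (hp : Tendsto (fun n : ℕ => (n : ℝ) * p n - Real.log n - Real.log (Real.log n)) atTop atTop)
    {K : ℕ → ℕ} (hK2 : ∀ n, 2 ≤ K n)
    (hK : Tendsto (fun n : ℕ => (K n : ℝ) ^ 15 / ((n : ℝ) * p n)) atTop (𝓝 0)) :
    Tendsto (fun n : ℕ => bd (K n) n (n * p n)) atTop (𝓝 0) := by
  obtain ⟨hl, hx⟩ := x_facts hp
  have hq := key_tendsto hK2 hK hx
  have hneg : ∀ c : ℝ, 0 < c → ∀ a : ℝ,
      Tendsto (fun n : ℕ => Real.exp (a - c * ((n : ℝ) * p n))) atTop (𝓝 0) := by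
    intro c hc a
    refine Real.tendsto_exp_atBot.comp ?_
    refine tendsto_atBot_add_const_left _ a ?_
    exact tendsto_neg_atTop_atBot.comp (hx.const_mul_atTop hc)
  have t1 : Tendsto (fun n : ℕ => Real.exp (1 - (n : ℝ) * p n)) atTop (𝓝 0) := by
    have := hneg 1 one_pos 1
    simpa using this
  have t2 : Tendsto (fun n : ℕ => 2 * Real.exp (-(cg (K n) * ((n : ℝ) * p n) / 4))) atTop
      (𝓝 0) := by
    have hcgx : Tendsto (fun n : ℕ => cg (K n) * ((n : ℝ) * p n)) atTop atTop := by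
      refine tendsto_atTop_mono' _ ?_ (hq.const_mul_atTop (show (0 : ℝ) < 1 / 16640 by norm_num))
      filter_upwards [hx.eventually_ge_atTop 0] with n hn
      have hk : (1 : ℝ) ≤ K n := by exact_mod_cast (show 1 ≤ K n by have := hK2 n; omega)
      have h1 := cg_low (hK2 n)
      have h2 : 1 / (16640 * (K n : ℝ) ^ 15) ≤ 1 / (16640 * (K n : ℝ) ^ 3) := by
        refine one_div_le_one_div_of_le (by positivity) ?_
        exact mul_le_mul_of_nonneg_left (pow_le_pow_right₀ hk (by norm_num)) (by norm_num)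
      calc 1 / 16640 * ((n : ℝ) * p n / (K n : ℝ) ^ 15)
          = 1 / (16640 * (K n : ℝ) ^ 15) * ((n : ℝ) * p n) := by field_simp
        _ ≤ cg (K n) * ((n : ℝ) * p n) := mul_le_mul_of_nonneg_right (h2.trans h1) hn
    have h3 : Tendsto (fun n : ℕ => -(cg (K n) * ((n : ℝ) * p n) / 4)) atTop atBot :=
      tendsto_neg_atTop_atBot.comp (hcgx.atTop_div_const (by norm_num))
    have h4 := (Real.tendsto_exp_atBot.comp h3).const_mul 2
    rw [mul_zero] at h4
    exact h4
  have t3 : Tendsto (fun n : ℕ => Real.exp (-((n : ℝ) * p n))) atTop (𝓝 0) := by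
    have := hneg 1 one_pos 0
    simpa using this
  have t4 := (nx_exp hp).const_mul (Real.exp 2)
  rw [mul_zero] at t4
  have t5 : Tendsto (fun n : ℕ => 6 * (((n : ℝ) * p n) ^ 4 * Real.exp (7 - (n : ℝ) * p n / 2)))
      atTop (𝓝 0) := by
    have h1 := (Real.tendsto_pow_mul_exp_neg_atTop_nhds_zero 4).comp
      (hx.atTop_div_const (show (0 : ℝ) < 2 by norm_num))
    have h2 := h1.const_mul (6 * 16 * Real.exp 7)
    rw [mul_zero] at h2
    refine h2.congr fun n => ?_
    simp only [Function.comp]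
    rw [sub_eq_add_neg, Real.exp_add]
    ring
  have := ((((t1.add t2).add t3).add t3).add t4).add t5
  simpa [bd] using this

theorem main_two (p : ℕ → I)
    (hp : Tendsto (fun n : ℕ => (n : ℝ) * p n - Real.log n - Real.log (Real.log n)) atTop atTop)
    {K : ℕ → ℕ} (hK2 : ∀ n, 2 ≤ K n)
    (hK : Tendsto (fun n : ℕ => (K n : ℝ) ^ 15 / ((n : ℝ) * p n)) atTop (𝓝 0)) :
    Tendsto (fun n : ℕ => (G(Fin n, p n)) {G | ∀ k, 2 ≤ k → k ≤ K n →
      fk k G = (minTouch k G : ℕ∞)}) atTop (𝓝 1) := by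
  refine tendsto_one (B := fun n => Bad (K n) n (p n)) (b := fun n => bd (K n) n (n * p n)) ?_ ?_
    (bd_tendsto hp hK2 hK)
  · filter_upwards [lg_eventually hp hK2 hK] with n hn G hG
    exact fk_of_not_bad (hK2 n) hn hG
  · filter_upwards [lg_eventually hp hK2 hK] with n hn
    exact bad_prob (hK2 n) hn

/-- Exact value of `f_k`, simultaneously for all `2 ≤ k ≤ K(n)`. -/
theorem main (p : ℕ → I)
    (hp : Tendsto (fun n : ℕ => (n : ℝ) * p n - Real.log n - Real.log (Real.log n)) atTop atTop)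
    {K : ℕ → ℕ} (hK : Tendsto (fun n : ℕ => (K n : ℝ) ^ 15 / ((n : ℝ) * p n)) atTop (𝓝 0)) :
    Tendsto (fun n : ℕ => (G(Fin n, p n)) {G | ∀ k, 2 ≤ k → k ≤ K n →
      fk k G = (minTouch k G : ℕ∞)}) atTop (𝓝 1) := by
  obtain ⟨hl, hx⟩ := x_facts hp
  have hK' : Tendsto (fun n : ℕ => ((max (K n) 2 : ℕ) : ℝ) ^ 15 / ((n : ℝ) * p n)) atTop
      (𝓝 0) := by
    have h1 : Tendsto (fun n : ℕ => (2 : ℝ) ^ 15 / ((n : ℝ) * p n)) atTop (𝓝 0) :=
      hx.const_div_atTop _
    have h2 := hK.add h1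
    rw [add_zero] at h2
    refine squeeze_zero' ?_ ?_ h2
    · filter_upwards [hx.eventually_gt_atTop 0] with n hn
      positivity
    · filter_upwards [hx.eventually_gt_atTop 0] with n hn
      rw [← add_div]
      refine div_le_div_of_nonneg_right ?_ hn.le
      rcases le_total (K n) 2 with h | h
      · rw [max_eq_right h]
        push_cast
        have : (0 : ℝ) ≤ (K n : ℝ) ^ 15 := by positivity
        linarith
      · rw [max_eq_left h]
        have : (0 : ℝ) ≤ (2 : ℝ) ^ 15 := by positivity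
        linarith
  have h := main_two p hp (K := fun n => max (K n) 2) (fun n => le_max_right _ _) hK'
  refine tendsto_of_tendsto_of_tendsto_of_le_of_le h tendsto_const_nhds ?_ ?_
  · intro n
    refine measure_mono ?_
    intro G hG k hk hkK
    exact hG k hk (hkK.trans (le_max_left _ _))
  · intro n
    exact prob_le_one

end Pool.Agent.H977.E6.Q
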