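import Pool.Agent.H977.E6.Expand

/-! Robust Hamiltonicity from the booster property. -/

open Finset

namespace Pool.Agent.H977.E6

open Pool.Agent.V11328 Pool.Agent.V11328.E6

variable {V : Type*} [Fintype V] [DecidableEq V]

/-- The graph `G` without the pairs in `F`, restricted to `U`. -/
def subG (G : SimpleGraph V) (F : Finset (Sym2 V)) (U : Finset V) : SimpleGraph V where
  Adj x y := G.Adj x y ∧ s(x, y) ∉ F ∧ x ∈ U ∧ y ∈ U
  symm := by
    constructor
    intro x y h
    exact ⟨h.1.symm, by rw [Sym2.eq_swap]; exact h.2.1, h.2.2.2, h.2.2.1⟩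
  loopless := ⟨fun x h => G.loopless.irrefl x h.1⟩

/-- The graph with edge set `A`. -/
abbrev fG (A : Finset (Sym2 V)) : SimpleGraph V := SimpleGraph.fromEdgeSet (A : Set (Sym2 V))

omit [Fintype V] in
lemma subG_adj {G : SimpleGraph V} {F : Finset (Sym2 V)} {U : Finset V} {x y : V} :
    (subG G F U).Adj x y ↔ G.Adj x y ∧ s(x, y) ∉ F ∧ x ∈ U ∧ y ∈ U := Iff.rfl

omit [Fintype V] in
lemma subG_le {G : SimpleGraph V} {F : Finset (Sym2 V)} {U : Finset V} : subG G F U ≤ G :=
  fun _ _ h => h.1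

/-- Every small subgraph together with few extra edges having many boosters has more than `f₀`
boosters in `G`. -/
def Boost (G : SimpleGraph V) (K m₀ b f₀ : ℕ) : Prop :=
  ∀ (U : Finset V) (A T : Finset (Sym2 V)), #(univ \ U) ≤ K → #A ≤ K → T ⊆ ed G → #T ≤ m₀ →
    b ≤ #(Bst (fG (T ∪ A)) U) → f₀ < #(Bst (fG (T ∪ A)) U ∩ ed G)

/-- Properties of the random graph used for robust Hamiltonicity. -/
structure Rnd (G : SimpleGraph V) (K K₀ D t q C N m₀ b f₀ : ℕ) : Prop where
  boost : Boost G K m₀ b f₀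
  sparse : ∀ W : Finset V, W.Nonempty → #W ≤ (5 + 2 * K₀) * t →
      2 * (5 + 2 * K₀) * #(ed G ∩ W.sym2) < D * #W
  pairs : ∀ A' B' : Finset V, Disjoint A' B' → #A' = t → #B' = t → q + f₀ ≤ #(between G A' B')
  edges : #(ed G) ≤ C * q
  hq : 1 ≤ q
  hC : 1 ≤ C
  hD : 2 ≤ D
  hN : 3 * N + t + K ≤ Fintype.card V
  htN : t ≤ N
  hV : K + 2 ≤ Fintype.card V
  hb : 2 * b ≤ (N + 1) * (N + 1)
  hm : Fintype.card V * D + 2 * C * Fintype.card V + K + Fintype.card V ≤ m₀

theorem robust {G : SimpleGraph V} {F A : Finset (Sym2 V)} {U SM SM₀ : Finset V}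
    {K K₀ D t q C N m₀ b f₀ : ℕ} (h : Rnd G K K₀ D t q C N m₀ b f₀)
    (hP : Pre (subG G F U) A U SM SM₀ D K₀) (hU : #(univ \ U) ≤ K) (hA : #A ≤ K)
    (hF : #F ≤ f₀) : HamC (subG G F U ⊔ fG A) U := by
  classical
  have hUc : Fintype.card V ≤ #U + K := by
    have h1 : #(univ \ U) + #U = Fintype.card V := by
      rw [card_sdiff_add_card_eq_card (subset_univ U), card_univ]
    omega
  have hUle : #U ≤ Fintype.card V := card_le_univ U
  have hedle : ed (subG G F U) ⊆ ed G := by
    intro e he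
    rw [mem_ed] at he ⊢
    exact SimpleGraph.edgeSet_subset_edgeSet.2 subG_le he
  obtain ⟨Γ₀, h1, h2, h3⟩ := expander hP h.hD (t := t) (N := N) (q := q) (C := C) (by
      intro W hW hWt
      refine lt_of_le_of_lt ?_ (h.sparse W hW hWt)
      exact Nat.mul_le_mul_left _ (card_le_card (inter_subset_inter_right hedle)))
    (by
      intro A' B' hAB hAU hBU hAt hBt
      have h4 := h.pairs A' B' hAB hAt hBt
      have h5 : between G A' B' ⊆ between (subG G F U) A' B' ∪ F := by
        intro e he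
        simp only [between, mem_filter, mem_univ, true_and, mem_union] at he ⊢
        obtain ⟨he, x, hx, y, hy, rfl⟩ := he
        by_cases hc : s(x, y) ∈ F
        · exact Or.inr hc
        · left
          refine ⟨?_, x, hx, y, hy, rfl⟩
          exact ⟨he, hc, hAU hx, hBU hy⟩
      have h6 := (card_le_card h5).trans (card_union_le _ _)
      omega)
    h.hq h.hC ((card_le_card hedle).trans h.edges) (by have := h.hN; omega) h.htN
    (by have := h.hV; omega)
  have hUne : U.Nonempty := by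
    rw [← card_pos]; have := h.hV; omega
  refine hamC_of_boost h1 ?_ hUne
  intro Γ hΓ₀ hΓH hΓc hnH
  set T : Finset (Sym2 V) := ed Γ \ A with hT
  set A' : Finset (Sym2 V) := ed Γ ∩ A with hA'
  have hTA : T ∪ A' = ed Γ := by
    rw [hT, hA']; exact Finset.sdiff_union_inter _ _
  have hΓeq : fG (T ∪ A') = Γ := by
    rw [hTA]
    show SimpleGraph.fromEdgeSet _ = Γ
    rw [ed_coe, SimpleGraph.fromEdgeSet_edgeSet]
  have hTG : T ⊆ ed (subG G F U) := by
    intro e he
    rw [hT, mem_sdiff, mem_ed] at he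
    have h4 := SimpleGraph.edgeSet_subset_edgeSet.2 hΓH he.1
    rw [SimpleGraph.edgeSet_sup, SimpleGraph.edgeSet_fromEdgeSet] at h4
    rw [mem_ed]
    rcases h4 with h4 | h4
    · exact h4
    · exact absurd h4.1 he.2
  have hTc : #T ≤ m₀ := by
    have h4 : #T ≤ #(ed Γ) := card_le_card (by rw [hT]; exact sdiff_subset)
    have h5 := h.hm
    have h6 : #U * D ≤ Fintype.card V * D := Nat.mul_le_mul_right _ hUle
    omega
  have hone : ∀ u v w, v ∈ SM → w ∈ SM → Γ.Adj u v → Γ.Adj u w → v = w :=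
    fun u v w hv hw ha hb => hP.one u v w hv hw (hΓH ha) (hΓH hb)
  have hcB := card_Bst (h3.mono hΓ₀) hone hnH (by have := h.hV; omega)
  have hb' := h.boost U A' T hU ((card_le_card inter_subset_right).trans hA) (hTG.trans hedle) hTc
    (by rw [hΓeq]; have := h.hb; omega)
  rw [hΓeq] at hb'
  obtain ⟨e, he, heF⟩ : ∃ e ∈ Bst Γ U ∩ ed G, e ∉ F := by
    by_contra hcon
    push Not at hcon
    have : #(Bst Γ U ∩ ed G) ≤ #F := card_le_card hcon
    omega
  rw [mem_inter] at he
  refine ⟨e, he.1, ?_⟩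
  have h7 := mem_Bst.1 he.1
  have h8 := he.2
  rw [mem_ed] at h8
  rw [SimpleGraph.edgeSet_sup]
  left
  induction e with
  | h x y =>
    exact ⟨h8, heF, h7.2.2.1 x (by simp), h7.2.2.1 y (by simp)⟩

end Pool.Agent.H977.E6
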